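import Pool.Agent.Lib.BPT.Basic

/-!
# Module BPT.Tri: block triangular form over the local ring

`tri_fin`: by induction on `n`: for `g ∈ GL_n(K)` there is `k ∈ GL_n(O_v)` with `g k` upper
triangular. Step `n + 1`: let `r` be the last row of `g`, choose `j` with `v.val (r j)` maximal
(nonzero). A unimodular column operation (swap `j` and the last column, then subtract multiples
`r i / r j ∈ O_v` of it from the others) makes the last row `(0, ..., 0, r j)`. The upper left
`n × n` block is invertible (determinant); apply the induction hypothesis to it.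
A convenient form of one step: the matrix `k = 1 - (...)` or `Matrix.updateRow 1 j r'` with
`r' i = - r i / r j` (`i ≠ j`), `r' j = 1` has determinant one (`det_updateRow...`), regular entries,
so is `Unimod` by `unimod_of_det`; and `g k` has `j`-th column = `j`-th column of `g` and the other
columns `col i - (r i / r j) col j`.

`tri_block`: transport to `α ⊕ β` by `Fintype.equivFin` and `finSumFinEquiv`
(`α ⊕ β ≃ Fin a ⊕ Fin b ≃ Fin (a + b)`): the entries with row in `β` and column in `α` are below the
diagonal. (`reGL` of Constr is reindexing of `GL`; import Constr if convenient.)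
-/

namespace Pool.Agent.Lib.BPT

open Matrix WithZero

set_option linter.unusedSectionVars false

variable {K : Type} [Field K] [Algebra ℂ K]

namespace TriAux

variable {ι : Type} [Fintype ι] [DecidableEq ι]

/-- the matrix `1 + a bᵀ` with `b ⬝ a = 0` -/
noncomputable def tv (a b : ι → K) (h : b ⬝ᵥ a = 0) : GL ι K where
  val := 1 + vecMulVec a b
  inv := 1 - vecMulVec a b
  val_inv := by
    rw [Matrix.add_mul, Matrix.one_mul, Matrix.mul_sub, Matrix.mul_one, vecMulVec_mul_vecMulVec, h,
      zero_smul, vecMulVec_zero]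
    abel
  inv_val := by
    rw [Matrix.sub_mul, Matrix.one_mul, Matrix.mul_add, Matrix.mul_one, vecMulVec_mul_vecMulVec, h,
      zero_smul, vecMulVec_zero]
    abel

theorem unimod_tv {v : Place K} {a b : ι → K} (h : b ⬝ᵥ a = 0) (ha : ∀ i, v.1 (a i) ≤ 1)
    (hb : ∀ i, v.1 (b i) ≤ 1) : Unimod v (tv a b h) := by
  have h1 : IsInt v (vecMulVec a b) := by
    intro i j
    rw [vecMulVec_apply, map_mul]
    exact mul_le_one' (ha i) (hb j)
  exact ⟨IsInt.one.add h1, IsInt.one.sub h1⟩

theorem vecMul_tv {a b : ι → K} (h : b ⬝ᵥ a = 0) (y : ι → K) :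
    y ᵥ* (tv a b h).1 = y + (y ⬝ᵥ a) • b := by
  change y ᵥ* (1 + vecMulVec a b) = _
  rw [vecMul_add, vecMul_one, vecMul_vecMulVec]

theorem val_single_le (v : Place K) (l i : ι) : v.1 ((Pi.single l 1 : ι → K) i) ≤ 1 := by
  rw [Pi.single_apply]
  split_ifs <;> simp

/-- clearing a row whose entry at `l` has the largest valuation -/
theorem row_max (v : Place K) (S : ι → Prop) (l : ι) (hl : S l) (r : ι → K)
    (_hr : ∀ i, ¬ S i → r i = 0) (h0 : r l ≠ 0) (hmax : ∀ i, v.1 (r i) ≤ v.1 (r l)) :
    ∃ k : GL ι K, Unimod v k ∧ (∀ i, i ≠ l → (r ᵥ* k.1) i = 0) ∧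
      ∀ y : ι → K, (∀ i, S i → y i = 0) → y ᵥ* k.1 = y := by
  let b : ι → K := fun i => if i = l then 0 else -(r i / r l)
  have hb0 : b l = 0 := if_pos rfl
  have hba : b ⬝ᵥ (Pi.single l 1 : ι → K) = 0 := by
    rw [dotProduct_single, hb0, zero_mul]
  refine ⟨tv (Pi.single l 1) b hba, unimod_tv hba (val_single_le v l) ?_, ?_, ?_⟩
  · intro i
    by_cases hi : i = l
    · subst hi
      rw [hb0, map_zero]
      exact zero_le_one
    · have h1 : b i = -(r i / r l) := if_neg hi
      rw [h1, Valuation.map_neg, map_div₀]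
      exact div_le_one_of_le₀ (hmax i) _root_.zero_le
  · intro i hi
    have h1 : b i = -(r i / r l) := if_neg hi
    rw [vecMul_tv, dotProduct_single, Pi.add_apply, Pi.smul_apply, h1, smul_eq_mul, mul_one,
      mul_neg, mul_div_cancel₀ _ h0, add_neg_cancel]
  · intro y hy
    rw [vecMul_tv, dotProduct_single, hy l hl, zero_mul, zero_smul, add_zero]

/-- clearing a row -/
theorem row_clear (v : Place K) (S : ι → Prop) (l : ι) (hl : S l) (r : ι → K)
    (hr : ∀ i, ¬ S i → r i = 0) :
    ∃ k : GL ι K, Unimod v k ∧ (∀ i, i ≠ l → (r ᵥ* k.1) i = 0) ∧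
      ∀ y : ι → K, (∀ i, S i → y i = 0) → y ᵥ* k.1 = y := by
  have : Nonempty ι := ⟨l⟩
  obtain ⟨j, hj⟩ := Finite.exists_max fun i => v.1 (r i)
  by_cases hj0 : r j = 0
  · have h0 : r = 0 := by
      funext i
      have h1 := hj i
      rw [hj0, map_zero] at h1
      exact (v.1.zero_iff).1 (le_antisymm h1 _root_.zero_le)
    refine ⟨1, Unimod.one, fun i _ => ?_, fun y _ => ?_⟩
    · rw [h0, Matrix.zero_vecMul, Pi.zero_apply]
    · rw [Units.val_one, vecMul_one]
  · by_cases hlj : v.1 (r j) ≤ v.1 (r l)
    · refine row_max v S l hl r hr ?_ fun i => (hj i).trans hlj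
      intro h
      rw [h, map_zero] at hlj
      exact hj0 ((v.1.zero_iff).1 (le_antisymm hlj _root_.zero_le))
    · have hlt : v.1 (r l) < v.1 (r j) := not_le.1 hlj
      have hne : l ≠ j := fun h => by
        rw [h] at hlt
        exact lt_irrefl _ hlt
      have hSj : S j := by
        by_contra h
        exact hj0 (hr j h)
      have hab : (Pi.single l 1 : ι → K) ⬝ᵥ (Pi.single j 1 : ι → K) = 0 := by
        rw [dotProduct_single, Pi.single_eq_of_ne hne.symm, zero_mul]
      obtain ⟨k1, hk1⟩ : ∃ k1 : GL ι K, k1 = tv (Pi.single j 1) (Pi.single l 1) hab := ⟨_, rfl⟩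
      have hr' : r ᵥ* k1.1 = r + r j • (Pi.single l 1 : ι → K) := by
        rw [hk1, vecMul_tv, dotProduct_single, mul_one]
      have hrl : (r ᵥ* k1.1) l = r l + r j := by
        rw [hr', Pi.add_apply, Pi.smul_apply, Pi.single_eq_same, smul_eq_mul, mul_one]
      have hri : ∀ i, i ≠ l → (r ᵥ* k1.1) i = r i := by
        intro i hi
        rw [hr', Pi.add_apply, Pi.smul_apply, Pi.single_eq_of_ne hi, smul_zero, add_zero]
      have hvl : v.1 ((r ᵥ* k1.1) l) = v.1 (r j) := by
        rw [hrl, add_comm]
        exact Valuation.map_add_eq_of_lt_left _ hlt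
      obtain ⟨k2, h1, h2, h3⟩ := row_max v S l hl (r ᵥ* k1.1) (fun i hi => by
        rw [hri i fun h => hi (h ▸ hl)]
        exact hr i hi) (fun h => by
          rw [h, map_zero] at hvl
          exact hj0 ((v.1.zero_iff).1 hvl.symm)) (fun i => by
          rw [hvl]
          by_cases hi : i = l
          · rw [hi, hvl]
          · rw [hri i hi]
            exact hj i)
      refine ⟨k1 * k2, Unimod.mul ?_ h1, fun i hi => ?_, fun y hy => ?_⟩
      · rw [hk1]
        exact unimod_tv hab (val_single_le v j) (val_single_le v l)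
      · rw [Units.val_mul, ← vecMul_vecMul]
        exact h2 i hi
      · have h4 : y ᵥ* k1.1 = y := by
          rw [hk1, vecMul_tv, dotProduct_single, hy j hSj, zero_mul, zero_smul, add_zero]
        rw [Units.val_mul, ← vecMul_vecMul, h4]
        exact h3 y hy

theorem mul_row (M N : Matrix ι ι K) (i j : ι) : (M * N) i j = (M i ᵥ* N) j := rfl

/-- triangular form for an injective numbering `e` of the indices -/
theorem tri_gen (e : ι → ℕ) (he : Function.Injective e) (v : Place K) (N : ℕ)
    (hN : ∀ i, e i < N) (g : GL ι K) (s : ℕ) :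
    ∃ k : GL ι K, Unimod v k ∧ ∀ i j, N ≤ e i + s → e j < e i → (g * k).1 i j = 0 := by
  induction s with
  | zero =>
    refine ⟨1, Unimod.one, fun i j h _ => ?_⟩
    have := hN i
    omega
  | succ s ih =>
    obtain ⟨k, hk, hz⟩ := ih
    by_cases hm : ∃ m, e m + (s + 1) = N
    · obtain ⟨m, hm⟩ := hm
      obtain ⟨k', h1, h2, h3⟩ := row_clear v (fun i => e i ≤ e m) m le_rfl
        (fun i => if e i ≤ e m then (g * k).1 m i else 0) fun i hi => if_neg hi
      refine ⟨k * k', hk.mul h1, fun i j hi hij => ?_⟩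
      rw [← mul_assoc, Units.val_mul, mul_row]
      by_cases him : i = m
      · subst him
        have h4 : (g * k).1 i = (fun l => if e l ≤ e i then (g * k).1 i l else 0) +
            fun l => if e l ≤ e i then 0 else (g * k).1 i l := by
          funext l
          rw [Pi.add_apply]
          by_cases hl : e l ≤ e i
          · rw [if_pos hl, if_pos hl, add_zero]
          · rw [if_neg hl, if_neg hl, zero_add]
        rw [h4, Matrix.add_vecMul, Pi.add_apply, h2 j fun h => by
            rw [h] at hij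
            exact lt_irrefl _ hij, zero_add,
          h3 _ fun l hl => if_pos hl]
        exact if_pos hij.le
      · have hne : e i ≠ e m := fun h => him (he h)
        have hi' : N ≤ e i + s := by omega
        rw [h3 _ fun l hl => hz i l hi' (by omega)]
        exact hz i j hi' hij
    · refine ⟨k, hk, fun i j hi hij => hz i j ?_ hij⟩
      have : e i + (s + 1) ≠ N := fun h => hm ⟨i, h⟩
      omega

theorem tri_of (e : ι → ℕ) (he : Function.Injective e) (v : Place K) (N : ℕ)
    (hN : ∀ i, e i < N) (g : GL ι K) :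
    ∃ k : GL ι K, Unimod v k ∧ ∀ i j, e j < e i → (g * k).1 i j = 0 := by
  obtain ⟨k, hk, hz⟩ := tri_gen e he v N hN g N
  exact ⟨k, hk, fun i j hij => hz i j (by omega) hij⟩

end TriAux

open TriAux

theorem tri_fin (n : ℕ) (v : Place K) (g : GL (Fin n) K) :
    ∃ k : GL (Fin n) K, Unimod v k ∧ ∀ i j : Fin n, j < i → (g * k).1 i j = 0 := by
  obtain ⟨k, hk, hz⟩ := tri_of (fun i : Fin n => i.1) Fin.val_injective v n (fun i => i.2) g
  exact ⟨k, hk, fun i j hij => hz i j hij⟩

theorem tri_block {α β : Type} [Fintype α] [DecidableEq α] [Fintype β] [DecidableEq β]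
    (v : Place K) (g : GL (α ⊕ β) K) :
    ∃ k : GL (α ⊕ β) K, Unimod v k ∧ (g * k).1.toBlocks₂₁ = 0 := by
  let e : α ⊕ β ≃ Fin (Fintype.card α + Fintype.card β) :=
    (Equiv.sumCongr (Fintype.equivFin α) (Fintype.equivFin β)).trans finSumFinEquiv
  obtain ⟨k, hk, hz⟩ := tri_of (fun i => (e i).1) (Fin.val_injective.comp e.injective) v _
    (fun i => (e i).2) g
  refine ⟨k, hk, ?_⟩
  ext i j
  rw [toBlocks₂₁, Matrix.of_apply, Matrix.zero_apply]
  apply hz
  have h1 : (e (Sum.inl j)).1 = (Fintype.equivFin α j).1 := by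
    simp [e]
  have h2 : (e (Sum.inr i)).1 = Fintype.card α + (Fintype.equivFin β i).1 := by
    simp [e]
  rw [h1, h2]
  have := (Fintype.equivFin α j).2
  omega

end Pool.Agent.Lib.BPT
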