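import Pool.Agent.Lib.BPT.Objects
import Pool.Agent.Lib.BPT.Tri

/-!
# Module BPT.BD: block decomposition of a bundle

For each place `v` choose `k_v` by `tri_block` for `E.g v`. `E.g v * k_v = [[N_v, y_v], [0, Q_v]]`
with `N_v ∈ GL_α(K)`, `Q_v ∈ GL_β(K)` (the determinant is the product of the two determinants:
`Matrix.det_fromBlocks_zero₂₁`). If `E.g v` is `Unimod` then `E.g v * k_v` is, and so are the blocks
`N_v`, `Q_v` (the inverse of a block triangular matrix is block triangular with the inverse blocks).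
So `N_v`, `Q_v` define bundles `N` on `α` and `Q` on `β`.
`Mem E v x ↔ (E.g v k_v)⁻¹ x` is regular (`k_v` is `Unimod`).
* `x = (y, 0)`: `(E.g v k_v)⁻¹ (y, 0) = (N_v⁻¹ y, 0)`.
* `x ∈ E_v` has the `β`-component `Q_v z'` with `z'` regular.
* `z = Q_v z'`: take `x = E.g v k_v (0, z')`.
* degrees: `ord det (E.g v) = ord det (E.g v k_v) = ord det N_v + ord det Q_v`.
-/

namespace Pool.Agent.Lib.BPT

open Matrix WithZero

variable {K : Type} [Field K] [Algebra ℂ K]

namespace BDAux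

section

variable {α β : Type} [Fintype α] [DecidableEq α] [Fintype β] [DecidableEq β]

theorem eq_blocks (h : GL (α ⊕ β) K) (h0 : h.1.toBlocks₂₁ = 0) :
    h.1 = Matrix.fromBlocks h.1.toBlocks₁₁ h.1.toBlocks₁₂ 0 h.1.toBlocks₂₂ := by
  rw [← h0, Matrix.fromBlocks_toBlocks]

theorem det_eq (h : GL (α ⊕ β) K) (h0 : h.1.toBlocks₂₁ = 0) :
    h.1.det = h.1.toBlocks₁₁.det * h.1.toBlocks₂₂.det := by
  conv_lhs => rw [eq_blocks h h0]
  exact Matrix.det_fromBlocks_zero₂₁ _ _ _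

theorem inv_blocks (h : GL (α ⊕ β) K) (h0 : h.1.toBlocks₂₁ = 0) :
    (h⁻¹).1.toBlocks₂₁ = 0 := by
  have hD : h.1.toBlocks₂₂.det ≠ 0 := by
    intro hz
    apply det_ne_zero h
    rw [det_eq h h0, hz, mul_zero]
  have h1 : h.1 * (h⁻¹).1 = 1 := Units.mul_inv h
  rw [eq_blocks h h0, ← Matrix.fromBlocks_toBlocks (h⁻¹).1, Matrix.fromBlocks_multiply,
    ← Matrix.fromBlocks_one, Matrix.fromBlocks_inj] at h1
  have h2 := h1.2.2.1
  rw [Matrix.zero_mul, zero_add] at h2
  have h3 := congrArg (fun M => (h.1.toBlocks₂₂)⁻¹ * M) h2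
  simp only [Matrix.mul_zero] at h3
  rwa [← Matrix.mul_assoc, Matrix.nonsing_inv_mul _ (isUnit_iff_ne_zero.2 hD), Matrix.one_mul] at h3

theorem mul_blocks (h l : GL (α ⊕ β) K) (h0 : h.1.toBlocks₂₁ = 0) (l0 : l.1.toBlocks₂₁ = 0)
    (hl : h.1 * l.1 = 1) :
    h.1.toBlocks₁₁ * l.1.toBlocks₁₁ = 1 ∧ h.1.toBlocks₂₂ * l.1.toBlocks₂₂ = 1 := by
  rw [eq_blocks h h0, eq_blocks l l0, Matrix.fromBlocks_multiply,
    ← Matrix.fromBlocks_one, Matrix.fromBlocks_inj] at hl
  constructor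
  · have := hl.1
    rwa [Matrix.mul_zero, add_zero] at this
  · have := hl.2.2.2
    rwa [Matrix.zero_mul, zero_add] at this

/-- the upper left block -/
def topGL (h : GL (α ⊕ β) K) (h0 : h.1.toBlocks₂₁ = 0) : GL α K where
  val := h.1.toBlocks₁₁
  inv := (h⁻¹).1.toBlocks₁₁
  val_inv := (mul_blocks h h⁻¹ h0 (inv_blocks h h0) (Units.mul_inv h)).1
  inv_val := (mul_blocks h⁻¹ h (inv_blocks h h0) h0 (Units.inv_mul h)).1

/-- the lower right block -/
def botGL (h : GL (α ⊕ β) K) (h0 : h.1.toBlocks₂₁ = 0) : GL β K where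
  val := h.1.toBlocks₂₂
  inv := (h⁻¹).1.toBlocks₂₂
  val_inv := (mul_blocks h h⁻¹ h0 (inv_blocks h h0) (Units.mul_inv h)).2
  inv_val := (mul_blocks h⁻¹ h (inv_blocks h h0) h0 (Units.inv_mul h)).2

theorem unimod_top {v : Place K} {h : GL (α ⊕ β) K} (h0 : h.1.toBlocks₂₁ = 0) (hu : Unimod v h) :
    Unimod v (topGL h h0) :=
  ⟨fun i j => hu.1 (Sum.inl i) (Sum.inl j), fun i j => hu.2 (Sum.inl i) (Sum.inl j)⟩

theorem unimod_bot {v : Place K} {h : GL (α ⊕ β) K} (h0 : h.1.toBlocks₂₁ = 0) (hu : Unimod v h) :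
    Unimod v (botGL h h0) :=
  ⟨fun i j => hu.1 (Sum.inr i) (Sum.inr j), fun i j => hu.2 (Sum.inr i) (Sum.inr j)⟩

theorem mem_iff_mul {ι : Type} [Fintype ι] [DecidableEq ι] (E : VB K ι) (v : Place K) (k : GL ι K)
    (hk : Unimod v k) (x : ι → K) :
    Mem E v x ↔ ∀ i, v.1 (((E.g v * k)⁻¹).1.mulVec x i) ≤ 1 := by
  have e1 : ((E.g v * k)⁻¹).1.mulVec x = (k⁻¹).1.mulVec (((E.g v)⁻¹).1.mulVec x) := by
    rw [_root_.mul_inv_rev, Units.val_mul, Matrix.mulVec_mulVec]
  have e2 : ((E.g v)⁻¹).1.mulVec x = k.1.mulVec (((E.g v * k)⁻¹).1.mulVec x) := by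
    rw [e1, Matrix.mulVec_mulVec, Units.mul_inv, Matrix.one_mulVec]
  constructor
  · intro h i
    rw [e1]
    exact hk.2.mulVec h i
  · intro h i
    rw [e2]
    exact hk.1.mulVec h i

end

end BDAux

open BDAux in
theorem bd {α β : Type} [Fintype α] [DecidableEq α] [Fintype β] [DecidableEq β]
    (E : VB K (α ⊕ β)) : ∃ (N : VB K α) (Q : VB K β), deg E = deg N + deg Q ∧
      (∀ v x, Mem N v x ↔ Mem E v (Sum.elim x 0)) ∧
      (∀ v x, Mem E v x → Mem Q v (x ∘ Sum.inr)) ∧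
      (∀ v z, Mem Q v z → ∃ y, Mem E v (Sum.elim y z)) := by
  choose k hk h0 using fun v => tri_block v (E.g v)
  let N : VB K α :=
    { g := fun v => topGL (E.g v * k v) (h0 v)
      fin := by
        refine E.finU.subset ?_
        intro v hv hu
        exact hv (unimod_top (h0 v) (Unimod.mul hu (hk v))) }
  let Q : VB K β :=
    { g := fun v => botGL (E.g v * k v) (h0 v)
      fin := by
        refine E.finU.subset ?_
        intro v hv hu
        exact hv (unimod_bot (h0 v) (Unimod.mul hu (hk v))) }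
  have key : ∀ v (x : α ⊕ β → K), ((E.g v * k v)⁻¹).1.mulVec x =
      Sum.elim (((N.g v)⁻¹).1.mulVec (x ∘ Sum.inl) +
        ((E.g v * k v)⁻¹).1.toBlocks₁₂.mulVec (x ∘ Sum.inr)) (((Q.g v)⁻¹).1.mulVec (x ∘ Sum.inr)) := by
    intro v x
    conv_lhs => rw [eq_blocks (E.g v * k v)⁻¹ (inv_blocks _ (h0 v))]
    rw [Matrix.fromBlocks_mulVec, Matrix.zero_mulVec, zero_add]
    rfl
  refine ⟨N, Q, ?_, ?_, ?_, ?_⟩
  · unfold deg
    have h : ∀ v, ord v (E.g v).1.det = ord v (N.g v).1.det + ord v (Q.g v).1.det := by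
      intro v
      rw [← ord_mul v (det_ne_zero _) (det_ne_zero _)]
      have e : (N.g v).1.det * (Q.g v).1.det = (E.g v).1.det * (k v).1.det := by
        rw [← Matrix.det_mul]
        exact (det_eq (E.g v * k v) (h0 v)).symm
      rw [e, ord_mul v (det_ne_zero _) (det_ne_zero _), (hk v).ord_det, add_zero]
    rw [finsum_congr h, finsum_add_distrib (deg_support N) (deg_support Q)]
    ring
  · intro v x
    rw [mem_iff_mul E v (k v) (hk v), key]
    constructor
    · rintro h (i | i)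
      · simp only [Sum.elim_inl, Sum.elim_comp_inl, Sum.elim_comp_inr, Matrix.mulVec_zero, add_zero]
        exact h i
      · simp only [Sum.elim_inr, Sum.elim_comp_inr, Matrix.mulVec_zero, Pi.zero_apply, map_zero]
        exact zero_le_one
    · intro h i
      have := h (Sum.inl i)
      simpa only [Sum.elim_inl, Sum.elim_comp_inl, Sum.elim_comp_inr, Matrix.mulVec_zero,
        add_zero] using this
  · intro v x hx i
    rw [mem_iff_mul E v (k v) (hk v), key] at hx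
    exact hx (Sum.inr i)
  · intro v z hz
    refine ⟨(E.g v * k v).1.toBlocks₁₂.mulVec (((Q.g v)⁻¹).1.mulVec z), ?_⟩
    rw [mem_iff_mul E v (k v) (hk v)]
    have e : Sum.elim ((E.g v * k v).1.toBlocks₁₂.mulVec (((Q.g v)⁻¹).1.mulVec z)) z =
        (E.g v * k v).1.mulVec (Sum.elim (0 : α → K) (((Q.g v)⁻¹).1.mulVec z)) := by
      conv_rhs => rw [eq_blocks (E.g v * k v) (h0 v)]
      rw [Matrix.fromBlocks_mulVec, Sum.elim_comp_inl, Sum.elim_comp_inr, Matrix.mulVec_zero,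
        zero_add, Matrix.zero_mulVec, zero_add]
      congr 1
      have : (E.g v * k v).1.toBlocks₂₂ = (Q.g v).1 := rfl
      rw [this, Matrix.mulVec_mulVec, Units.mul_inv, Matrix.one_mulVec]
    rw [e]
    rintro (i | i)
    · rw [Matrix.mulVec_mulVec, Units.inv_mul, Matrix.one_mulVec, Sum.elim_inl, Pi.zero_apply,
        map_zero]
      exact zero_le_one
    · rw [Matrix.mulVec_mulVec, Units.inv_mul, Matrix.one_mulVec, Sum.elim_inr]
      exact hz i

end Pool.Agent.Lib.BPT
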