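import Pool.Agent.Lib.BPT.Defs

/-!
# Basic facts on places, regular matrices and adelic bundles
-/

namespace Pool.Agent.Lib.BPT

open Matrix WithZero

variable {K : Type} [Field K] [Algebra ℂ K]

/-! ## valuations -/

theorem val_alg (v : Place K) {c : ℂ} (hc : c ≠ 0) : v.1 (algebraMap ℂ K c) = 1 := v.triv c hc

theorem val_alg_le (v : Place K) (c : ℂ) : v.1 (algebraMap ℂ K c) ≤ 1 := by
  rcases eq_or_ne c 0 with rfl | hc
  · simp
  · exact (val_alg v hc).le

theorem exists_unif (v : Place K) : ∃ x : K, v.1 x = exp (-1 : ℤ) := v.surj _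

/-- a uniformiser at `v` -/
noncomputable def unif (v : Place K) : K := (exists_unif v).choose

theorem val_unif (v : Place K) : v.1 (unif v) = exp (-1 : ℤ) := (exists_unif v).choose_spec

theorem unif_ne_zero (v : Place K) : unif v ≠ 0 := by
  intro h
  have := val_unif v
  rw [h, map_zero] at this
  exact (exp_ne_zero this.symm)

theorem val_unif_zpow (v : Place K) (n : ℤ) : v.1 (unif v ^ n) = exp (-n) := by
  rw [map_zpow₀, val_unif, ← WithZero.exp_zsmul]
  simp

theorem val_eq (v : Place K) {x : K} (hx : x ≠ 0) : v.1 x = exp (-ord v x) := by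
  rw [ord, neg_neg, exp_log ((Valuation.ne_zero_iff _).2 hx)]

theorem val_le_exp (v : Place K) {x : K} (hx : x ≠ 0) (n : ℤ) : v.1 x ≤ exp n ↔ -n ≤ ord v x := by
  rw [val_eq v hx, exp_le_exp]
  omega

theorem val_le_one (v : Place K) {x : K} (hx : x ≠ 0) : v.1 x ≤ 1 ↔ 0 ≤ ord v x := by
  rw [← exp_zero, val_le_exp v hx]
  simp

theorem val_eq_one (v : Place K) {x : K} (hx : x ≠ 0) : v.1 x = 1 ↔ ord v x = 0 := by
  rw [val_eq v hx, ← exp_zero, exp_inj]
  omega

theorem ord_of_val {v : Place K} {x : K} {n : ℤ} (h : v.1 x = exp n) : ord v x = -n := by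
  rw [ord, h, log_exp]

@[simp] theorem ord_zero (v : Place K) : ord v (0 : K) = 0 := by simp [ord]

@[simp] theorem ord_one (v : Place K) : ord v (1 : K) = 0 := by simp [ord]

theorem ord_unif (v : Place K) : ord v (unif v) = 1 := by
  rw [ord_of_val (val_unif v)]; norm_num

theorem ord_mul (v : Place K) {x y : K} (hx : x ≠ 0) (hy : y ≠ 0) :
    ord v (x * y) = ord v x + ord v y := by
  have h : v.1 (x * y) = exp (-(ord v x) + -(ord v y)) := by
    rw [map_mul, val_eq v hx, val_eq v hy, exp_add]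
  rw [ord_of_val h]; ring

theorem ord_inv (v : Place K) (x : K) : ord v x⁻¹ = -ord v x := by
  rcases eq_or_ne x 0 with rfl | hx
  · simp
  · have h : v.1 x⁻¹ = exp (ord v x) := by
      rw [map_inv₀, val_eq v hx, ← WithZero.exp_neg, neg_neg]
    rw [ord_of_val h]

theorem ord_pow (v : Place K) {x : K} (hx : x ≠ 0) (n : ℕ) : ord v (x ^ n) = n * ord v x := by
  induction n with
  | zero => simp
  | succ n ih => rw [pow_succ, ord_mul v (pow_ne_zero n hx) hx, ih]; push_cast; ring

theorem ord_zpow (v : Place K) {x : K} (hx : x ≠ 0) (n : ℤ) : ord v (x ^ n) = n * ord v x := by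
  cases n with
  | ofNat n => simpa using ord_pow v hx n
  | negSucc n =>
    rw [zpow_negSucc, ord_inv, ord_pow v hx, Int.negSucc_eq]
    push_cast; ring

theorem ord_unif_zpow (v : Place K) (n : ℤ) : ord v (unif v ^ n) = n := by
  rw [ord_zpow v (unif_ne_zero v), ord_unif, mul_one]

theorem ord_prod (v : Place K) {α : Type} (s : Finset α) (f : α → K) (hf : ∀ a ∈ s, f a ≠ 0) :
    ord v (∏ a ∈ s, f a) = ∑ a ∈ s, ord v (f a) := by
  classical
  induction s using Finset.induction_on with
  | empty => simp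
  | insert a s ha ih =>
    rw [Finset.prod_insert ha, Finset.sum_insert ha, ord_mul v (hf a (Finset.mem_insert_self _ _))
      (Finset.prod_ne_zero_iff.2 fun b hb => hf b (Finset.mem_insert_of_mem hb)),
      ih fun b hb => hf b (Finset.mem_insert_of_mem hb)]

theorem ord_neg (v : Place K) (x : K) : ord v (-x) = ord v x := by
  rw [ord, Valuation.map_neg]; rfl

theorem ord_alg (v : Place K) (c : ℂ) : ord v (algebraMap ℂ K c) = 0 := by
  rcases eq_or_ne c 0 with rfl | hc
  · simp
  · rw [ord, val_alg v hc]; simp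

/-- The basic facts on the points of `X` that the theory uses. -/
class CurveFacts (K : Type) [Field K] [Algebra ℂ K] : Prop where
  res : ∀ (v : Place K) (x : K), v.1 x ≤ 1 → ∃ c : ℂ, v.1 (x - algebraMap ℂ K c) < 1
  fin : ∀ x : K, x ≠ 0 → {v : Place K | v.1 x ≠ 1}.Finite
  prod : ∀ x : K, x ≠ 0 → ∑ᶠ v : Place K, ord v x = 0
  ne : Nonempty (Place K)

/-! ## regular matrices -/

section isInt

variable {ι κ μ : Type}

theorem val_sum_le (v : Place K) {α : Type} (s : Finset α) (f : α → K) (γ : ℤᵐ⁰)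
    (h : ∀ a ∈ s, v.1 (f a) ≤ γ) : v.1 (∑ a ∈ s, f a) ≤ γ := by
  classical
  induction s using Finset.induction_on with
  | empty => simp
  | insert a s ha ih =>
    rw [Finset.sum_insert ha]
    exact (v.1.map_add _ _).trans (max_le (h a (Finset.mem_insert_self _ _))
      (ih fun b hb => h b (Finset.mem_insert_of_mem hb)))

theorem IsInt.mul [Fintype κ] {v : Place K} {M : Matrix ι κ K} {N : Matrix κ μ K} (hM : IsInt v M)
    (hN : IsInt v N) : IsInt v (M * N) := by
  intro i j
  rw [Matrix.mul_apply]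
  refine val_sum_le v _ _ _ fun a _ => ?_
  rw [map_mul]
  exact mul_le_one' (hM i a) (hN a j)

theorem IsInt.one [DecidableEq ι] {v : Place K} : IsInt v (1 : Matrix ι ι K) := by
  intro i j
  rw [Matrix.one_apply]
  split_ifs <;> simp

theorem IsInt.transpose {v : Place K} {M : Matrix ι κ K} (hM : IsInt v M) : IsInt v Mᵀ :=
  fun i j => hM j i

theorem IsInt.add {v : Place K} {M N : Matrix ι κ K} (hM : IsInt v M) (hN : IsInt v N) :
    IsInt v (M + N) := fun i j => (v.1.map_add _ _).trans (max_le (hM i j) (hN i j))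

theorem IsInt.neg {v : Place K} {M : Matrix ι κ K} (hM : IsInt v M) : IsInt v (-M) := fun i j => by
  rw [Matrix.neg_apply, Valuation.map_neg]; exact hM i j

theorem IsInt.sub {v : Place K} {M N : Matrix ι κ K} (hM : IsInt v M) (hN : IsInt v N) :
    IsInt v (M - N) := by
  rw [sub_eq_add_neg]; exact hM.add hN.neg

theorem IsInt.zero {v : Place K} : IsInt v (0 : Matrix ι κ K) := fun i j => by simp

theorem IsInt.mulVec [Fintype κ] {v : Place K} {M : Matrix ι κ K} (hM : IsInt v M) {x : κ → K}
    (hx : ∀ j, v.1 (x j) ≤ 1) (i : ι) : v.1 (M.mulVec x i) ≤ 1 := by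
  rw [Matrix.mulVec, dotProduct]
  refine val_sum_le v _ _ _ fun a _ => ?_
  rw [map_mul]
  exact mul_le_one' (hM i a) (hx a)

theorem IsInt.det [Fintype ι] [DecidableEq ι] {v : Place K} {M : Matrix ι ι K} (hM : IsInt v M) :
    v.1 M.det ≤ 1 := by
  rw [Matrix.det_apply]
  refine val_sum_le v _ _ _ fun σ _ => ?_
  rw [Units.smul_def, zsmul_eq_mul, map_mul, map_prod]
  refine mul_le_one' ?_ (Finset.prod_le_one' fun i _ => hM _ _)
  rcases Int.units_eq_one_or (Equiv.Perm.sign σ) with h | h <;> simp [h, Valuation.map_neg]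

end isInt

section unimod

variable {ι : Type} [Fintype ι] [DecidableEq ι]

/-- `k ∈ GL_ι(O_v)` -/
def Unimod (v : Place K) (k : GL ι K) : Prop := IsInt v k.1 ∧ IsInt v (k⁻¹).1

theorem Unimod.one {v : Place K} : Unimod v (1 : GL ι K) := by
  refine ⟨IsInt.one, ?_⟩
  rw [inv_one]; exact IsInt.one

theorem Unimod.inv {v : Place K} {k : GL ι K} (h : Unimod v k) : Unimod v k⁻¹ :=
  ⟨h.2, by rw [inv_inv]; exact h.1⟩

theorem Unimod.mul {v : Place K} {k l : GL ι K} (h : Unimod v k) (h' : Unimod v l) :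
    Unimod v (k * l) :=
  ⟨by rw [Units.val_mul]; exact h.1.mul h'.1,
    by rw [_root_.mul_inv_rev, Units.val_mul]; exact h'.2.mul h.2⟩

theorem val_det_inv (v : Place K) (k : GL ι K) : v.1 (k⁻¹).1.det = (v.1 k.1.det)⁻¹ := by
  rw [← map_inv₀]
  congr 1
  have h : k.1.det * (k⁻¹).1.det = 1 := by
    rw [← Matrix.det_mul, Units.mul_inv, Matrix.det_one]
  exact eq_inv_of_mul_eq_one_right h

theorem det_ne_zero (k : GL ι K) : k.1.det ≠ 0 := by
  intro h0
  have h : k.1.det * (k⁻¹).1.det = 1 := by
    rw [← Matrix.det_mul, Units.mul_inv, Matrix.det_one]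
  rw [h0, zero_mul] at h
  exact zero_ne_one h

theorem Unimod.val_det {v : Place K} {k : GL ι K} (h : Unimod v k) : v.1 k.1.det = 1 := by
  refine le_antisymm h.1.det ?_
  have h2 := h.2.det
  rw [val_det_inv] at h2
  have hne : v.1 k.1.det ≠ 0 := (Valuation.ne_zero_iff _).2 (det_ne_zero k)
  exact (inv_le_one₀ (zero_lt_iff.2 hne)).1 h2

theorem Unimod.ord_det {v : Place K} {k : GL ι K} (h : Unimod v k) : ord v k.1.det = 0 :=
  (val_eq_one v (det_ne_zero k)).1 h.val_det

/-- a regular matrix whose determinant is a unit has a regular inverse -/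
theorem unimod_of_det {v : Place K} {k : GL ι K} (h : IsInt v k.1) (hd : v.1 k.1.det = 1) :
    Unimod v k := by
  refine ⟨h, ?_⟩
  have hinv : (k⁻¹).1 = (k.1.det)⁻¹ • k.1.adjugate := by
    have h1 : (k⁻¹).1 = (k.1)⁻¹ := Matrix.coe_units_inv k
    rw [h1, Matrix.inv_def, Ring.inverse_eq_inv']
  rw [hinv]
  intro i j
  rw [Matrix.smul_apply, smul_eq_mul, map_mul, map_inv₀, hd, inv_one, one_mul,
    Matrix.adjugate_apply]
  apply IsInt.det
  intro a b
  rw [Matrix.updateRow_apply]
  split_ifs
  · rw [Pi.single_apply]; split_ifs <;> simp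
  · exact h a b

end unimod

/-! ## vector bundles -/

section vb

variable {ι κ μ : Type} [Fintype ι] [DecidableEq ι] [Fintype κ] [DecidableEq κ] [Fintype μ]
  [DecidableEq μ]

theorem VB.finU (E : VB K ι) : {v | ¬ Unimod v (E.g v)}.Finite := E.fin

/-- the stalk of `E` at `v` -/
def Mem (E : VB K ι) (v : Place K) (x : ι → K) : Prop := ∀ i, v.1 (((E.g v)⁻¹).1.mulVec x i) ≤ 1

theorem deg_support (E : VB K ι) : (Function.support fun v : Place K => ord v (E.g v).1.det).Finite
    := by
  refine E.finU.subset fun v hv => ?_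
  intro h
  exact hv h.ord_det

theorem Mem.zero (E : VB K ι) (v : Place K) : Mem E v 0 := fun i => by simp

theorem Mem.add {E : VB K ι} {v : Place K} {x y : ι → K} (hx : Mem E v x) (hy : Mem E v y) :
    Mem E v (x + y) := fun i => by
  rw [Matrix.mulVec_add, Pi.add_apply]
  exact (v.1.map_add _ _).trans (max_le (hx i) (hy i))

theorem Mem.smul {E : VB K ι} {v : Place K} {x : ι → K} {c : K} (hc : v.1 c ≤ 1)
    (hx : Mem E v x) : Mem E v (c • x) := fun i => by
  rw [Matrix.mulVec_smul, Pi.smul_apply, smul_eq_mul, map_mul]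
  exact mul_le_one' hc (hx i)

theorem Mem.neg {E : VB K ι} {v : Place K} {x : ι → K} (hx : Mem E v x) : Mem E v (-x) := fun i => by
  rw [Matrix.mulVec_neg, Pi.neg_apply, Valuation.map_neg]; exact hx i

theorem Mem.sub {E : VB K ι} {v : Place K} {x y : ι → K} (hx : Mem E v x) (hy : Mem E v y) :
    Mem E v (x - y) := by
  rw [sub_eq_add_neg]; exact hx.add hy.neg

/-- `x = g y` with `y` regular -/
theorem mem_iff {E : VB K ι} {v : Place K} {x : ι → K} :
    Mem E v x ↔ ∃ y : ι → K, (∀ i, v.1 (y i) ≤ 1) ∧ (E.g v).1.mulVec y = x := by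
  constructor
  · intro h
    refine ⟨_, h, ?_⟩
    rw [Matrix.mulVec_mulVec, Units.mul_inv, Matrix.one_mulVec]
  · rintro ⟨y, hy, rfl⟩ i
    rw [Matrix.mulVec_mulVec, Units.inv_mul, Matrix.one_mulVec]
    exact hy i

theorem isHom_iff {E : VB K ι} {F : VB K κ} {A : Matrix κ ι K} :
    IsHom E F A ↔ ∀ v x, Mem E v x → Mem F v (A.mulVec x) := by
  constructor
  · intro h v x hx i
    obtain ⟨y, hy, rfl⟩ := mem_iff.1 hx
    rw [Matrix.mulVec_mulVec, Matrix.mulVec_mulVec]
    exact (h v).mulVec hy i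
  · intro h v i j
    have h1 := h v ((E.g v).1.mulVec (Pi.single j 1)) (mem_iff.2 ⟨_, fun a => by
      rw [Pi.single_apply]; split_ifs <;> simp, rfl⟩) i
    rwa [Matrix.mulVec_mulVec, Matrix.mulVec_mulVec, Matrix.mulVec_single_one] at h1

theorem IsHom.comp {E : VB K ι} {F : VB K κ} {G : VB K μ} {A : Matrix κ ι K} {B : Matrix μ κ K}
    (hB : IsHom F G B) (hA : IsHom E F A) : IsHom E G (B * A) := by
  rw [isHom_iff] at *
  intro v x hx
  rw [← Matrix.mulVec_mulVec]
  exact hB v _ (hA v x hx)

theorem IsHom.id (E : VB K ι) : IsHom E E 1 := by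
  rw [isHom_iff]; intro v x hx; rwa [Matrix.one_mulVec]

variable [CurveFacts K]

theorem fin_not_le (x : K) : {v : Place K | ¬ v.1 x ≤ 1}.Finite := by
  rcases eq_or_ne x 0 with rfl | hx
  · convert Set.finite_empty
    ext v; simp
  · exact (CurveFacts.fin x hx).subset fun v hv h => hv h.le

theorem fin_not_isInt {α β : Type} [Finite α] [Finite β] (M : Matrix α β K) :
    {v : Place K | ¬ IsInt v M}.Finite := by
  refine (Set.finite_iUnion fun i : α => Set.finite_iUnion fun j : β => fin_not_le (M i j)).subset ?_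
  intro v hv
  by_contra hcon
  apply hv
  intro i j
  by_contra h
  exact hcon (Set.mem_iUnion.2 ⟨i, Set.mem_iUnion.2 ⟨j, h⟩⟩)

theorem fin_not_unimod (P : GL ι K) : {v : Place K | ¬ Unimod v P}.Finite := by
  refine ((fin_not_isInt P.1).union (fin_not_isInt (P⁻¹).1)).subset ?_
  intro v hv
  by_contra hcon
  apply hv
  constructor
  · by_contra h; exact hcon (Or.inl h)
  · by_contra h; exact hcon (Or.inr h)

theorem ord_support (x : K) : (Function.support fun v : Place K => ord v x).Finite := by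
  rcases eq_or_ne x 0 with rfl | hx
  · convert Set.finite_empty
    ext v; simp
  · refine (CurveFacts.fin x hx).subset fun v hv h => ?_
    exact hv ((val_eq_one v hx).1 h)

/-- change of the trivialisation at the generic point: the bundle with stalks `P E_v` -/
noncomputable def VB.lmul (P : GL ι K) (E : VB K ι) : VB K ι where
  g v := P * E.g v
  fin := by
    refine ((fin_not_unimod P).union E.finU).subset ?_
    intro v hv
    by_contra hcon
    apply hv
    refine Unimod.mul ?_ ?_
    · by_contra h; exact hcon (Or.inl h)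
    · by_contra h; exact hcon (Or.inr h)

theorem deg_lmul (P : GL ι K) (E : VB K ι) : deg (E.lmul P) = deg E := by
  unfold deg
  have h : (fun v : Place K => ord v ((E.lmul P).g v).1.det) =
      fun v => ord v P.1.det + ord v (E.g v).1.det := by
    funext v
    change ord v (P.1 * (E.g v).1).det = _
    rw [Matrix.det_mul, ord_mul v (det_ne_zero _) (det_ne_zero _)]
  rw [h, finsum_add_distrib (ord_support _) (deg_support E), CurveFacts.prod _ (det_ne_zero P),
    zero_add]

theorem mem_lmul {P : GL ι K} {E : VB K ι} {v : Place K} {x : ι → K} :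
    Mem (E.lmul P) v x ↔ Mem E v ((P⁻¹).1.mulVec x) := by
  unfold Mem
  have h : ((E.lmul P).g v)⁻¹ = (E.g v)⁻¹ * P⁻¹ := by
    change (P * E.g v)⁻¹ = _
    rw [_root_.mul_inv_rev]
  rw [h, Units.val_mul, ← Matrix.mulVec_mulVec]

/-- a homomorphism with nonzero determinant between bundles of the same rank does not lower the
degree -/
theorem deg_le_of_isHom {E F : VB K ι} {A : Matrix ι ι K} (hA : IsHom E F A) (hd : A.det ≠ 0) :
    deg E ≤ deg F := by
  unfold deg
  have h1 : ∀ v, ord v (F.g v).1.det ≤ ord v A.det + ord v (E.g v).1.det := by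
    intro v
    have h := (hA v).det
    rw [Matrix.det_mul, Matrix.det_mul, map_mul, map_mul, val_det_inv, val_eq v (det_ne_zero _),
      val_eq v hd, val_eq v (det_ne_zero _), ← WithZero.exp_neg, ← exp_add, ← exp_add, ← exp_zero,
      exp_le_exp] at h
    linarith
  have h2 : ∑ᶠ v : Place K, ord v (F.g v).1.det ≤
      ∑ᶠ v : Place K, (ord v A.det + ord v (E.g v).1.det) :=
    finsum_le_finsum' (deg_support F)
      (((ord_support A.det).union (deg_support E)).subset (Function.support_add _ _)) h1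
  rw [finsum_add_distrib (ord_support _) (deg_support E), CurveFacts.prod _ hd, zero_add] at h2
  linarith

end vb

end Pool.Agent.Lib.BPT
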