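import Pool.Agent.Lib.BPT.Objects

/-!
# Module BPT.NSExt: extensions of bundles with vanishing `H¹`

`Exact.twist`: by `mem_twist`, `deg_twist` and linearity.

`Exact.ns`: given a finitely supported `x : Place K → ι → K` solve in `Q`: `h_Q - B x_v ∈ Q_v` for
all `v`. Choose `h₀` with `B h₀ = h_Q`. For each `v` there is `y_v ∈ E_v` with
`B y_v = B (h₀ - x_v)`; for the `v` with `x_v = 0` and `h₀ ∈ E_v` (all but finitely many) choose
`y_v = h₀`. Then `h₀ - x_v - y_v = A u_v` with `u_v = 0` for all but finitely many `v` (`A` injective).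
Solve in `N`: `h_N - (-u_v) ∈ N_v` for all `v`; `h = h₀ + A h_N` satisfies
`h - x_v = A (h_N + u_v) + y_v ∈ E_v`.
`h₀ ∈ E_v` for all but finitely many `v`: `E.finU` and `fin_not_le` for the entries of `h₀`.

`NS.congr`, `NS.twist_twist`: `NS` only depends on the stalks; `(F(D))(D') = F(D + D')`.
-/

namespace Pool.Agent.Lib.BPT

open Matrix WithZero

variable {K : Type} [Field K] [Algebra ℂ K]

variable {ι : Type} [Fintype ι] [DecidableEq ι]

theorem Exact.twist {a b : ℕ} {N : VB K (Fin a)} {E : VB K ι} {Q : VB K (Fin b)}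
    {A : Matrix ι (Fin a) K} {B : Matrix (Fin b) ι K} (h : Exact N E Q A B)
    (hab : Fintype.card ι = a + b) (D : Place K →₀ ℤ) :
    Exact (N.twist D) (E.twist D) (Q.twist D) A B := by
  refine ⟨h.inj, h.surj, h.exact, ?_, ?_, ?_, ?_⟩
  · intro v x
    rw [mem_twist, mem_twist, h.sub, Matrix.mulVec_smul]
  · intro v x hx
    rw [mem_twist] at hx ⊢
    have h1 := h.hom v _ hx
    rwa [Matrix.mulVec_smul] at h1
  · intro v z hz
    rw [mem_twist] at hz
    obtain ⟨x, hx, hBx⟩ := h.lift v _ hz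
    have hu : unif v ^ (D v) ≠ 0 := zpow_ne_zero _ (unif_ne_zero v)
    refine ⟨(unif v ^ (D v))⁻¹ • x, ?_, ?_⟩
    · rw [mem_twist, smul_smul, mul_inv_cancel₀ hu, one_smul]
      exact hx
    · rw [Matrix.mulVec_smul, hBx, smul_smul, inv_mul_cancel₀ hu, one_smul]
  · rw [deg_twist, deg_twist, deg_twist, h.deg_add, hab, Fintype.card_fin, Fintype.card_fin]
    push_cast
    ring

theorem Exact.ns [CurveFacts K] {a b : ℕ} {N : VB K (Fin a)} {E : VB K ι} {Q : VB K (Fin b)}
    {A : Matrix ι (Fin a) K} {B : Matrix (Fin b) ι K} (h : Exact N E Q A B) (hN : NS N)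
    (hQ : NS Q) : NS E := by
  classical
  intro x hx
  obtain ⟨hq, hhq⟩ := hQ (fun v => B.mulVec (x v)) (hx.subset (by
    intro v hv h0
    apply hv
    change B.mulVec (x v) = 0
    rw [h0, Matrix.mulVec_zero]))
  obtain ⟨h0, hh0⟩ := h.surj hq
  have hfin : {v | ¬ Mem E v h0}.Finite := by
    refine (E.finU.union (Set.finite_iUnion fun i : ι => fin_not_le (h0 i))).subset ?_
    intro v hv
    by_contra hcon
    apply hv
    have h1 : Unimod v (E.g v) := by
      by_contra h2
      exact hcon (Or.inl h2)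
    have h3 : ∀ i, v.1 (h0 i) ≤ 1 := by
      intro i
      by_contra h2
      exact hcon (Or.inr (Set.mem_iUnion.2 ⟨i, h2⟩))
    intro i
    exact h1.2.mulVec h3 i
  have key : ∀ v, ∃ u : Fin a → K, Mem E v (h0 - x v - A.mulVec u) ∧
      (x v = 0 → Mem E v h0 → u = 0) := by
    intro v
    by_cases hc : x v = 0 ∧ Mem E v h0
    · refine ⟨0, ?_, fun _ _ => rfl⟩
      rw [hc.1, Matrix.mulVec_zero, sub_zero, sub_zero]
      exact hc.2
    · have h1 := hhq v
      rw [← hh0, ← Matrix.mulVec_sub] at h1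
      obtain ⟨y, hy, hBy⟩ := h.lift v _ h1
      have h2 : B.mulVec (h0 - x v - y) = 0 := by rw [Matrix.mulVec_sub, hBy, sub_self]
      obtain ⟨u, hu⟩ := (h.exact _).1 h2
      refine ⟨u, ?_, fun h3 h4 => (hc ⟨h3, h4⟩).elim⟩
      have h5 : h0 - x v - A.mulVec u = y := by
        rw [hu]
        abel
      rw [h5]
      exact hy
  choose u hu1 hu2 using key
  obtain ⟨hn, hhn⟩ := hN (fun v => -u v) ((hx.union hfin).subset (by
    intro v hv
    by_contra hcon
    apply hv
    have h1 : x v = 0 := by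
      by_contra h2
      exact hcon (Or.inl h2)
    have h3 : Mem E v h0 := by
      by_contra h2
      exact hcon (Or.inr h2)
    change -u v = 0
    rw [hu2 v h1 h3, neg_zero]))
  refine ⟨h0 + A.mulVec hn, fun v => ?_⟩
  have h3 := (h.sub v _).1 (hhn v)
  have h4 := h3.add (hu1 v)
  have h5 : h0 + A.mulVec hn - x v = A.mulVec (hn - -u v) + (h0 - x v - A.mulVec (u v)) := by
    rw [sub_neg_eq_add, Matrix.mulVec_add]
    abel
  rw [h5]
  exact h4

theorem NS.congr {E F : VB K ι} (h : ∀ v x, Mem E v x ↔ Mem F v x) (hE : NS E) : NS F := by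
  intro x hx
  obtain ⟨y, hy⟩ := hE x hx
  exact ⟨y, fun v => (h v _).1 (hy v)⟩

theorem mem_twist_twist {F : VB K ι} {D D' : Place K →₀ ℤ} {v : Place K} {x : ι → K} :
    Mem ((F.twist D).twist D') v x ↔ Mem (F.twist (D + D')) v x := by
  rw [mem_twist, mem_twist, mem_twist, smul_smul, Finsupp.add_apply,
    zpow_add₀ (unif_ne_zero v)]

end Pool.Agent.Lib.BPT
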