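import Pool.Agent.Lib.BPT.HZero

/-!
# Module BPT.NSLine: vanishing of `H¹` for line bundles of large degree

Let `D₀` with `dg D₀ + 1 = finrank (secD D₀) + g` (`HasGenus`). For `D = D₀ + D'`, `D' ≥ 0`,
`dg D + 1 = finrank (secD D) + g` by induction on `dg D'` (`≤` by `HasGenus`, `≥` by `secD_step`), and
for such `D` and a place `w` there is `f ∈ secD (D + w)`, `f ∉ secD D` (dimensions, `secD D ≤
secD (D + w)`), so `w.val f = exp (D w + 1)`.
Claim: for all `D' ≥ 0` and `x : Place K → K` with `v.val (x v) ≤ exp ((D₀ + D') v)` for all `v`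
there is `h : K` with `v.val (h - x v) ≤ exp (D₀ v)` for all `v`. Induction on `dg D'`:
`D' = D'' + w`; `f` as above for `D₀ + D''` and `w`; by `CurveFacts.res` applied to `x w / f` there is
`c : ℂ` with `w.val (x w - c f) < exp ((D₀ + D') w)`, so `≤ exp ((D₀ + D'') w)`; apply
the induction hypothesis to `x v - c f`, giving `h`; the answer is `h + c f`.
A finitely supported `x` satisfies the hypothesis for some `D' ≥ 0`. So `NS (lineB D₀)`.
A line bundle `L` has the stalks `{x | v.val x ≤ exp (D v)}` for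
`D v = - ord v ((L.g v).1 0 0)`, `deg L = dg D`. If `deg L ≥ dg D₀ + g` then
`finrank (secD (D - D₀)) ≥ 1`, take `f ≠ 0` there: `f O(D₀)_v ⊆ O(D)_v = L_v`; solve for `x v / f` and
multiply by `f`.
-/

namespace Pool.Agent.Lib.BPT

open Matrix WithZero

variable {K : Type} [Field K] [Algebra ℂ K] [CurveFacts K]

omit [CurveFacts K] in
/-- every line bundle is `O(D)` for a divisor `D` -/
theorem line_eq (L : VB K (Fin 1)) : ∃ D : Place K →₀ ℤ, dg D = deg L ∧
    ∀ v x, Mem L v x ↔ Mem (lineB D) v x := by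
  have hs : (Function.support fun v : Place K => -ord v (L.g v).1.det).Finite := by
    refine (deg_support L).subset fun v hv => ?_
    simp only [Function.mem_support] at hv ⊢
    intro h0; apply hv; rw [h0, neg_zero]
  refine ⟨Finsupp.ofSupportFinite (fun v : Place K => -ord v (L.g v).1.det) hs, ?_, ?_⟩
  · rw [dg_eq_finsum]
    have h1 : ∀ v : Place K, (Finsupp.ofSupportFinite (fun v : Place K => -ord v (L.g v).1.det) hs) v
        = -ord v (L.g v).1.det := fun v => rfl
    rw [finsum_congr h1, finsum_neg_distrib]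
    rfl
  · intro v x
    rw [mem_lineB]
    have h1 : (Finsupp.ofSupportFinite (fun v : Place K => -ord v (L.g v).1.det) hs) v
        = -ord v (L.g v).1.det := rfl
    rw [h1]
    have h2 : ∀ i : Fin 1, ((L.g v)⁻¹).1.mulVec x i = ((L.g v)⁻¹).1.det * x 0 := by
      intro i
      rw [Matrix.mulVec, dotProduct, Fin.sum_univ_one, Matrix.det_fin_one, Subsingleton.elim i 0]
    have h3 : Mem L v x ↔ v.1 (((L.g v)⁻¹).1.det * x 0) ≤ 1 := by
      unfold Mem
      constructor
      · intro h
        have := h 0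
        rwa [h2] at this
      · intro h i
        rwa [h2]
    rw [h3, map_mul, val_det_inv, val_eq v (det_ne_zero (L.g v)), inv_mul_le_iff₀ (exp_pos), mul_one]

namespace NSLineAux

omit [CurveFacts K] in
theorem nonneg_induction {P : (Place K →₀ ℤ) → Prop} (h0 : P 0)
    (hs : ∀ D w, (∀ v, 0 ≤ D v) → P D → P (D + Finsupp.single w 1)) :
    ∀ D : Place K →₀ ℤ, (∀ v, 0 ≤ D v) → P D := by
  classical
  have key : ∀ n : ℕ, ∀ D : Place K →₀ ℤ, (∀ v, 0 ≤ D v) → dg D = n → P D := by
    intro n
    induction n with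
    | zero =>
      intro D hD hn
      have h1 : D = 0 := by
        ext v
        by_contra hv
        have h2 : 0 < D v := lt_of_le_of_ne (hD v) (Ne.symm hv)
        have h3 : 0 < dg D := by
          refine Finset.sum_pos' (fun v _ => hD v) ⟨v, ?_, h2⟩
          simpa using hv
        rw [hn] at h3
        simp at h3
      rw [h1]; exact h0
    | succ n ih =>
      intro D hD hn
      obtain ⟨w, hw⟩ : ∃ w, 0 < D w := by
        by_contra hcon
        push Not at hcon
        have h1 : D = 0 := by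
          ext v
          exact le_antisymm (hcon v) (hD v)
        rw [h1] at hn
        have h0 : dg (0 : Place K →₀ ℤ) = 0 := Finsupp.sum_zero_index
        rw [h0] at hn
        have : (0 : ℤ) ≤ n := Int.natCast_nonneg n
        push_cast at hn
        linarith
      have h1 : D = (D - Finsupp.single w 1) + Finsupp.single w 1 := by
        rw [sub_add_cancel]
      have h2 : ∀ v, 0 ≤ (D - Finsupp.single w 1 : Place K →₀ ℤ) v := by
        intro v
        rw [Finsupp.sub_apply, Finsupp.single_apply]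
        split_ifs with h
        · subst h; omega
        · simpa using hD v
      have h3 : dg (D - Finsupp.single w 1) = n := by
        have h4 := dg_add (D - Finsupp.single w 1) (Finsupp.single w 1)
        rw [sub_add_cancel, dg_single, hn] at h4
        push_cast at h4
        linarith
      rw [h1]
      exact hs _ w h2 (ih _ h2 h3)
  intro D hD
  have h1 : 0 ≤ dg D := HZeroAux.dg_nonneg hD
  exact key (dg D).toNat D hD (Int.toNat_of_nonneg h1).symm

theorem dim_eq {g : ℕ} (hg : HasGenus K g) {D₀ : Place K →₀ ℤ}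
    (h0 : dg D₀ + 1 = Module.finrank ℂ (secD D₀) + g) :
    ∀ D : Place K →₀ ℤ, (∀ v, 0 ≤ D v) →
      dg (D₀ + D) + 1 = Module.finrank ℂ (secD (D₀ + D)) + g := by
  refine nonneg_induction ?_ ?_
  · rw [add_zero]; exact h0
  · intro D w hD ih
    have h1 := secD_step (D₀ + D) w
    have h2 := hg.1 (D₀ + (D + Finsupp.single w 1))
    change dg (D₀ + (D + Finsupp.single w 1)) + 1 ≤ _ at h2
    rw [← add_assoc] at h2 ⊢
    have h3 : dg (D₀ + D + Finsupp.single w 1) = dg (D₀ + D) + 1 := by
      rw [dg_add, dg_single]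
    have h4 : (Module.finrank ℂ (secD (D₀ + D + Finsupp.single w 1)) : ℤ) ≤
      Module.finrank ℂ (secD (D₀ + D)) + 1 := by exact_mod_cast h1
    refine le_antisymm h2 ?_
    rw [h3]
    linarith

theorem exists_pole {g : ℕ} (hg : HasGenus K g) {D₀ : Place K →₀ ℤ}
    (h0 : dg D₀ + 1 = Module.finrank ℂ (secD D₀) + g) (D : Place K →₀ ℤ) (hD : ∀ v, 0 ≤ D v)
    (w : Place K) : ∃ f : K, f ≠ 0 ∧ w.1 f = exp ((D₀ + D) w + 1) ∧
      ∀ v, v ≠ w → v.1 f ≤ exp ((D₀ + D) v) := by
  classical
  have h1 := dim_eq hg h0 D hD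
  have hD' : ∀ v, 0 ≤ (D + Finsupp.single w 1 : Place K →₀ ℤ) v := by
    intro v
    have := hD v
    rw [Finsupp.add_apply, Finsupp.single_apply]
    split_ifs <;> omega
  have h2 := dim_eq hg h0 (D + Finsupp.single w 1) hD'
  rw [← add_assoc] at h2
  have h3 : dg (D₀ + D + Finsupp.single w 1) = dg (D₀ + D) + 1 := by
    rw [dg_add, dg_single]
  obtain ⟨f, hf, hf'⟩ : ∃ f ∈ secD (D₀ + D + Finsupp.single w 1), f ∉ secD (D₀ + D) := by
    by_contra hcon
    push Not at hcon
    have hle : secD (D₀ + D + Finsupp.single w 1) ≤ secD (D₀ + D) := hcon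
    have := secD_fin (D₀ + D)
    have h4 := Submodule.finrank_mono hle
    have h5 : (Module.finrank ℂ (secD (D₀ + D + Finsupp.single w 1)) : ℤ) ≤
      Module.finrank ℂ (secD (D₀ + D)) := by exact_mod_cast h4
    rw [h3] at h2
    linarith
  have hfne : f ≠ 0 := by
    intro h; rw [h] at hf'; exact hf' (Submodule.zero_mem _)
  have hv : ∀ v, v ≠ w → v.1 f ≤ exp ((D₀ + D) v) := by
    intro v hv
    have h4 := hf v
    rw [Finsupp.add_apply, Finsupp.single_apply, if_neg (Ne.symm hv), add_zero] at h4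
    exact h4
  refine ⟨f, hfne, ?_, hv⟩
  have h4 := hf w
  rw [Finsupp.add_apply, Finsupp.single_apply, if_pos rfl] at h4
  have h5 : ¬ w.1 f ≤ exp ((D₀ + D) w) := by
    intro h
    apply hf'
    intro v
    rcases eq_or_ne v w with rfl | hvw
    · exact h
    · exact hv v hvw
  rw [val_le_exp w hfne] at h4 h5
  rw [val_eq w hfne, exp_inj]
  omega

theorem solve {g : ℕ} (hg : HasGenus K g) {D₀ : Place K →₀ ℤ}
    (h0 : dg D₀ + 1 = Module.finrank ℂ (secD D₀) + g) :
    ∀ D : Place K →₀ ℤ, (∀ v, 0 ≤ D v) → ∀ x : Place K → K,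
      (∀ v : Place K, v.1 (x v) ≤ exp ((D₀ + D) v)) →
        ∃ h : K, ∀ v : Place K, v.1 (h - x v) ≤ exp (D₀ v) := by
  classical
  refine nonneg_induction ?_ ?_
  · intro x hx
    refine ⟨0, fun v => ?_⟩
    rw [zero_sub, Valuation.map_neg]
    have := hx v
    rwa [add_zero] at this
  · intro D w hD ih x hx
    obtain ⟨f, hf0, hfw, hfv⟩ := exists_pole hg h0 D hD w
    have h1 : w.1 (x w / f) ≤ 1 := by
      rw [map_div₀, hfw]
      have h2 := hx w
      rw [← add_assoc, Finsupp.add_apply (D₀ + D), Finsupp.single_apply, if_pos rfl] at h2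
      rw [div_le_iff₀ exp_pos, one_mul]
      exact h2
    obtain ⟨c, hc⟩ := CurveFacts.res w _ h1
    obtain ⟨h, hh⟩ := ih (fun v => x v - algebraMap ℂ K c * f) (by
      intro v
      rcases eq_or_ne v w with rfl | hvw
      · have h2 : x v - algebraMap ℂ K c * f = f * (x v / f - algebraMap ℂ K c) := by
          field_simp
        change v.1 (x v - algebraMap ℂ K c * f) ≤ _
        rcases eq_or_ne (x v - algebraMap ℂ K c * f) 0 with h3 | h3
        · rw [h3, map_zero]; exact zero_le
        · have h4 : v.1 (x v - algebraMap ℂ K c * f) < exp ((D₀ + D) v + 1) := by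
            rw [h2, map_mul, hfw]
            calc exp ((D₀ + D) v + 1) * v.1 (x v / f - algebraMap ℂ K c)
                < exp ((D₀ + D) v + 1) * 1 := by
                  exact mul_lt_mul_of_pos_left hc exp_pos
              _ = _ := mul_one _
          rw [val_eq v h3, exp_lt_exp] at h4
          rw [val_eq v h3, exp_le_exp]
          omega
      · refine (v.1.map_sub _ _).trans (max_le ?_ ?_)
        · have h2 := hx v
          rw [← add_assoc, Finsupp.add_apply (D₀ + D), Finsupp.single_apply,
            if_neg (Ne.symm hvw), add_zero] at h2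
          exact h2
        · rw [map_mul]
          exact (mul_le_of_le_one_left' (val_alg_le v c)).trans (hfv v hvw))
    refine ⟨h + algebraMap ℂ K c * f, fun v => ?_⟩
    have h2 : h + algebraMap ℂ K c * f - x v = h - (x v - algebraMap ℂ K c * f) := by ring
    rw [h2]
    exact hh v

theorem solve' {g : ℕ} (hg : HasGenus K g) {D₀ : Place K →₀ ℤ}
    (h0 : dg D₀ + 1 = Module.finrank ℂ (secD D₀) + g) (x : Place K → K)
    (hx : {v | x v ≠ 0}.Finite) : ∃ h : K, ∀ v : Place K, v.1 (h - x v) ≤ exp (D₀ v) := by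
  classical
  let F : Place K → ℤ := fun v => if x v = 0 then 0 else |ord v (x v)| + |D₀ v|
  have hF : (Function.support F).Finite := by
    refine hx.subset fun v hv h => hv ?_
    exact if_pos h
  refine solve hg h0 (Finsupp.ofSupportFinite F hF) (fun v => ?_) x (fun v => ?_)
  · change 0 ≤ F v
    simp only [F]
    split_ifs
    · exact le_rfl
    · positivity
  · rcases eq_or_ne (x v) 0 with h | h
    · rw [h, map_zero]; exact zero_le
    · rw [val_le_exp v h, Finsupp.add_apply]
      change -(D₀ v + F v) ≤ _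
      have h1 : F v = |ord v (x v)| + |D₀ v| := if_neg h
      rw [h1]
      have h2 := neg_abs_le (ord v (x v))
      have h3 := neg_abs_le (D₀ v)
      linarith

end NSLineAux

open NSLineAux

theorem ns_line {g : ℕ} (hg : HasGenus K g) : ∃ c : ℤ, ∀ L : VB K (Fin 1), c ≤ deg L → NS L := by
  obtain ⟨D₀, h0⟩ := hg.2
  change dg D₀ + 1 = _ at h0
  refine ⟨dg D₀ + g, fun L hL => ?_⟩
  obtain ⟨D, hD, hmem⟩ := line_eq L
  rw [← hD] at hL
  obtain ⟨f, hf, hf0⟩ : ∃ f ∈ secD (D - D₀), f ≠ 0 := by
    by_contra hcon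
    push Not at hcon
    have h1 : secD (D - D₀) = ⊥ := by
      rw [eq_bot_iff]
      intro f hf
      rw [Submodule.mem_bot]
      exact hcon f hf
    have h2 := hg.1 (D - D₀)
    rw [h1, finrank_bot] at h2
    change dg (D - D₀) + 1 ≤ _ at h2
    rw [sub_eq_add_neg, dg_add, dg_neg] at h2
    push_cast at h2
    linarith
  intro x hx
  obtain ⟨h, hh⟩ := solve' hg h0 (fun v => x v 0 / f) (by
    refine hx.subset fun v hv h => hv ?_
    rw [h, Pi.zero_apply, zero_div])
  refine ⟨fun _ => f * h, fun v => ?_⟩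
  rw [hmem, mem_lineB]
  change v.1 (f * h - x v 0) ≤ _
  have h1 : f * h - x v 0 = f * (h - x v 0 / f) := by
    field_simp
  have h2 : D v = (D - D₀) v + D₀ v := by
    rw [Finsupp.sub_apply]; ring
  rw [h1, map_mul, h2, exp_add]
  exact mul_le_mul' (hf v) (hh v)

end Pool.Agent.Lib.BPT
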