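import Pool.Agent.Lib.BPT.HZero

/-!
# Module BPT.RRLow: the Riemann inequality for bundles

`rr_lower`: take `D` from `exists_incl E 0`, `n = card ι`; by `h0_step`
`finrank H0 (triv(D)) ≤ finrank H0 E + (n dg D - deg E)` (`deg_twist`, `deg_trivB`) and
`H0 ((trivB K ι).twist D)` is linearly equivalent to `ι → secD D` (`mem_twist`, `mem_trivB`), so its dimension
is `n * finrank (secD D) ≥ n (dg D + 1 - g)` by `HasGenus` (`dg` unfolds to the sum there). So
`finrank H0 E ≥ deg E - n (g - 1)`. `minkowski`: the dimension of `H0 E` is positive.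
-/

namespace Pool.Agent.Lib.BPT

open Matrix WithZero

variable {K : Type} [Field K] [Algebra ℂ K] [CurveFacts K]

variable {ι : Type} [Fintype ι] [DecidableEq ι]

namespace RRLowAux

theorem mem_trivTw {D : Place K →₀ ℤ} {v : Place K} {x : ι → K} :
    Mem ((trivB K ι).twist D) v x ↔ ∀ i, v.1 (x i) ≤ exp (D v) := by
  rw [mem_twist, mem_trivB]
  refine forall_congr' fun i => ?_
  rw [Pi.smul_apply, smul_eq_mul, map_mul, val_unif_zpow, WithZero.exp_neg,
    inv_mul_le_iff₀ (exp_pos), mul_one]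

/-- the sections of `O(D) ^ ι` -/
def eqv (D : Place K →₀ ℤ) : H0 ((trivB K ι).twist D) ≃ₗ[ℂ] (ι → secD D) where
  toFun x i := ⟨x.1 i, fun v => mem_trivTw.1 (x.2 v) i⟩
  map_add' x y := rfl
  map_smul' c x := rfl
  invFun y := ⟨fun i => (y i).1, fun v => mem_trivTw.2 fun i => (y i).2 v⟩
  left_inv x := rfl
  right_inv y := rfl

end RRLowAux

theorem rr_lower {g : ℕ} (hg : HasGenus K g) (E : VB K ι) :
    deg E - Fintype.card ι * ((g : ℤ) - 1) ≤ Module.finrank ℂ (H0 E) := by
  obtain ⟨D, -, hD⟩ := exists_incl E 0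
  have h1 := h0_step E _ hD
  have h2 : Module.finrank ℂ (H0 ((trivB K ι).twist D)) =
      Fintype.card ι * Module.finrank ℂ (secD D) := by
    haveI := secD_fin D
    rw [(RRLowAux.eqv D).finrank_eq, Module.finrank_pi_fintype, Finset.sum_const,
      Finset.card_univ, smul_eq_mul]
  have h3 : dg D + 1 ≤ Module.finrank ℂ (secD D) + g := hg.1 D
  rw [h2, deg_twist, deg_trivB] at h1
  push_cast at h1
  have h4 : (Fintype.card ι : ℤ) * (dg D + 1) ≤
      Fintype.card ι * (Module.finrank ℂ (secD D) + g) :=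
    mul_le_mul_of_nonneg_left h3 (by positivity)
  linarith

theorem minkowski {g : ℕ} (hg : HasGenus K g) (E : VB K ι)
    (h : Fintype.card ι * ((g : ℤ) - 1) < deg E) : ∃ x : ι → K, x ≠ 0 ∧ ∀ v, Mem E v x := by
  have h1 := rr_lower hg E
  have h2 : 0 < Module.finrank ℂ (H0 E) := by
    have : (0 : ℤ) < Module.finrank ℂ (H0 E) := by linarith
    exact_mod_cast this
  haveI := h0_fin E
  obtain ⟨x, hx⟩ := (Module.finrank_pos_iff_exists_ne_zero (R := ℂ) (M := H0 E)).1 h2
  exact ⟨x.1, fun h0 => hx (Subtype.ext h0), x.2⟩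

end Pool.Agent.Lib.BPT
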