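import Pool.Agent.Lib.BPT.SubQuot
import Pool.Agent.Lib.BPT.NSLine
import Pool.Agent.Lib.BPT.RRLow
import Pool.Agent.Lib.BPT.NSExt

/-!
# Module BPT.Bk: bundles without line bundle quotients of small degree

`bk`: induction on `k`. `k + 1 = 1`: the identity is a nonzero homomorphism `F → F`, so `deg F ≥ c`;
with `c₁` from `ns_line` take `m₀ = c₁ - c` (`deg_twist`).
Step from `k + 1` to `k + 2` (`n := k + 2`): let `F` have rank `n` and only line bundle quotients of degree
`≥ c`.
(1) `deg F ≥ n (c - g)`: let `D = (c - 1) w` for some place `w`; if `F.dual.twist D` has a nonzero section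
`x`, then the row `x` is a nonzero homomorphism `F → lineB D`, so `c ≤ dg D = c - 1`, a
contradiction. So by `minkowski` `deg (F.dual.twist D) = - deg F + n (c - 1) ≤ n (g - 1)`.
(2) Put `D = (2 g - c) w`: `deg (F.twist D) = deg F + n (2 g - c) ≥ n g > n (g - 1)`, so `F.twist D` has a
nonzero section `x`, i.e. the column `A = x` (`Fin 1`) is injective and `IsHom (lineB (-D)) F A`.
`exists_exact` (`a = 1`, `b = k + 1`): `Exact N F Q A B`, `deg N ≥ deg (lineB (-D)) = c - 2 g` by
`deg_le_of_inj`.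
(3) nonzero homomorphisms `Q → Z` to line bundles give the nonzero homomorphisms `F → Q → Z`
(`B` is surjective), so `Q` satisfies the hypothesis and `NS (Q.twist D)` for `dg D ≥ m₁` by induction;
`NS (N.twist D)` for `dg D ≥ c₁ - c + 2 g`; `Exact.twist` and `Exact.ns`.

`dich`: `F` of rank `κ + 1` and degree `e = (κ + 1) (g - 1)`. If all nonzero homomorphisms to
line bundles have degree `≥ g - 1`, `bk` with `c = g - 1` applies. Otherwise there is a nonzero
`B : F → Z`, `deg Z < g - 1`. By `exists_exact_of_functional`: `Exact N F Q A B`, and `Q_v ⊆ Z_v` (`lift`),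
so `deg Q ≤ deg Z` (`deg_le_of_isHom` with `A = 1`), `deg N = e - deg Q > κ (g - 1)`, and
`IsHom N F A` by `isHom_iff` and `Exact.sub`.
-/

namespace Pool.Agent.Lib.BPT

open Matrix WithZero

variable {K : Type} [Field K] [Algebra ℂ K] [CurveFacts K]

namespace BkAux

variable {ι : Type} [Fintype ι] [DecidableEq ι]

omit [CurveFacts K] in
/-- a section of `F* (D)` is a homomorphism `F → O(D)` -/
theorem row_hom {F : VB K ι} {D : Place K →₀ ℤ} {x : ι → K}
    (h : ∀ v, Mem (F.dual.twist D) v x) :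
    IsHom F (lineB D) (Matrix.of fun (_ : Fin 1) (i : ι) => x i) := by
  rw [isHom_iff]
  intro v y hy
  rw [mem_lineB]
  obtain ⟨z, hz, rfl⟩ := mem_iff.1 hy
  have h1 : Mem F.dual v (unif v ^ (D v) • x) := mem_twist.1 (h v)
  have h2 : ∀ i, v.1 (((F.g v).1ᵀ).mulVec x i) ≤ exp (D v) := by
    intro i
    have h3 : v.1 (((F.g v).1ᵀ).mulVec (unif v ^ (D v) • x) i) ≤ 1 := h1 i
    rw [Matrix.mulVec_smul, Pi.smul_apply, smul_eq_mul, map_mul, val_unif_zpow,
      WithZero.exp_neg, inv_mul_le_iff₀ exp_pos, mul_one] at h3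
    exact h3
  have h4 : (Matrix.of fun (_ : Fin 1) (i : ι) => x i).mulVec ((F.g v).1.mulVec z) 0 =
      ∑ i, ((F.g v).1ᵀ).mulVec x i * z i := by
    change x ⬝ᵥ ((F.g v).1.mulVec z) = _
    rw [Matrix.dotProduct_mulVec, ← Matrix.mulVec_transpose]
    rfl
  rw [h4]
  refine val_sum_le v _ _ _ fun i _ => ?_
  rw [map_mul]
  exact (mul_le_mul' (h2 i) (hz i)).trans (mul_one _).le

omit [CurveFacts K] in
/-- the column of a section of `F(D)` is a homomorphism `O(-D) → F` -/
theorem col_mulVec (x : ι → K) (y : Fin 1 → K) :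
    (Matrix.of fun (i : ι) (_ : Fin 1) => x i).mulVec y = y 0 • x := by
  funext i
  change (∑ j : Fin 1, x i * y j) = y 0 * x i
  rw [Fin.sum_univ_one, mul_comm]

omit [CurveFacts K] in
theorem col_hom {F : VB K ι} {D : Place K →₀ ℤ} {x : ι → K} (h : ∀ v, Mem (F.twist D) v x) :
    IsHom (lineB (-D)) F (Matrix.of fun (i : ι) (_ : Fin 1) => x i) := by
  rw [isHom_iff]
  intro v y hy
  rw [mem_lineB] at hy
  rw [col_mulVec]
  have h1 : Mem F v (unif v ^ (D v) • x) := mem_twist.1 (h v)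
  have h0 : unif v ^ (D v) ≠ 0 := zpow_ne_zero _ (unif_ne_zero v)
  have h2 : y 0 • x = (y 0 * (unif v ^ (D v))⁻¹) • (unif v ^ (D v) • x) := by
    rw [smul_smul, mul_assoc, inv_mul_cancel₀ h0, mul_one]
  rw [h2]
  refine h1.smul ?_
  rw [map_mul, map_inv₀, val_unif_zpow, WithZero.exp_neg, inv_inv]
  refine (mul_le_mul' hy le_rfl).trans ?_
  rw [← exp_add, Finsupp.neg_apply, neg_add_cancel, exp_zero]

omit [CurveFacts K] in
theorem col_inj {x : ι → K} (hx : x ≠ 0) :
    Function.Injective (Matrix.of fun (i : ι) (_ : Fin 1) => x i).mulVec := by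
  intro y z hyz
  rw [col_mulVec, col_mulVec] at hyz
  have h : y 0 = z 0 := smul_left_injective K hx hyz
  funext j
  rw [Subsingleton.elim j 0, h]

omit [CurveFacts K] in
theorem mul_ne_zero_of_surj {a b c : ℕ} {B' : Matrix (Fin a) (Fin b) K}
    {B : Matrix (Fin b) (Fin c) K} (hB' : B' ≠ 0) (hB : Function.Surjective B.mulVec) :
    B' * B ≠ 0 := by
  intro h
  apply hB'
  have h1 : ∀ z, B'.mulVec z = 0 := by
    intro z
    obtain ⟨y, rfl⟩ := hB z
    rw [Matrix.mulVec_mulVec, h, Matrix.zero_mulVec]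
  ext i j
  have h2 := congrFun (h1 (Pi.single j 1)) i
  rwa [Matrix.mulVec_single_one] at h2

end BkAux

open BkAux

theorem bk {g : ℕ} (hg : HasGenus K g) (k : ℕ) (c : ℤ) : ∃ m₀ : ℤ, ∀ F : VB K (Fin (k + 1)),
    (∀ (Z : VB K (Fin 1)) (B : Matrix (Fin 1) (Fin (k + 1)) K), B ≠ 0 → IsHom F Z B →
      c ≤ deg Z) → ∀ D : Place K →₀ ℤ, m₀ ≤ dg D → NS (F.twist D) := by
  obtain ⟨c₁, hc₁⟩ := ns_line hg
  induction k with
  | zero =>
    refine ⟨c₁ - c, fun F hF D hD => hc₁ _ ?_⟩
    have h1 : c ≤ deg F := hF F (1 : Matrix (Fin 1) (Fin 1) K) one_ne_zero (IsHom.id F)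
    rw [deg_twist, Fintype.card_fin]
    push_cast
    linarith
  | succ k ih =>
    obtain ⟨m₁, hm₁⟩ := ih
    refine ⟨max m₁ (c₁ - c + 2 * g), fun F hF D hD => ?_⟩
    obtain ⟨w⟩ := CurveFacts.ne (K := K)
    -- a lower bound for the degree
    have hdeg : ((k : ℤ) + 2) * (c - g) ≤ deg F := by
      by_contra hcon
      push Not at hcon
      obtain ⟨x, hx, hxm⟩ := minkowski hg (F.dual.twist (Finsupp.single w (c - 1))) (by
        rw [deg_twist, deg_dual, dg_single, Fintype.card_fin]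
        push_cast
        nlinarith)
      have h1 := hF _ _ (fun h => hx (by
        funext i
        exact congrFun (congrFun h 0) i)) (row_hom hxm)
      rw [deg_lineB, dg_single] at h1
      linarith
    obtain ⟨x, hx, hxm⟩ := minkowski hg (F.twist (Finsupp.single w (2 * g - c))) (by
      rw [deg_twist, dg_single, Fintype.card_fin]
      push_cast
      nlinarith)
    obtain ⟨N, Q, B, hE⟩ := exists_exact (b := k + 1) F (by
      rw [Fintype.card_fin]; ring) _ (col_inj hx)
    have hN : c - 2 * g ≤ deg N := by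
      have h1 := deg_le_of_inj hE (col_hom hxm)
      rw [deg_lineB, dg_neg, dg_single] at h1
      linarith
    have hQ : ∀ D : Place K →₀ ℤ, m₁ ≤ dg D → NS (Q.twist D) := by
      refine hm₁ Q fun Z B' hB' hZ => ?_
      exact hF Z (B' * B) (mul_ne_zero_of_surj hB' hE.surj) (hZ.comp (isHom_iff.2 hE.hom))
    refine (hE.twist (by rw [Fintype.card_fin]; ring) D).ns ?_ ?_
    · refine hc₁ _ ?_
      rw [deg_twist, Fintype.card_fin]
      have := (le_max_right _ _).trans hD
      push_cast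
      linarith
    · exact hQ D ((le_max_left _ _).trans hD)

theorem dich {g : ℕ} (hg : HasGenus K g) (κ : ℕ) : ∃ m₀ : ℤ, ∀ F : VB K (Fin (κ + 1)),
    deg F = (κ + 1) * ((g : ℤ) - 1) →
      (∃ (N : VB K (Fin κ)) (A : Matrix (Fin (κ + 1)) (Fin κ) K), Function.Injective A.mulVec ∧
        IsHom N F A ∧ κ * ((g : ℤ) - 1) < deg N) ∨
      ∀ D : Place K →₀ ℤ, m₀ ≤ dg D → NS (F.twist D) := by
  obtain ⟨m₀, hm₀⟩ := bk hg κ ((g : ℤ) - 1)
  refine ⟨m₀, fun F hF => ?_⟩
  by_cases h : ∀ (Z : VB K (Fin 1)) (B : Matrix (Fin 1) (Fin (κ + 1)) K), B ≠ 0 → IsHom F Z B →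
      (g : ℤ) - 1 ≤ deg Z
  · exact Or.inr (hm₀ F h)
  · left
    push Not at h
    obtain ⟨Z, B, hB, hZ, hdZ⟩ := h
    obtain ⟨N, Q, A, hE⟩ := exists_exact_of_functional F (by rw [Fintype.card_fin]) B hB
    refine ⟨N, A, hE.inj, isHom_iff.2 fun v x hx => (hE.sub v x).1 hx, ?_⟩
    have hQZ : deg Q ≤ deg Z := by
      refine deg_le_of_isHom (A := 1) ?_ (by rw [Matrix.det_one]; exact one_ne_zero)
      rw [isHom_iff]
      intro v z hz
      obtain ⟨x, hx, rfl⟩ := hE.lift v z hz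
      rw [Matrix.one_mulVec]
      exact isHom_iff.1 hZ v x hx
    have h1 := hE.deg_add
    rw [hF] at h1
    linarith

end Pool.Agent.Lib.BPT
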