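import Pool.Agent.Lib.BPT.Basic

/-!
# Constructions with adelic bundles: twists, duals, tensor products, elementary modifications
-/

namespace Pool.Agent.Lib.BPT

open Matrix WithZero

variable {K : Type} [Field K] [Algebra ℂ K]

/-- the degree of a divisor -/
noncomputable def dg (D : Place K →₀ ℤ) : ℤ := D.sum fun _ n => n

theorem dg_add (D D' : Place K →₀ ℤ) : dg (D + D') = dg D + dg D' :=
  Finsupp.sum_add_index' (fun _ => rfl) fun _ _ _ => rfl

theorem dg_single (w : Place K) (n : ℤ) : dg (Finsupp.single w n) = n :=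
  Finsupp.sum_single_index rfl

theorem dg_neg (D : Place K →₀ ℤ) : dg (-D) = -dg D := by
  have h := dg_add D (-D)
  rw [add_neg_cancel] at h
  have h0 : dg (0 : Place K →₀ ℤ) = 0 := Finsupp.sum_zero_index
  linarith

theorem dg_eq_finsum (D : Place K →₀ ℤ) : dg D = ∑ᶠ v, D v := by
  rw [dg, Finsupp.sum, finsum_eq_sum_of_support_subset]
  intro v hv
  simpa using hv

variable {ι κ μ : Type} [Fintype ι] [DecidableEq ι] [Fintype κ] [DecidableEq κ] [Fintype μ]
  [DecidableEq μ]

/-! ## scalars -/

/-- scalar matrices -/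
def scalGL (ι : Type) [Fintype ι] [DecidableEq ι] (c : K) (hc : c ≠ 0) : GL ι K where
  val := c • 1
  inv := c⁻¹ • 1
  val_inv := by rw [smul_mul_smul_comm, mul_inv_cancel₀ hc, one_smul, one_mul]
  inv_val := by rw [smul_mul_smul_comm, inv_mul_cancel₀ hc, one_smul, one_mul]

theorem scalGL_inv_val (c : K) (hc : c ≠ 0) : ((scalGL ι c hc)⁻¹).1 = c⁻¹ • 1 := rfl

theorem unimod_scalGL {v : Place K} {c : K} (hc : c ≠ 0) (h : v.1 c = 1) :
    Unimod v (scalGL ι c hc) := by
  constructor
  · intro i j
    change v.1 (c • (1 : Matrix ι ι K) i j) ≤ 1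
    rw [smul_eq_mul, map_mul, h, one_mul]
    exact IsInt.one i j
  · intro i j
    change v.1 (c⁻¹ • (1 : Matrix ι ι K) i j) ≤ 1
    rw [smul_eq_mul, map_mul, map_inv₀, h, inv_one, one_mul]
    exact IsInt.one i j

/-- `E(D)` -/
noncomputable def VB.twist (D : Place K →₀ ℤ) (E : VB K ι) : VB K ι where
  g v := scalGL ι (unif v ^ (-(D v))) (zpow_ne_zero _ (unif_ne_zero v)) * E.g v
  fin := by
    refine (D.hasFiniteSupport.union E.finU).subset ?_
    intro v hv
    by_contra hcon
    apply hv
    refine Unimod.mul (unimod_scalGL _ ?_) ?_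
    · have : D v = 0 := by
        by_contra h; exact hcon (Or.inl (by simpa using h))
      rw [this]; simp
    · by_contra h; exact hcon (Or.inr h)

theorem mem_twist {D : Place K →₀ ℤ} {E : VB K ι} {v : Place K} {x : ι → K} :
    Mem (E.twist D) v x ↔ Mem E v (unif v ^ (D v) • x) := by
  unfold Mem
  have h : ((E.twist D).g v)⁻¹ = (E.g v)⁻¹ *
      (scalGL ι (unif v ^ (-(D v))) (zpow_ne_zero _ (unif_ne_zero v)))⁻¹ := by
    change (_ * E.g v)⁻¹ = _
    rw [_root_.mul_inv_rev]
  rw [h, Units.val_mul, scalGL_inv_val, ← Matrix.mulVec_mulVec, Matrix.smul_mulVec,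
    Matrix.one_mulVec, _root_.zpow_neg, inv_inv]

theorem deg_twist (D : Place K →₀ ℤ) (E : VB K ι) :
    deg (E.twist D) = deg E + Fintype.card ι * dg D := by
  have h : ∀ v, ord v ((E.twist D).g v).1.det = Fintype.card ι * (-(D v)) + ord v (E.g v).1.det := by
    intro v
    change ord v (((unif v ^ (-(D v))) • (1 : Matrix ι ι K)) * (E.g v).1).det = _
    rw [Matrix.det_mul, Matrix.det_smul, Matrix.det_one, mul_one,
      ord_mul v (pow_ne_zero _ (zpow_ne_zero _ (unif_ne_zero v))) (det_ne_zero _),
      ord_pow v (zpow_ne_zero _ (unif_ne_zero v)), ord_unif_zpow]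
  have hs : (Function.support fun v : Place K => (Fintype.card ι : ℤ) * (-(D v))).Finite := by
    refine D.hasFiniteSupport.subset fun v hv => ?_
    simp only [Function.mem_support] at hv ⊢
    intro h0; apply hv; rw [h0]; simp
  unfold deg
  rw [finsum_congr h, finsum_add_distrib hs (deg_support E), dg_eq_finsum]
  have h2 : ∑ᶠ v : Place K, (Fintype.card ι : ℤ) * (-(D v)) = -(Fintype.card ι * ∑ᶠ v, D v) := by
    rw [mul_finsum' _ _ D.hasFiniteSupport, ← finsum_neg_distrib]
    exact finsum_congr fun v => by ring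
  rw [h2]; ring

/-! ## duals -/

/-- the inverse transpose -/
def invT (g : GL ι K) : GL ι K where
  val := (g⁻¹).1ᵀ
  inv := g.1ᵀ
  val_inv := by rw [← Matrix.transpose_mul, Units.mul_inv, Matrix.transpose_one]
  inv_val := by rw [← Matrix.transpose_mul, Units.inv_mul, Matrix.transpose_one]

theorem invT_val (g : GL ι K) : (invT g).1 = (g⁻¹).1ᵀ := rfl

theorem invT_inv_val (g : GL ι K) : ((invT g)⁻¹).1 = g.1ᵀ := rfl

/-- the dual bundle -/
noncomputable def VB.dual (E : VB K ι) : VB K ι where
  g v := invT (E.g v)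
  fin := by
    refine E.finU.subset ?_
    intro v hv h
    exact hv ⟨h.2.transpose, h.1.transpose⟩

theorem deg_dual (E : VB K ι) : deg E.dual = -deg E := by
  have h : ∀ v, ord v (E.dual.g v).1.det = -ord v (E.g v).1.det := by
    intro v
    change ord v ((E.g v)⁻¹).1ᵀ.det = _
    rw [Matrix.det_transpose]
    have h : ((E.g v)⁻¹).1.det = ((E.g v).1.det)⁻¹ := by
      have h1 : (E.g v).1.det * ((E.g v)⁻¹).1.det = 1 := by
        rw [← Matrix.det_mul, Units.mul_inv, Matrix.det_one]
      exact eq_inv_of_mul_eq_one_right h1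
    rw [h, ord_inv]
  unfold deg
  rw [finsum_congr h, finsum_neg_distrib]

theorem isHom_dual {E : VB K ι} {F : VB K κ} {A : Matrix κ ι K} (h : IsHom E F A) :
    IsHom F.dual E.dual Aᵀ := by
  intro v
  have h1 := (h v).transpose
  rw [Matrix.transpose_mul, Matrix.transpose_mul, ← Matrix.mul_assoc] at h1
  exact h1

/-! ## tensor products -/

/-- `A ⊗ B` -/
def kronGL (A : GL ι K) (B : GL κ K) : GL (ι × κ) K where
  val := Matrix.kroneckerMap (· * ·) A.1 B.1
  inv := Matrix.kroneckerMap (· * ·) (A⁻¹).1 (B⁻¹).1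
  val_inv := by
    rw [← Matrix.mul_kronecker_mul, Units.mul_inv, Units.mul_inv]
    exact Matrix.one_kronecker_one
  inv_val := by
    rw [← Matrix.mul_kronecker_mul, Units.inv_mul, Units.inv_mul]
    exact Matrix.one_kronecker_one

/-- the tensor product of two bundles -/
noncomputable def VB.tensor (E : VB K ι) (F : VB K κ) : VB K (ι × κ) where
  g v := kronGL (E.g v) (F.g v)
  fin := by
    refine (E.finU.union F.finU).subset ?_
    intro v hv
    by_contra hcon
    have hE : Unimod v (E.g v) := by by_contra h; exact hcon (Or.inl h)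
    have hF : Unimod v (F.g v) := by by_contra h; exact hcon (Or.inr h)
    apply hv
    constructor
    · intro i j
      change v.1 ((E.g v).1 i.1 j.1 * (F.g v).1 i.2 j.2) ≤ 1
      rw [map_mul]
      exact mul_le_one' (hE.1 _ _) (hF.1 _ _)
    · intro i j
      change v.1 (((E.g v)⁻¹).1 i.1 j.1 * ((F.g v)⁻¹).1 i.2 j.2) ≤ 1
      rw [map_mul]
      exact mul_le_one' (hE.2 _ _) (hF.2 _ _)

theorem deg_tensor (E : VB K ι) (F : VB K κ) :
    deg (E.tensor F) = Fintype.card κ * deg E + Fintype.card ι * deg F := by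
  have h : ∀ v, ord v ((E.tensor F).g v).1.det =
      (Fintype.card κ : ℤ) * ord v (E.g v).1.det + (Fintype.card ι : ℤ) * ord v (F.g v).1.det := by
    intro v
    change ord v (Matrix.kroneckerMap (· * ·) (E.g v).1 (F.g v).1).det = _
    rw [Matrix.det_kronecker, ord_mul v (pow_ne_zero _ (det_ne_zero _))
      (pow_ne_zero _ (det_ne_zero _)), ord_pow v (det_ne_zero _), ord_pow v (det_ne_zero _)]
  have h1 : (Function.support fun v : Place K =>
      (Fintype.card κ : ℤ) * ord v (E.g v).1.det).Finite :=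
    (deg_support E).subset fun v hv h0 => hv (by simp [h0])
  have h2 : (Function.support fun v : Place K =>
      (Fintype.card ι : ℤ) * ord v (F.g v).1.det).Finite :=
    (deg_support F).subset fun v hv h0 => hv (by simp [h0])
  unfold deg
  rw [finsum_congr h, finsum_add_distrib h1 h2, ← mul_finsum' _ _ (deg_support E),
    ← mul_finsum' _ _ (deg_support F)]
  ring

/-- sections of `E* ⊗ F` are homomorphisms -/
theorem isHom_of_mem_tensor {E : VB K ι} {F : VB K κ} {x : ι × κ → K}
    (h : ∀ v, Mem (E.dual.tensor F) v x) : IsHom E F (Matrix.of fun j i => x (i, j)) := by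
  intro v j i
  have h1 := h v (i, j)
  have h2 : (((E.dual.tensor F).g v)⁻¹).1.mulVec x (i, j) =
      (((F.g v)⁻¹).1 * (Matrix.of fun j i => x (i, j)) * (E.g v).1) j i := by
    change (Matrix.kroneckerMap (· * ·) (E.g v).1ᵀ ((F.g v)⁻¹).1).mulVec x (i, j) = _
    rw [Matrix.mulVec, dotProduct, Fintype.sum_prod_type, Matrix.mul_apply]
    refine Finset.sum_congr rfl fun a _ => ?_
    rw [Matrix.mul_apply, Finset.sum_mul]
    refine Finset.sum_congr rfl fun b _ => ?_
    simp only [Matrix.kroneckerMap_apply, Matrix.transpose_apply, Matrix.of_apply]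
    ring
  rw [h2] at h1
  exact h1

/-! ## changing the stalk at one point -/

open Classical in
/-- the stalk at `w` is replaced by `g_w h O_w ^ ι` -/
noncomputable def VB.modAt (E : VB K ι) (w : Place K) (h : GL ι K) : VB K ι where
  g v := if v = w then E.g v * h else E.g v
  fin := by
    refine ((Set.finite_singleton w).union E.finU).subset ?_
    intro v hv
    by_contra hcon
    apply hv
    have hvw : v ≠ w := fun h => hcon (Or.inl h)
    change Unimod v _
    rw [if_neg hvw]
    by_contra h; exact hcon (Or.inr h)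

theorem modAt_g_self (E : VB K ι) (w : Place K) (h : GL ι K) : (E.modAt w h).g w = E.g w * h := by
  unfold VB.modAt; simp

theorem modAt_g_ne (E : VB K ι) {v w : Place K} (h : GL ι K) (hv : v ≠ w) :
    (E.modAt w h).g v = E.g v := by
  unfold VB.modAt; simp [hv]

theorem deg_modAt (E : VB K ι) (w : Place K) (h : GL ι K) :
    deg (E.modAt w h) = deg E - ord w h.1.det := by
  classical
  unfold deg
  have h1 : ∀ v, ord v ((E.modAt w h).g v).1.det = ord v (E.g v).1.det +
      (if v = w then ord w h.1.det else 0) := by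
    intro v
    rcases eq_or_ne v w with rfl | hv
    · rw [modAt_g_self, Units.val_mul, Matrix.det_mul, ord_mul v (det_ne_zero _) (det_ne_zero _),
        if_pos rfl]
    · rw [modAt_g_ne E h hv, if_neg hv, add_zero]
  have hs : (Function.support fun v : Place K => if v = w then ord w h.1.det else 0).Finite := by
    refine (Set.finite_singleton w).subset fun v hv => ?_
    by_contra hvw
    exact hv (if_neg hvw)
  rw [finsum_congr h1, finsum_add_distrib (deg_support E) hs, finsum_eq_single _ w fun v hv =>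
    if_neg hv, if_pos rfl]
  ring

/-! ## reindexing -/

/-- reindexing of invertible matrices -/
def reGL (e : ι ≃ κ) (g : GL ι K) : GL κ K where
  val := Matrix.reindex e e g.1
  inv := Matrix.reindex e e (g⁻¹).1
  val_inv := by
    rw [Matrix.reindex_apply, Matrix.reindex_apply, Matrix.submatrix_mul_equiv, Units.mul_inv,
      Matrix.submatrix_one_equiv]
  inv_val := by
    rw [Matrix.reindex_apply, Matrix.reindex_apply, Matrix.submatrix_mul_equiv, Units.inv_mul,
      Matrix.submatrix_one_equiv]

/-- reindexing of bundles -/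
def VB.reindex (e : ι ≃ κ) (E : VB K ι) : VB K κ where
  g v := reGL e (E.g v)
  fin := by
    refine E.finU.subset ?_
    intro v hv h
    exact hv ⟨fun i j => h.1 _ _, fun i j => h.2 _ _⟩

theorem deg_reindex (e : ι ≃ κ) (E : VB K ι) : deg (E.reindex e) = deg E := by
  unfold deg
  congr 1
  refine finsum_congr fun v => ?_
  change ord v (Matrix.reindex e e (E.g v).1).det = _
  rw [Matrix.det_reindex_self]

theorem mem_reindex {e : ι ≃ κ} {E : VB K ι} {v : Place K} {x : κ → K} :
    Mem (E.reindex e) v x ↔ Mem E v (x ∘ e) := by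
  unfold Mem
  have h : ∀ j, (((E.reindex e).g v)⁻¹).1.mulVec x j = ((E.g v)⁻¹).1.mulVec (x ∘ e) (e.symm j) := by
    intro j
    change (Matrix.reindex e e ((E.g v)⁻¹).1).mulVec x j = _
    rw [Matrix.reindex_apply, Matrix.submatrix_mulVec_equiv]
    rfl
  constructor
  · intro hx i
    have := hx (e i)
    rw [h, Equiv.symm_apply_apply] at this
    exact this
  · intro hx j
    rw [h]; exact hx _

/-! ## line bundles -/

/-- the trivial bundle -/
def trivB (K : Type) [Field K] [Algebra ℂ K] (ι : Type) [Fintype ι] [DecidableEq ι] : VB K ι where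
  g := fun _ => 1
  fin := by
    convert Set.finite_empty
    ext v
    simp only [Set.mem_ofPred_eq, Set.mem_empty_iff_false, iff_false, not_not]
    exact Unimod.one

theorem mem_trivB {v : Place K} {x : ι → K} : Mem (trivB K ι) v x ↔ ∀ i, v.1 (x i) ≤ 1 := by
  unfold Mem
  have h : ((trivB K ι).g v)⁻¹ = 1 := inv_one
  rw [h, Units.val_one, Matrix.one_mulVec]

theorem deg_trivB : deg (trivB K ι) = 0 := by
  unfold deg
  have h : ∀ v : Place K, ord v ((trivB K ι).g v).1.det = 0 := by
    intro v
    change ord v (1 : Matrix ι ι K).det = 0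
    rw [Matrix.det_one, ord_one]
  rw [finsum_congr h, finsum_zero, neg_zero]

/-- the line bundle `O(D)` -/
noncomputable def lineB (D : Place K →₀ ℤ) : VB K (Fin 1) := (trivB K (Fin 1)).twist D

theorem deg_lineB (D : Place K →₀ ℤ) : deg (lineB D) = dg D := by
  rw [lineB, deg_twist, deg_trivB]; simp

theorem mem_lineB {D : Place K →₀ ℤ} {v : Place K} {x : Fin 1 → K} :
    Mem (lineB D) v x ↔ v.1 (x 0) ≤ exp (D v) := by
  rw [lineB, mem_twist, mem_trivB]
  have h : ∀ i : Fin 1, v.1 ((unif v ^ (D v) • x) i) = exp (-(D v)) * v.1 (x 0) := by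
    intro i
    rw [Pi.smul_apply, smul_eq_mul, map_mul, val_unif_zpow, Subsingleton.elim i 0]
  simp only [h]
  have h2 : exp (-(D v)) * v.1 (x 0) ≤ 1 ↔ v.1 (x 0) ≤ exp (D v) := by
    rw [WithZero.exp_neg, inv_mul_le_iff₀ (exp_pos), mul_one]
  rw [h2]
  exact ⟨fun h => h 0, fun h _ => h⟩

theorem mem_secD {D : Place K →₀ ℤ} {f : K} : f ∈ secD D ↔ ∀ v, Mem (lineB D) v fun _ => f := by
  constructor
  · intro h v; exact mem_lineB.2 (h v)
  · intro h v; exact mem_lineB.1 (h v)

end Pool.Agent.Lib.BPT
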