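import Mathlib

/-!
# Vector bundles on a compact Riemann surface in adelic form

`K` is the field of meromorphic functions of a compact Riemann surface `X`. A point of `X` is a
normalised discrete valuation of `K` that is trivial on the constants. A vector bundle of rank
`|ι|` on `X` (with a trivialisation at the generic point) is given by its stalks
`E_v = g_v O_v ^ ι ⊆ K ^ ι`, `g_v ∈ GL_ι(K)`, equal to `O_v ^ ι` for all but finitely many points `v`.
-/

namespace Pool.Agent.Lib.BPT

open Matrix WithZero

/-- `K` is a function field of one variable over `ℂ`: some `t ∈ K` is transcendental over `ℂ` and `K`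
is a finite extension of `ℂ(t)`. Such a `K` is the field of meromorphic functions of a compact
Riemann surface `X`, and every compact Riemann surface arises once. -/
def IsCurveField (K : Type) [Field K] [Algebra ℂ K] : Prop :=
  ∃ t : K, Transcendental ℂ t ∧ Module.Finite (IntermediateField.adjoin ℂ {t}) K

/-- The points of `X`: the surjective valuations of `K` with values in `ℤ` (written
multiplicatively, with `0` added) that are trivial on `ℂ`. -/
@[ext] structure Place (K : Type) [Field K] [Algebra ℂ K] where
  val : Valuation K ℤᵐ⁰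
  surj : Function.Surjective val
  triv : ∀ c : ℂ, c ≠ 0 → val (algebraMap ℂ K c) = 1

variable {K : Type} [Field K] [Algebra ℂ K]

/-- the order of vanishing of `x ≠ 0` at `v` (`0` for `x = 0`) -/
noncomputable def ord (v : Place K) (x : K) : ℤ := -WithZero.log (v.1 x)

/-- all entries of the matrix `M` are regular at `v` -/
def IsInt {ι κ : Type} (v : Place K) (M : Matrix ι κ K) : Prop := ∀ i j, v.1 (M i j) ≤ 1

/-- A vector bundle of rank `|ι|` on `X` with a trivialisation at the generic point: at each point
`v` the columns of `g v` are a basis of the stalk `E_v ⊆ K ^ ι`, and for all but finitely many `v`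
the stalk is `O_v ^ ι` (`g v` and its inverse are regular at `v`). -/
structure VB (K : Type) [Field K] [Algebra ℂ K] (ι : Type) [Fintype ι] [DecidableEq ι] where
  g : Place K → GL ι K
  fin : {v | ¬ (IsInt v (g v).1 ∧ IsInt v ((g v)⁻¹).1)}.Finite

variable {ι κ : Type} [Fintype ι] [DecidableEq ι] [Fintype κ] [DecidableEq κ]

/-- the degree of a vector bundle -/
noncomputable def deg (E : VB K ι) : ℤ := -∑ᶠ v : Place K, ord v (E.g v).1.det

/-- the matrix `A` is a homomorphism of vector bundles `E → F`: it maps `E_v` into `F_v` for all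
`v` -/
def IsHom (E : VB K ι) (F : VB K κ) (A : Matrix κ ι K) : Prop :=
  ∀ v, IsInt v (((F.g v)⁻¹).1 * A * (E.g v).1)

/-- `E` is stable of degree `0`: all subbundles of smaller rank `n > 0` have negative degree
(equivalently, all subsheaves: images of injective homomorphisms). -/
def StableZero (E : VB K ι) : Prop :=
  deg E = 0 ∧ ∀ n : ℕ, 0 < n → n < Fintype.card ι → ∀ (S : VB K (Fin n)) (A : Matrix ι (Fin n) K),
    Function.Injective A.mulVec → IsHom S E A → deg S < 0

/-- the determinant line bundle of `E` is trivial: its stalks are `c O_v` for one `c ∈ K` -/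
def TrivialDet (E : VB K ι) : Prop :=
  ∃ c : K, c ≠ 0 ∧ ∀ v : Place K, v.1 (E.g v).1.det = v.1 c

/-- `H⁰(X, E ⊗ F) ≠ 0`: the stalk of `E ⊗ F` at `v` is the set of the matrices `a Y bᵀ` with `a, b`
the bases of `E_v, F_v` and `Y` regular at `v`; a global section is a matrix `M` over `K` that lies
in all stalks. -/
def HasSection (E : VB K ι) (F : VB K κ) : Prop :=
  ∃ M : Matrix ι κ K, M ≠ 0 ∧ ∀ v, IsInt v (((E.g v)⁻¹).1 * M * (((F.g v)⁻¹).1)ᵀ)

/-- block diagonal invertible matrices -/
def blockGL {t : ℕ} {n : Fin t → ℕ} (M : ∀ i, GL (Fin (n i)) K) : GL (Σ i, Fin (n i)) K where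
  val := Matrix.blockDiagonal' fun i => (M i).1
  inv := Matrix.blockDiagonal' fun i => ((M i)⁻¹).1
  val_inv := by
    rw [← Matrix.blockDiagonal'_mul, ← Matrix.blockDiagonal'_one]
    congr 1
    funext i
    exact Units.mul_inv _
  inv_val := by
    rw [← Matrix.blockDiagonal'_mul, ← Matrix.blockDiagonal'_one]
    congr 1
    funext i
    exact Units.inv_mul _

/-- the direct sum of vector bundles -/
def directSum {t : ℕ} {n : Fin t → ℕ} (E : ∀ i, VB K (Fin (n i))) : VB K (Σ i, Fin (n i)) where
  g v := blockGL fun i => (E i).g v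
  fin := by
    refine (Set.finite_iUnion fun i => (E i).fin).subset ?_
    intro v hv
    rw [Set.mem_iUnion]
    by_contra hcon
    push Not at hcon
    apply hv
    have h : ∀ i, IsInt v ((E i).g v).1 ∧ IsInt v (((E i).g v)⁻¹).1 := by
      intro i
      have := hcon i
      simpa using this
    constructor
    · rintro ⟨i, a⟩ ⟨j, b⟩
      change v.1 (Matrix.blockDiagonal' (fun i => ((E i).g v).1) ⟨i, a⟩ ⟨j, b⟩) ≤ 1
      rcases eq_or_ne i j with rfl | hij
      · rw [Matrix.blockDiagonal'_apply_eq]; exact (h i).1 _ _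
      · rw [Matrix.blockDiagonal'_apply_ne _ _ _ hij]; simp
    · rintro ⟨i, a⟩ ⟨j, b⟩
      change v.1 (Matrix.blockDiagonal' (fun i => (((E i).g v)⁻¹).1) ⟨i, a⟩ ⟨j, b⟩) ≤ 1
      rcases eq_or_ne i j with rfl | hij
      · rw [Matrix.blockDiagonal'_apply_eq]; exact (h i).2 _ _
      · rw [Matrix.blockDiagonal'_apply_ne _ _ _ hij]; simp

/-- `H⁰(X, O(D))` for a divisor `D` -/
def secD (D : Place K →₀ ℤ) : Submodule ℂ K where
  carrier := {f | ∀ v : Place K, v.1 f ≤ exp (D v)}
  add_mem' := fun {a b} ha hb v => (v.1.map_add a b).trans (max_le (ha v) (hb v))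
  zero_mem' := fun v => by simp
  smul_mem' := fun c f hf v => by
    rw [Algebra.smul_def, map_mul]
    rcases eq_or_ne c 0 with rfl | hc
    · simp
    · rw [v.triv c hc, one_mul]; exact hf v

/-- `X` has genus `g` (Riemann): `g` is the maximum of `deg D + 1 - dim H⁰(X, O(D))` over all
divisors `D`. -/
def HasGenus (K : Type) [Field K] [Algebra ℂ K] (g : ℕ) : Prop :=
  (∀ D : Place K →₀ ℤ, (D.sum fun _ n => n) + 1 ≤ Module.finrank ℂ (secD D) + g) ∧
    ∃ D : Place K →₀ ℤ, (D.sum fun _ n => n) + 1 = Module.finrank ℂ (secD D) + g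

end Pool.Agent.Lib.BPT
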