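import Pool.Agent.Lib.BPT.SubQuot

/-!
# Module BPT.DualSt: the dual of a stable bundle of degree zero is stable

`deg E.dual = 0` (`deg_dual`). Let `S` have rank `m`, `0 < m < n`, `A : S → E.dual` injective and
suppose `deg S ≥ 0`. `exists_exact E.dual A` gives `Exact N E.dual Q A B` with `Q` of rank
`n - m`, `deg N ≥ deg S ≥ 0` (`deg_le_of_inj`), so `deg Q ≤ 0` and `deg Q.dual ≥ 0`. `B` is a
homomorphism `E.dual → Q` (`isHom_iff`), so `Bᵀ` is a homomorphism `Q.dual → E.dual.dual`
(`isHom_dual`), and `E.dual.dual` has the same stalks as `E` (in fact `invT (invT g) = g`). `Bᵀ` is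
injective since `B` is surjective. This contradicts the stability of `E` as
`0 < n - m < n`.
-/

namespace Pool.Agent.Lib.BPT

open Matrix WithZero

variable {K : Type} [Field K] [Algebra ℂ K] [CurveFacts K]

theorem stable_dual {n : ℕ} (E : VB K (Fin n)) (h : StableZero E) : StableZero E.dual := by
  refine ⟨by rw [deg_dual, h.1, neg_zero], ?_⟩
  intro m hm0 hmn S A hA hS
  by_contra hdeg
  push Not at hdeg
  rw [Fintype.card_fin] at hmn
  obtain ⟨N, Q, B, hex⟩ := exists_exact (b := n - m) E.dual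
    (by rw [Fintype.card_fin]; omega) A hA
  have h1 : deg S ≤ deg N := deg_le_of_inj hex hS
  have h2 := hex.deg_add
  rw [deg_dual, h.1, neg_zero] at h2
  have hB : IsHom E.dual Q B := isHom_iff.2 hex.hom
  have hBt : IsHom Q.dual E.dual.dual Bᵀ := isHom_dual hB
  have hBt' : IsHom Q.dual E Bᵀ := by
    intro v
    have h3 := hBt v
    have he : E.dual.dual.g v = E.g v := by
      ext i j
      rfl
    rwa [he] at h3
  have hinj : Function.Injective Bᵀ.mulVec := by
    obtain ⟨C, hC⟩ := Matrix.mulVec_surjective_iff_exists_right_inverse.1 hex.surj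
    intro x y hxy
    have h4 : Cᵀ * Bᵀ = 1 := by
      rw [← Matrix.transpose_mul, hC, Matrix.transpose_one]
    have h5 : Cᵀ.mulVec (Bᵀ.mulVec x) = Cᵀ.mulVec (Bᵀ.mulVec y) := congrArg _ hxy
    rwa [Matrix.mulVec_mulVec, Matrix.mulVec_mulVec, h4, Matrix.one_mulVec,
      Matrix.one_mulVec] at h5
  have h6 := h.2 (n - m) (by omega) (by rw [Fintype.card_fin]; omega) Q.dual Bᵀ hinj hBt'
  rw [deg_dual] at h6
  linarith

end Pool.Agent.Lib.BPT
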