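import Pool.Agent.Lib.BPT.Sections
import Pool.Agent.Lib.BPT.BD

/-!
# Module BPT.ExtA: the local form of a bundle with `κ` nowhere dependent sections

Let `s` be as in `exists_sections`. They are linearly independent over `K` (`linInd_of_nowhere` at one place,
`CurveFacts.ne`). So `s` is completed by one vector to a basis: there is an equivalence
`ε : Fin κ ⊕ Fin 1 ≃ Fin (κ + 1)` and `P₁ ∈ GL (Fin (κ + 1)) K` with the column `ε (inl i)` equal to `s i`
(take `ε = finSumFinEquiv`). `P = P₁.submatrix id ε`. Let `E = (F.lmul P₁⁻¹).reindex ε.symm` on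
`Fin κ ⊕ Fin 1`: `Mem E v y ↔ Mem F v (P y)` (`mem_reindex`, `mem_lmul`), `deg E = deg F`
(`deg_lmul`, `deg_reindex`). `bd` gives `N` on `Fin κ` and `Q` on `Fin 1`.
`N_v = O_v ^ κ`: `⊇` since the `s i` are sections; `⊆` by `regular_of_nowhere`. So `deg N = 0`
(`deg_trivB`, `deg_le_of_isHom` with `A = 1` both ways) and `deg Q = deg F`.
`z v := (Q.g v).1 0 0 ≠ 0`: `Mem Q v t ↔ v.val (t 0) ≤ v.val (z v)`. By the last part of `bd` there is
`y_v ∈ K ^ κ` with `(y_v, z v) ∈ E_v`; `q v := y_v / z v`. Then `(s, t) ∈ E_v` iff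
`t ∈ Q_v` and `s - t q v ∈ O_v ^ κ` (as `(t / z v) (y_v, z v) ∈ E_v` for `t ∈ Q_v`).
`q v` is regular for all but finitely many `v`: if `E.g v` and `Q.g v` are `Unimod` then the unit vector `(0, 1)` is in
`E_v`, so `0 - 1 * q v ∈ O_v ^ κ`.
-/

namespace Pool.Agent.Lib.BPT

open Matrix WithZero

variable {K : Type} [Field K] [Algebra ℂ K] [CurveFacts K]

namespace ExtAAux

theorem mem_of_unimod {ι : Type} [Fintype ι] [DecidableEq ι] {E : VB K ι} {v : Place K}
    (h : Unimod v (E.g v)) {x : ι → K} : Mem E v x ↔ ∀ i, v.1 (x i) ≤ 1 := by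
  constructor
  · intro hx
    have e : x = (E.g v).1.mulVec (((E.g v)⁻¹).1.mulVec x) := by
      rw [Matrix.mulVec_mulVec, Units.mul_inv, Matrix.one_mulVec]
    intro i
    rw [e]
    exact h.1.mulVec hx i
  · intro hx i
    exact h.2.mulVec hx i

theorem mem_sum {ι : Type} [Fintype ι] [DecidableEq ι] {E : VB K ι} {v : Place K} {α : Type}
    (s : Finset α) (f : α → ι → K) (h : ∀ a ∈ s, Mem E v (f a)) : Mem E v (∑ a ∈ s, f a) := by
  classical
  induction s using Finset.induction_on with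
  | empty => rw [Finset.sum_empty]; exact Mem.zero E v
  | insert a s ha ih =>
    rw [Finset.sum_insert ha]
    exact (h a (Finset.mem_insert_self _ _)).add (ih fun b hb => h b (Finset.mem_insert_of_mem hb))

theorem mem_line {Q : VB K (Fin 1)} {v : Place K} {x : Fin 1 → K} :
    Mem Q v x ↔ v.1 (x 0) ≤ v.1 ((Q.g v).1 0 0) := by
  have h1 : (Q.g v).1 0 0 * ((Q.g v)⁻¹).1 0 0 = 1 := by
    have h := congrFun (congrFun (Units.mul_inv (Q.g v)) 0) 0
    rw [Matrix.mul_apply, Fin.sum_univ_one, Matrix.one_apply_eq] at h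
    exact h
  have hz : (Q.g v).1 0 0 ≠ 0 := left_ne_zero_of_mul_eq_one h1
  have h2 : ((Q.g v)⁻¹).1 0 0 = ((Q.g v).1 0 0)⁻¹ := eq_inv_of_mul_eq_one_right h1
  have hv : 0 < v.1 ((Q.g v).1 0 0) := zero_lt_iff.2 ((Valuation.ne_zero_iff _).2 hz)
  have h3 : ∀ i : Fin 1, v.1 (((Q.g v)⁻¹).1.mulVec x i) = (v.1 ((Q.g v).1 0 0))⁻¹ * v.1 (x 0) := by
    intro i
    rw [Subsingleton.elim i 0, Matrix.mulVec, dotProduct, Fin.sum_univ_one, h2, map_mul, map_inv₀]
  unfold Mem
  simp only [h3]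
  rw [forall_const, inv_mul_le_iff₀ hv, mul_one]

theorem line_ne {Q : VB K (Fin 1)} {v : Place K} : (Q.g v).1 0 0 ≠ 0 := by
  have h1 : (Q.g v).1 0 0 * ((Q.g v)⁻¹).1 0 0 = 1 := by
    have h := congrFun (congrFun (Units.mul_inv (Q.g v)) 0) 0
    rw [Matrix.mul_apply, Fin.sum_univ_one, Matrix.one_apply_eq] at h
    exact h
  exact left_ne_zero_of_mul_eq_one h1

/-- the local form in adapted coordinates -/
theorem form {κ : ℕ} (E : VB K (Fin κ ⊕ Fin 1))
    (hE : ∀ v (x : Fin κ → K), Mem E v (Sum.elim x 0) ↔ ∀ i, v.1 (x i) ≤ 1) :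
    ∃ (Q : VB K (Fin 1)) (q : Place K → Fin κ → K), deg Q = deg E ∧
      {v : Place K | ¬ ∀ i, v.1 (q v i) ≤ 1}.Finite ∧
      ∀ (v : Place K) (y : Fin κ ⊕ Fin 1 → K), Mem E v y ↔
        (Mem Q v (fun _ => y (Sum.inr 0)) ∧
          ∀ i, v.1 (y (Sum.inl i) - y (Sum.inr 0) * q v i) ≤ 1) := by
  obtain ⟨N, Q, hdeg, hN, hQ, hlift⟩ := bd E
  have hz : ∀ v, (Q.g v).1 0 0 ≠ 0 := fun v => line_ne
  have hl : ∀ v, ∃ y, Mem E v (Sum.elim y fun _ => (Q.g v).1 0 0) := fun v =>
    hlift v (fun _ => (Q.g v).1 0 0) (mem_line.2 le_rfl)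
  choose Y hY using hl
  have key : ∀ (v : Place K) (y : Fin κ ⊕ Fin 1 → K), Mem E v y ↔
        (Mem Q v (fun _ => y (Sum.inr 0)) ∧
          ∀ i, v.1 (y (Sum.inl i) - y (Sum.inr 0) * (Y v i / (Q.g v).1 0 0)) ≤ 1) := by
    intro v y
    set z := (Q.g v).1 0 0 with hzdef
    set t := y (Sum.inr 0) with ht
    have hdiff : y - (t / z) • (Sum.elim (Y v) (fun _ => z) : Fin κ ⊕ Fin 1 → K) =
        Sum.elim (fun i => y (Sum.inl i) - t * (Y v i / z)) 0 := by
      funext j
      rcases j with i | i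
      · rw [Pi.sub_apply, Pi.smul_apply, Sum.elim_inl, Sum.elim_inl, smul_eq_mul]
        ring
      · rw [Pi.sub_apply, Pi.smul_apply, Sum.elim_inr, Sum.elim_inr, smul_eq_mul,
          div_mul_cancel₀ _ (hz v), Subsingleton.elim i 0, ht, sub_self]
        rfl
    have hc : Mem Q v (fun _ => t) →
        Mem E v ((t / z) • (Sum.elim (Y v) (fun _ => z) : Fin κ ⊕ Fin 1 → K)) := by
      intro h
      refine Mem.smul ?_ (hY v)
      rw [map_div₀]
      exact div_le_one_of_le₀ (mem_line.1 h) zero_le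
    constructor
    · intro hy
      have h1 : Mem Q v (fun _ => t) := by
        have h := hQ v y hy
        have e : y ∘ Sum.inr = fun _ : Fin 1 => t := by
          funext i
          rw [Subsingleton.elim i 0]
          rfl
        rwa [e] at h
      refine ⟨h1, ?_⟩
      have h2 := hy.sub (hc h1)
      rw [hdiff, hE] at h2
      exact h2
    · rintro ⟨h1, h2⟩
      have h3 : Mem E v (Sum.elim (fun i => y (Sum.inl i) - t * (Y v i / z)) 0) := (hE v _).2 h2
      rw [← hdiff] at h3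
      have h4 := h3.add (hc h1)
      rwa [sub_add_cancel] at h4
  refine ⟨Q, fun v i => Y v i / (Q.g v).1 0 0, ?_, ?_, key⟩
  · have hN' : ∀ v (x : Fin κ → K), Mem N v x ↔ Mem (trivB K (Fin κ)) v x := by
      intro v x
      rw [hN, hE, mem_trivB]
    have h1 : deg N ≤ deg (trivB K (Fin κ)) := by
      refine deg_le_of_isHom (A := 1) ?_ (by rw [Matrix.det_one]; exact one_ne_zero)
      rw [isHom_iff]
      intro v x hx
      rw [Matrix.one_mulVec]
      exact (hN' v x).1 hx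
    have h2 : deg (trivB K (Fin κ)) ≤ deg N := by
      refine deg_le_of_isHom (A := 1) ?_ (by rw [Matrix.det_one]; exact one_ne_zero)
      rw [isHom_iff]
      intro v x hx
      rw [Matrix.one_mulVec]
      exact (hN' v x).2 hx
    rw [deg_trivB] at h1 h2
    linarith
  · refine E.finU.subset ?_
    intro v hv hu
    apply hv
    intro i
    have h1 : Mem E v (Sum.elim (0 : Fin κ → K) 1) := by
      rw [mem_of_unimod hu]
      rintro (i | i)
      · rw [Sum.elim_inl, Pi.zero_apply, map_zero]; exact zero_le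
      · rw [Sum.elim_inr, Pi.one_apply, map_one]
    have h2 := ((key v _).1 h1).2 i
    rw [Sum.elim_inl, Sum.elim_inr, Pi.zero_apply, Pi.one_apply, one_mul, zero_sub,
      Valuation.map_neg] at h2
    exact h2

end ExtAAux

open ExtAAux in
theorem local_form {κ : ℕ} (F : VB K (Fin (κ + 1)))
    (hF : ∀ v, NS (F.twist (Finsupp.single v (-1)))) :
    ∃ (P : Matrix (Fin (κ + 1)) (Fin κ ⊕ Fin 1) K) (Q : VB K (Fin 1)) (q : Place K → Fin κ → K),
      Function.Injective P.mulVec ∧ deg Q = deg F ∧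
      {v : Place K | ¬ ∀ i, v.1 (q v i) ≤ 1}.Finite ∧
      ∀ (v : Place K) (y : Fin κ ⊕ Fin 1 → K), Mem F v (P.mulVec y) ↔
        (Mem Q v (fun _ => y (Sum.inr 0)) ∧
          ∀ i, v.1 (y (Sum.inl i) - y (Sum.inr 0) * q v i) ≤ 1) := by
  obtain ⟨s, hs, hnd⟩ := exists_sections F hF
  obtain ⟨v₀⟩ := CurveFacts.ne (K := K)
  have hsK : LinearIndependent K s := linInd_of_nowhere F v₀ s (fun i => hs i v₀) (hnd v₀)
  obtain ⟨i₀, hi₀⟩ := SectionsAux.exists_notMem (Pi.basisFun K (Fin (κ + 1))).linearIndependent s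
    (Nat.lt_succ_self κ)
  set t : Fin (κ + 1) → K := Pi.basisFun K (Fin (κ + 1)) i₀ with ht
  have hst : LinearIndependent K (Fin.snoc s t : Fin (κ + 1) → Fin (κ + 1) → K) :=
    linearIndependent_finSnoc.2 ⟨hsK, hi₀⟩
  let M : Matrix (Fin (κ + 1)) (Fin (κ + 1)) K :=
    Matrix.of fun j i => (Fin.snoc s t : Fin (κ + 1) → Fin (κ + 1) → K) i j
  have hM : IsUnit M := Matrix.linearIndependent_cols_iff_isUnit.1 hst
  obtain ⟨U, hU⟩ := hM
  let ε : Fin κ ⊕ Fin 1 ≃ Fin (κ + 1) := finSumFinEquiv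
  have hP : ∀ y : Fin κ ⊕ Fin 1 → K, (M.submatrix id ε).mulVec y = M.mulVec (y ∘ ε.symm) := by
    intro y
    rw [Matrix.submatrix_mulVec_equiv]
    rfl
  have hcol : ∀ x : Fin κ → K, (M.submatrix id ε).mulVec (Sum.elim x 0) = ∑ i, x i • s i := by
    intro x
    funext j
    rw [Matrix.mulVec, dotProduct, Fintype.sum_sum_type, Finset.sum_apply]
    have h0 : ∀ i : Fin 1, M.submatrix id ε j (Sum.inr i) *
        (Sum.elim x (0 : Fin 1 → K) : Fin κ ⊕ Fin 1 → K) (Sum.inr i) = 0 := fun i => by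
      rw [Sum.elim_inr, Pi.zero_apply, mul_zero]
    rw [Finset.sum_congr rfl fun i _ => h0 i, Finset.sum_const_zero, add_zero]
    refine Finset.sum_congr rfl fun i _ => ?_
    rw [Sum.elim_inl, Pi.smul_apply, smul_eq_mul, mul_comm]
    congr 1
    change (Fin.snoc s t : Fin (κ + 1) → Fin (κ + 1) → K) (Fin.castSucc i) j = _
    rw [Fin.snoc_castSucc]
  have hmem : ∀ v (y : Fin κ ⊕ Fin 1 → K), Mem ((F.lmul U⁻¹).reindex ε.symm) v y ↔
      Mem F v ((M.submatrix id ε).mulVec y) := by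
    intro v y
    rw [mem_reindex, mem_lmul, inv_inv, hU, hP]
  obtain ⟨Q, q, h1, h2, h3⟩ := form ((F.lmul U⁻¹).reindex ε.symm) (by
    intro v x
    rw [hmem, hcol]
    constructor
    · exact fun h => regular_of_nowhere F v s (fun i => hs i v) (hnd v) x h
    · exact fun h => mem_sum _ _ fun i _ => (hs i v).smul (h i))
  refine ⟨M.submatrix id ε, Q, q, ?_, ?_, h2, ?_⟩
  · intro y y' h
    rw [hP, hP, ← hU] at h
    have h4 := congrArg (fun w => ((U⁻¹ : GL (Fin (κ + 1)) K)).1.mulVec w) h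
    simp only [Matrix.mulVec_mulVec, Units.inv_mul, Matrix.one_mulVec] at h4
    funext j
    have h5 := congrFun h4 (ε j)
    simpa using h5
  · rw [h1, deg_reindex, deg_lmul]
  · intro v y
    rw [← hmem]
    exact h3 v y

end Pool.Agent.Lib.BPT
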