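import Pool.Agent.Lib.BPT.Objects

/-!
# Module BPT.MemExt: the stalks and the degree of `extB`, degree of `bigG`

`mem_extB_ne`: the stalk at `v ≠ w` is standard. `mem_extB_self`: `(s, t) = g (a, β)` with
`s = π ^ m a + π ^ (-b) Y β`, `t = π ^ (-b) β`, so `(s, t)` is in the stalk iff `t ∈ π ^ (-b) O ^ β` and
`s - Y t ∈ π ^ m O ^ α`. `deg_extB`: determinant of a block triangular matrix.
`deg_bigG_pos`: `deg = b (M + 1) ^ (κ Λ) - κ m (M + 2) ^ (κ Λ)`; it is positive for large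
`M` as `b > κ m` and `((M + 2) / (M + 1)) ^ N → 1`.
-/

namespace Pool.Agent.Lib.BPT

open Matrix WithZero

variable {K : Type} [Field K] [Algebra ℂ K]

namespace MemExtAux

variable {α β : Type} [Fintype α] [DecidableEq α] [Fintype β] [DecidableEq β]

theorem g_ne {w v : Place K} (hv : v ≠ w) (m b : ℕ) (Y : Matrix α β K) :
    (extB w m b Y).g v = 1 := if_neg hv

theorem g_self (w : Place K) (m b : ℕ) (Y : Matrix α β K) :
    (extB w m b Y).g w = triGL (unif w ^ (m : ℤ)) (unif w ^ (-(b : ℤ)))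
      (zpow_ne_zero _ (unif_ne_zero w)) (zpow_ne_zero _ (unif_ne_zero w))
      ((unif w ^ (-(b : ℤ))) • Y) := if_pos rfl

theorem inv_val (a c : K) (ha : a ≠ 0) (hc : c ≠ 0) (Y : Matrix α β K) :
    ((triGL a c ha hc Y)⁻¹).1 =
      Matrix.fromBlocks (a⁻¹ • 1) (-((a⁻¹ * c⁻¹) • Y)) 0 (c⁻¹ • 1) := rfl

theorem inv_inl (w : Place K) (m b : ℕ) (Y : Matrix α β K) (x : α ⊕ β → K) (i : α) :
    (((extB w m b Y).g w)⁻¹).1.mulVec x (Sum.inl i) =
      unif w ^ (-(m : ℤ)) * (x (Sum.inl i) - Y.mulVec (x ∘ Sum.inr) i) := by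
  have h0 : unif w ≠ 0 := unif_ne_zero w
  rw [g_self, inv_val, Matrix.fromBlocks_mulVec, Sum.elim_inl, Pi.add_apply, Matrix.smul_mulVec,
    Matrix.one_mulVec, Matrix.neg_mulVec, Matrix.smul_mulVec, Matrix.smul_mulVec, Pi.neg_apply,
    Pi.smul_apply, Pi.smul_apply, Pi.smul_apply, smul_eq_mul, smul_eq_mul, smul_eq_mul,
    Function.comp_apply, ← _root_.zpow_neg, ← _root_.zpow_neg, neg_neg, mul_assoc,
    ← mul_assoc (unif w ^ (b : ℤ)), ← zpow_add₀ h0, add_neg_cancel, zpow_zero, one_mul]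
  ring

theorem inv_inr (w : Place K) (m b : ℕ) (Y : Matrix α β K) (x : α ⊕ β → K) (j : β) :
    (((extB w m b Y).g w)⁻¹).1.mulVec x (Sum.inr j) = unif w ^ (b : ℤ) * x (Sum.inr j) := by
  rw [g_self, inv_val, Matrix.fromBlocks_mulVec, Sum.elim_inr, Pi.add_apply, Matrix.smul_mulVec,
    Matrix.one_mulVec, Matrix.zero_mulVec, Pi.zero_apply, zero_add, Pi.smul_apply, smul_eq_mul,
    Function.comp_apply, ← _root_.zpow_neg, neg_neg]

theorem exp_mul_le (n : ℤ) (γ : ℤᵐ⁰) : exp n * γ ≤ 1 ↔ γ ≤ exp (-n) := by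
  have h : exp n = (exp (-n) : ℤᵐ⁰)⁻¹ := by
    rw [← WithZero.exp_neg, neg_neg]
  rw [h, inv_mul_le_iff₀ exp_pos, mul_one]

theorem det_g (w : Place K) (m b : ℕ) (Y : Matrix α β K) :
    ((extB w m b Y).g w).1.det =
      (unif w ^ (m : ℤ)) ^ Fintype.card α * (unif w ^ (-(b : ℤ))) ^ Fintype.card β := by
  rw [g_self]
  change (Matrix.fromBlocks _ _ 0 _).det = _
  rw [Matrix.det_fromBlocks_zero₂₁, Matrix.det_smul, Matrix.det_smul, Matrix.det_one,
    Matrix.det_one, mul_one, mul_one]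

theorem pow_est (N c b : ℕ) (h : c < b) : (c : ℤ) * ((b * N : ℕ) + 2 : ℤ) ^ N ≤
    (b : ℤ) * ((b * N : ℕ) + 1 : ℤ) ^ N := by
  have hX : (0 : ℝ) < ((b * N : ℕ) : ℝ) + 2 := by positivity
  have h1 : (1 : ℝ) + N * (-(1 / (((b * N : ℕ) : ℝ) + 2))) ≤
      (1 + -(1 / (((b * N : ℕ) : ℝ) + 2))) ^ N := by
    refine one_add_mul_le_pow ?_ N
    have : 1 / (((b * N : ℕ) : ℝ) + 2) ≤ 1 := by
      rw [div_le_one hX]
      have : (0 : ℝ) ≤ ((b * N : ℕ) : ℝ) := Nat.cast_nonneg _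
      linarith
    linarith
  have h2 : (((b * N : ℕ) : ℝ) + 1) =
      (((b * N : ℕ) : ℝ) + 2) * (1 + -(1 / (((b * N : ℕ) : ℝ) + 2))) := by
    field_simp
    ring
  have hb : (c : ℝ) + 1 ≤ b := by exact_mod_cast h
  have hb0 : (0 : ℝ) ≤ b := Nat.cast_nonneg _
  have h3 : (c : ℝ) ≤ b * (1 + N * (-(1 / (((b * N : ℕ) : ℝ) + 2)))) := by
    have h4 : (b : ℝ) * (N * (1 / (((b * N : ℕ) : ℝ) + 2))) ≤ 1 := by
      rw [← mul_assoc, mul_one_div, div_le_one hX]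
      push_cast
      linarith
    have h5 : (b : ℝ) * (1 + N * (-(1 / (((b * N : ℕ) : ℝ) + 2)))) =
        b - b * (N * (1 / (((b * N : ℕ) : ℝ) + 2))) := by ring
    rw [h5]
    linarith
  have h6 : (c : ℝ) * (((b * N : ℕ) : ℝ) + 2) ^ N ≤ b * (((b * N : ℕ) : ℝ) + 1) ^ N := by
    rw [h2, mul_pow]
    have h7 : (0 : ℝ) ≤ (((b * N : ℕ) : ℝ) + 2) ^ N := by positivity
    calc (c : ℝ) * (((b * N : ℕ) : ℝ) + 2) ^ N
        ≤ (b * (1 + N * (-(1 / (((b * N : ℕ) : ℝ) + 2))))) * (((b * N : ℕ) : ℝ) + 2) ^ N :=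
          mul_le_mul_of_nonneg_right h3 h7
      _ ≤ (b * (1 + -(1 / (((b * N : ℕ) : ℝ) + 2))) ^ N) * (((b * N : ℕ) : ℝ) + 2) ^ N :=
          mul_le_mul_of_nonneg_right (mul_le_mul_of_nonneg_left h1 hb0) h7
      _ = _ := by ring
  exact_mod_cast h6

end MemExtAux

open MemExtAux

section

variable {α β : Type} [Fintype α] [DecidableEq α] [Fintype β] [DecidableEq β]

theorem mem_extB_ne {w v : Place K} (hv : v ≠ w) {m b : ℕ} {Y : Matrix α β K} {x : α ⊕ β → K} :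
    Mem (extB w m b Y) v x ↔ ∀ i, v.1 (x i) ≤ 1 := by
  unfold Mem
  rw [g_ne hv, inv_one, Units.val_one, Matrix.one_mulVec]

theorem mem_extB_self {w : Place K} {m b : ℕ} {Y : Matrix α β K} {x : α ⊕ β → K} :
    Mem (extB w m b Y) w x ↔ (∀ j, w.1 (x (Sum.inr j)) ≤ exp (b : ℤ)) ∧
      ∀ i, w.1 (x (Sum.inl i) - Y.mulVec (x ∘ Sum.inr) i) ≤ exp (-(m : ℤ)) := by
  unfold Mem
  rw [Sum.forall, and_comm]
  refine and_congr (forall_congr' fun j => ?_) (forall_congr' fun i => ?_)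
  · rw [inv_inr, map_mul, val_unif_zpow, exp_mul_le, neg_neg]
  · rw [inv_inl, map_mul, val_unif_zpow, neg_neg, exp_mul_le]

theorem deg_extB (w : Place K) (m b : ℕ) (Y : Matrix α β K) :
    deg (extB w m b Y) = Fintype.card β * (b : ℤ) - Fintype.card α * (m : ℤ) := by
  unfold deg
  rw [finsum_eq_single _ w fun v hv => by rw [g_ne hv, Units.val_one, Matrix.det_one, ord_one],
    det_g, ord_mul w (pow_ne_zero _ (zpow_ne_zero _ (unif_ne_zero w)))
      (pow_ne_zero _ (zpow_ne_zero _ (unif_ne_zero w))),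
    ord_pow w (zpow_ne_zero _ (unif_ne_zero w)), ord_pow w (zpow_ne_zero _ (unif_ne_zero w)),
    ord_unif_zpow, ord_unif_zpow]
  ring

end

theorem deg_bigG_pos (k Λ : ℕ) (w : Place K) (m b L : ℕ) (h : k * m < b) :
    ∃ M, 0 ≤ deg (bigG k Λ w m b L M) := by
  refine ⟨b * (k * Λ), ?_⟩
  unfold bigG
  rw [deg_extB]
  have h1 := pow_est (k * Λ) (k * m) b h
  have h2 : Fintype.card (Fin k × Fin Λ → Fin (b * (k * Λ) + 1)) =
      (b * (k * Λ) + 1) ^ (k * Λ) := by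
    rw [Fintype.card_fun, Fintype.card_fin, Fintype.card_prod, Fintype.card_fin, Fintype.card_fin]
  have h3 : Fintype.card (Fin k × (Fin k × Fin Λ → Fin (b * (k * Λ) + 2))) =
      k * (b * (k * Λ) + 2) ^ (k * Λ) := by
    rw [Fintype.card_prod, Fintype.card_fun, Fintype.card_fin, Fintype.card_fin,
      Fintype.card_prod, Fintype.card_fin, Fintype.card_fin]
  rw [h2, h3]
  push_cast at h1 ⊢
  nlinarith [h1]

end Pool.Agent.Lib.BPT
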