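import Pool.Agent.Lib.BPT.Basic

/-!
# Module BPT.Trunc: truncated expansions

`v.val x ≤ exp L` means that the pole order is at most `L`; by induction on `Λ` there are
`c : Fin Λ → ℂ` with `v.val (x - ∑_{l < Λ} c_l π ^ (l - L)) ≤ exp (L - Λ)`
(step: `y = (x - ∑ ...) π ^ (L - Λ)` is regular at `v`; apply `CurveFacts.res` to `y`).
-/

namespace Pool.Agent.Lib.BPT

open Matrix WithZero

variable {K : Type} [Field K] [Algebra ℂ K] [CurveFacts K]

private theorem trunc_lt_one {γ : ℤᵐ⁰} (h : γ < 1) : γ ≤ exp (-1 : ℤ) := by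
  rcases eq_or_ne γ 0 with rfl | hγ
  · exact zero_le
  · rw [← exp_log hγ] at h ⊢
    rw [← exp_zero, exp_lt_exp] at h
    rw [exp_le_exp]
    omega

theorem exists_trunc (v : Place K) (L : ℕ) (x : K) (hx : v.1 x ≤ exp (L : ℤ)) (Λ : ℕ) :
    ∃ c : Fin Λ → ℂ, v.1 (x - ∑ l : Fin Λ, algebraMap ℂ K (c l) * unif v ^ ((l : ℤ) - L)) ≤
      exp ((L : ℤ) - Λ) := by
  induction Λ with
  | zero =>
    refine ⟨fun _ => 0, ?_⟩
    simpa using hx
  | succ Λ ih =>
    obtain ⟨c, hc⟩ := ih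
    set r : K := x - ∑ l : Fin Λ, algebraMap ℂ K (c l) * unif v ^ ((l : ℤ) - L) with hr
    have hy : v.1 (r * unif v ^ ((L : ℤ) - Λ)) ≤ 1 := by
      rw [map_mul, val_unif_zpow]
      calc v.1 r * exp (-((L : ℤ) - Λ)) ≤ exp ((L : ℤ) - Λ) * exp (-((L : ℤ) - Λ)) :=
            mul_le_mul_left hc _
        _ = 1 := by rw [← exp_add, add_neg_cancel, exp_zero]
    obtain ⟨a, ha⟩ := CurveFacts.res v _ hy
    have ha' := trunc_lt_one ha
    refine ⟨Fin.snoc c a, ?_⟩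
    rw [Fin.sum_univ_castSucc]
    simp only [Fin.snoc_castSucc, Fin.snoc_last, Fin.val_castSucc, Fin.val_last]
    have h1 : x - (∑ l : Fin Λ, algebraMap ℂ K (c l) * unif v ^ ((l : ℤ) - L) +
        algebraMap ℂ K a * unif v ^ ((Λ : ℤ) - L)) =
        (r * unif v ^ ((L : ℤ) - Λ) - algebraMap ℂ K a) * unif v ^ ((Λ : ℤ) - L) := by
      have h2 : unif v ^ ((L : ℤ) - Λ) * unif v ^ ((Λ : ℤ) - L) = 1 := by
        rw [← zpow_add₀ (unif_ne_zero v)]
        have : (L : ℤ) - Λ + (Λ - L) = 0 := by ring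
        rw [this, zpow_zero]
      rw [sub_mul, mul_assoc, h2, mul_one, hr]
      ring
    rw [h1, map_mul, val_unif_zpow]
    calc v.1 (r * unif v ^ ((L : ℤ) - Λ) - algebraMap ℂ K a) * exp (-((Λ : ℤ) - L))
        ≤ exp (-1 : ℤ) * exp (-((Λ : ℤ) - L)) := mul_le_mul_left ha' _
      _ = exp ((L : ℤ) - ((Λ + 1 : ℕ) : ℤ)) := by
        rw [← exp_add]
        congr 1
        push_cast
        ring

end Pool.Agent.Lib.BPT
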