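import Pool.Agent.Lib.BPT.ExtA
import Pool.Agent.Lib.BPT.MemExt
import Pool.Agent.Lib.BPT.Trunc
import Pool.Agent.Lib.BPT.RRLow
import Pool.Agent.Lib.BPT.NSLine

/-!
# Module BPT.ExtB: a normal form in every bundle `F` with `H¹(F(m w)(-v)) = 0`

Let `F' = F.twist (m w)`, `local_form F'`: `P₀`, `Q`, `q`. So (`mem_twist`)
`P₀ y ∈ F_v ↔ P₀ (π_w ^ (-m) y) ∈ F'_w` at `v = w`, i.e.: `P₀ (s, t) ∈ F_v` iff
`t ∈ Q_v`, `s - t q_v ∈ O_v ^ κ` (`v ≠ w`), and `t ∈ π ^ m Q_w`, `s - t q_w ∈ π ^ m O_w ^ κ` (`v = w`).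
`deg Q = deg F' = d + g + (κ + 1) m`. With `b = κ m + d` the line bundle `Q' = Q.twist ((-m - b) w)` has
degree `g > g - 1`, so by `minkowski` there is `f ≠ 0` in `Q'_v` for all `v`: `f ∈ Q_v` for
`v ≠ w`, `f π ^ (-b) ∈ π ^ m Q_w`.
`NS (O(L w))` applied to each coordinate `i` of `f q_v` (replaced by `0` at the `v` where it is regular; `f` has
finitely many poles, `q` is regular almost everywhere) gives `h : Fin κ → K` with
`h_i - f q_{v,i} ∈ O_v` for `v ≠ w` and `w.val (h_i - f q_{w,i}) ≤ exp L`. `exists_trunc` for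
`f q_{w,i} - h_i` with `Λ = L + m + b`: `u_{i,·}` with
`w.val (f q_{w,i} - h_i - p_i(u)) ≤ exp (-(m + b))`.
`P = P₀ [[I, h], [0, f]]`, i.e. `P (s, t) = P₀ (s + t h, f t)`: injective. `IsHom`
(`isHom_iff`, `mem_extB_ne`, `mem_extB_self`):
`v ≠ w`: `s, t` regular: `f t ∈ Q_v` and `s + t h - f t q_v = s + t (h - f q_v)` is regular.
`v = w`: `t ∈ π ^ (-b) O`, `s - p(u) t ∈ π ^ m O`: `f t ∈ π ^ m Q_w`, and
`s + t h - f t q_w = (s - p(u) t) + t (p(u) + h - f q_w) ∈ π ^ m O` as `t ∈ π ^ (-b) O`.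
-/

namespace Pool.Agent.Lib.BPT

open Matrix WithZero

variable {K : Type} [Field K] [Algebra ℂ K] [CurveFacts K]

namespace ExtBAux

variable {K : Type} [Field K] [Algebra ℂ K]

/-- the matrix `[[1, h], [0, f]]` -/
def bm {κ : ℕ} (h : Fin κ → K) (f : K) : Matrix (Fin κ ⊕ Fin 1) (Fin κ ⊕ Fin 1) K :=
  Matrix.fromBlocks 1 (Matrix.of fun i _ => h i) 0 (f • 1)

theorem bm_inl {κ : ℕ} (h : Fin κ → K) (f : K) (x : Fin κ ⊕ Fin 1 → K) (i : Fin κ) :
    (bm h f).mulVec x (Sum.inl i) = x (Sum.inl i) + h i * x (Sum.inr 0) := by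
  unfold bm
  rw [Matrix.fromBlocks_mulVec]
  simp [Matrix.mulVec, dotProduct]

theorem bm_inr {κ : ℕ} (h : Fin κ → K) (f : K) (x : Fin κ ⊕ Fin 1 → K) (j : Fin 1) :
    (bm h f).mulVec x (Sum.inr j) = f * x (Sum.inr 0) := by
  unfold bm
  rw [Matrix.fromBlocks_mulVec]
  have : j = 0 := Subsingleton.elim _ _
  subst this
  simp [Matrix.smul_mulVec]

theorem bm_inj {κ : ℕ} (h : Fin κ → K) {f : K} (hf : f ≠ 0) :
    Function.Injective (bm h f).mulVec := by
  intro x y hxy
  have h1 : x (Sum.inr 0) = y (Sum.inr 0) := by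
    have := congrFun hxy (Sum.inr 0)
    rw [bm_inr, bm_inr] at this
    exact mul_left_cancel₀ hf this
  funext i
  rcases i with i | j
  · have := congrFun hxy (Sum.inl i)
    rw [bm_inl, bm_inl, h1] at this
    exact add_right_cancel this
  · have : j = 0 := Subsingleton.elim _ _
    subst this
    exact h1

theorem mem_twist_single {ι : Type} [Fintype ι] [DecidableEq ι] {w v : Place K} {n : ℤ}
    {E : VB K ι} {x : ι → K} (hv : v ≠ w) :
    Mem (E.twist (Finsupp.single w n)) v x ↔ Mem E v x := by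
  rw [mem_twist]
  have : (Finsupp.single w n : Place K →₀ ℤ) v = 0 := Finsupp.single_eq_of_ne hv
  rw [this, zpow_zero, one_smul]

theorem mem_twist_single_self {ι : Type} [Fintype ι] [DecidableEq ι] {w : Place K} {n : ℤ}
    {E : VB K ι} {x : ι → K} :
    Mem (E.twist (Finsupp.single w n)) w x ↔ Mem E w (unif w ^ n • x) := by
  rw [mem_twist]
  have : (Finsupp.single w n : Place K →₀ ℤ) w = n := Finsupp.single_eq_same
  rw [this]

end ExtBAux

open ExtBAux

theorem exists_nf {g : ℕ} (hg : HasGenus K g) {κ : ℕ} (d m L : ℕ) (w : Place K)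
    (hL : NS (lineB (Finsupp.single w (L : ℤ)))) (F : VB K (Fin (κ + 1)))
    (hF : deg F = d + g)
    (hNS : ∀ v, NS ((F.twist (Finsupp.single w (m : ℤ))).twist (Finsupp.single v (-1)))) :
    ∃ (u : Fin κ × Fin (L + m + (κ * m + d)) → ℂ) (P : Matrix (Fin (κ + 1)) (Fin κ ⊕ Fin 1) K),
      Function.Injective P.mulVec ∧ IsHom (nf w m (κ * m + d) L u) F P := by
  classical
  obtain ⟨P₀, Q, q, hP₀, hdQ, hfin, hmem⟩ := local_form (F.twist (Finsupp.single w (m : ℤ))) hNS
  set b : ℕ := κ * m + d with hb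
  -- the function `f`
  obtain ⟨f0, hf0, hf0m⟩ := minkowski hg (Q.twist (Finsupp.single w (-(m : ℤ) - b))) (by
    rw [deg_twist, hdQ, deg_twist, hF, dg_single, dg_single, Fintype.card_fin, Fintype.card_fin, hb]
    push_cast
    linarith)
  set f : K := f0 0 with hfdef
  have hf : f ≠ 0 := by
    intro h
    apply hf0
    funext i
    have : i = 0 := Subsingleton.elim _ _
    subst this
    exact h
  have hf0eq : f0 = fun _ => f := by
    funext i
    have : i = 0 := Subsingleton.elim _ _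
    subst this
    rfl
  have hQne : ∀ v, v ≠ w → Mem Q v f0 := fun v hv => (mem_twist_single hv).1 (hf0m v)
  have hQw : Mem Q w (unif w ^ (-(m : ℤ) - b) • f0) := mem_twist_single_self.1 (hf0m w)
  -- the functions `h i`
  have hex : ∀ i : Fin κ, ∃ h : K, (∀ v, v ≠ w → v.1 (h - f * q v i) ≤ 1) ∧
      w.1 (h - f * q w i) ≤ exp (L : ℤ) := by
    intro i
    obtain ⟨h, hh⟩ := hL (fun v => if v.1 (f * q v i) ≤ 1 then 0 else fun _ => f * q v i) (by
      refine ((fin_not_le f).union hfin).subset ?_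
      intro v hv
      by_contra hcon
      apply hv
      change (if v.1 (f * q v i) ≤ 1 then (0 : Fin 1 → K) else fun _ => f * q v i) = 0
      rw [if_pos]
      rw [map_mul]
      refine mul_le_one' ?_ ?_
      · by_contra h; exact hcon (Or.inl h)
      · by_contra h; exact hcon (Or.inr fun h' => h (h' i)))
    have key : ∀ v, ∀ γ : ℤᵐ⁰, 1 ≤ γ →
        Mem (lineB (Finsupp.single w (L : ℤ))) v
          (h - (if v.1 (f * q v i) ≤ 1 then 0 else fun _ => f * q v i)) →
        exp ((Finsupp.single w (L : ℤ) : Place K →₀ ℤ) v) ≤ γ → v.1 (h 0 - f * q v i) ≤ γ := by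
      intro v γ hγ h1 h2
      have h3 := (mem_lineB.1 h1).trans h2
      by_cases hc : v.1 (f * q v i) ≤ 1
      · rw [if_pos hc] at h3
        have h4 : v.1 (h 0) ≤ γ := by simpa using h3
        exact (v.1.map_sub _ _).trans (max_le h4 (hc.trans hγ))
      · rw [if_neg hc] at h3
        exact h3
    refine ⟨h 0, fun v hv => key v 1 le_rfl (hh v) ?_, key w _ ?_ (hh w) ?_⟩
    · rw [Finsupp.single_eq_of_ne hv, exp_zero]
    · rw [← exp_zero, exp_le_exp]
      positivity
    · rw [Finsupp.single_eq_same]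
  choose h hne hw using hex
  -- the truncations
  have htr : ∀ i : Fin κ, ∃ c : Fin (L + m + b) → ℂ,
      w.1 (f * q w i - h i - ∑ l : Fin (L + m + b),
        algebraMap ℂ K (c l) * unif w ^ ((l : ℤ) - L)) ≤ exp (-((m : ℤ) + b)) := by
    intro i
    have h1 : w.1 (f * q w i - h i) ≤ exp (L : ℤ) := by
      rw [← Valuation.map_neg, neg_sub]
      exact hw i
    obtain ⟨c, hc⟩ := exists_trunc w L _ h1 (L + m + b)
    refine ⟨c, hc.trans ?_⟩
    rw [exp_le_exp]
    push_cast
    linarith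
  choose c hc using htr
  refine ⟨fun x => c x.1 x.2, P₀ * bm h f, ?_, ?_⟩
  · have : (P₀ * bm h f).mulVec = P₀.mulVec ∘ (bm h f).mulVec := by
      funext x
      rw [Function.comp_apply, Matrix.mulVec_mulVec]
    rw [this]
    exact hP₀.comp (bm_inj h hf)
  · rw [isHom_iff]
    intro v x hx
    rw [← Matrix.mulVec_mulVec]
    unfold nf at hx
    by_cases hv : v = w
    · subst hv
      rw [mem_extB_self] at hx
      obtain ⟨hx1, hx2⟩ := hx
      have hx1' := hx1 0
      -- transfer to the twist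
      have h1 : Mem F v (P₀.mulVec ((bm h f).mulVec x)) ↔
          Mem (F.twist (Finsupp.single v (m : ℤ))) v
            (P₀.mulVec (unif v ^ (-(m : ℤ)) • (bm h f).mulVec x)) := by
        rw [mem_twist_single_self, Matrix.mulVec_smul, smul_smul,
          ← zpow_add₀ (unif_ne_zero v), add_neg_cancel, zpow_zero, one_smul]
      rw [h1, hmem]
      constructor
      · have h2 : (fun _ : Fin 1 => (unif v ^ (-(m : ℤ)) • (bm h f).mulVec x) (Sum.inr 0)) =
            (unif v ^ (b : ℤ) * x (Sum.inr 0)) • (unif v ^ (-(m : ℤ) - b) • f0) := by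
          funext j
          rw [Pi.smul_apply, bm_inr, Pi.smul_apply, Pi.smul_apply, hf0eq, smul_eq_mul, smul_eq_mul,
            smul_eq_mul]
          have h3 : unif v ^ (-(m : ℤ)) = unif v ^ (b : ℤ) * unif v ^ (-(m : ℤ) - b) := by
            rw [← zpow_add₀ (unif_ne_zero v)]
            congr 1
            ring
          rw [h3]
          ring
        rw [h2]
        refine Mem.smul ?_ hQw
        rw [map_mul, val_unif_zpow]
        calc exp (-(b : ℤ)) * v.1 (x (Sum.inr 0)) ≤ exp (-(b : ℤ)) * exp (b : ℤ) :=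
              mul_le_mul_right hx1' _
          _ = 1 := by rw [← exp_add, neg_add_cancel, exp_zero]
      · intro i
        have hx2' := hx2 i
        have hp : (pcol v L fun x : Fin κ × Fin (L + m + b) => c x.1 x.2).mulVec (x ∘ Sum.inr) i =
            (∑ l : Fin (L + m + b), algebraMap ℂ K (c i l) * unif v ^ ((l : ℤ) - L)) *
              x (Sum.inr 0) := by
          simp [Matrix.mulVec, dotProduct, pcol]
        rw [hp] at hx2'
        set S : K := ∑ l : Fin (L + m + b), algebraMap ℂ K (c i l) * unif v ^ ((l : ℤ) - L)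
          with hS
        have h4 : (unif v ^ (-(m : ℤ)) • (bm h f).mulVec x) (Sum.inl i) -
            (unif v ^ (-(m : ℤ)) • (bm h f).mulVec x) (Sum.inr 0) * q v i =
            unif v ^ (-(m : ℤ)) * ((x (Sum.inl i) - S * x (Sum.inr 0)) -
              x (Sum.inr 0) * (f * q v i - h i - S)) := by
          rw [Pi.smul_apply, Pi.smul_apply, bm_inl, bm_inr, smul_eq_mul, smul_eq_mul]
          ring
        rw [h4, map_mul, val_unif_zpow, neg_neg]
        have h5 : v.1 ((x (Sum.inl i) - S * x (Sum.inr 0)) -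
              x (Sum.inr 0) * (f * q v i - h i - S)) ≤ exp (-(m : ℤ)) := by
          refine (v.1.map_sub _ _).trans (max_le hx2' ?_)
          rw [map_mul]
          calc v.1 (x (Sum.inr 0)) * v.1 (f * q v i - h i - S)
              ≤ exp (b : ℤ) * exp (-((m : ℤ) + b)) := mul_le_mul' hx1' (hc i)
            _ = exp (-(m : ℤ)) := by
                rw [← exp_add]
                congr 1
                ring
        calc exp (m : ℤ) * _ ≤ exp (m : ℤ) * exp (-(m : ℤ)) := mul_le_mul_right h5 _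
          _ = 1 := by rw [← exp_add, add_neg_cancel, exp_zero]
    · rw [mem_extB_ne hv] at hx
      have h1 : Mem F v (P₀.mulVec ((bm h f).mulVec x)) ↔
          Mem (F.twist (Finsupp.single w (m : ℤ))) v (P₀.mulVec ((bm h f).mulVec x)) :=
        (mem_twist_single hv).symm
      rw [h1, hmem]
      constructor
      · have h2 : (fun _ : Fin 1 => (bm h f).mulVec x (Sum.inr 0)) = x (Sum.inr 0) • f0 := by
          funext j
          rw [bm_inr, Pi.smul_apply, hf0eq, smul_eq_mul]
          ring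
        rw [h2]
        exact Mem.smul (hx _) (hQne v hv)
      · intro i
        rw [bm_inl, bm_inr]
        have h4 : x (Sum.inl i) + h i * x (Sum.inr 0) - f * x (Sum.inr 0) * q v i =
            x (Sum.inl i) + x (Sum.inr 0) * (h i - f * q v i) := by ring
        rw [h4]
        refine (v.1.map_add _ _).trans (max_le (hx _) ?_)
        rw [map_mul]
        exact mul_le_one' (hx _) (hne i v hv)

end Pool.Agent.Lib.BPT
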