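import Pool.Agent.Lib.BPT.LowA

/-!
# Module BPT.LowB: translations of polynomials

`shiftP u` : `X_s ↦ X_s + u_s` with constants `u_s ∈ ℂ`.
`shiftP_injective`: the inverse is `shiftP (-u)`.
`shiftP_pPoly`: `p_i` is linear in `X`.
`coeff_shiftP_le`: the set of the polynomials with all coefficients of `v.val ≤ γ` is closed under
addition and under multiplication by polynomials with all coefficients of `v.val ≤ 1`;
`p = ∑_a C (coeff a p) * X ^ a` and the image of `X ^ a`, `∏_s (X_s + u_s) ^ (a s)`, has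
all coefficients of `v.val ≤ 1` (`val_alg_le`). (`MvPolynomial.as_sum`, `MvPolynomial.aeval_monomial`,
`MvPolynomial.coeff_mul`, `val_sum_le`; induction on `p` by `MvPolynomial.induction_on''` does not keep the bound, use
the sum over the support.)
-/

namespace Pool.Agent.Lib.BPT

open Matrix WithZero

variable {K : Type} [Field K] [Algebra ℂ K]

/-- the translation by `u` -/
noncomputable def shiftP {σ : Type} (u : σ → ℂ) : MvPolynomial σ K →ₐ[K] MvPolynomial σ K :=
  MvPolynomial.aeval fun s => MvPolynomial.X s + MvPolynomial.C (algebraMap ℂ K (u s))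

theorem shiftP_injective {σ : Type} (u : σ → ℂ) :
    Function.Injective (shiftP u : MvPolynomial σ K →ₐ[K] MvPolynomial σ K) := by
  have h : (shiftP (-u) : MvPolynomial σ K →ₐ[K] MvPolynomial σ K).comp (shiftP u) =
      AlgHom.id K (MvPolynomial σ K) := by
    refine MvPolynomial.algHom_ext fun s => ?_
    have hX : ∀ v : σ → ℂ, (shiftP v : MvPolynomial σ K →ₐ[K] MvPolynomial σ K)
        (MvPolynomial.X s) = MvPolynomial.X s + MvPolynomial.C (algebraMap ℂ K (v s)) :=
      fun v => MvPolynomial.aeval_X _ _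
    have hC : (shiftP (-u) : MvPolynomial σ K →ₐ[K] MvPolynomial σ K)
        (MvPolynomial.C (algebraMap ℂ K (u s))) = MvPolynomial.C (algebraMap ℂ K (u s)) :=
      MvPolynomial.aeval_C _ _
    rw [AlgHom.comp_apply, AlgHom.id_apply, hX, map_add, hX, hC, Pi.neg_apply, map_neg,
      map_neg, add_assoc, neg_add_cancel, add_zero]
  intro p q hpq
  have h1 := DFunLike.congr_fun h p
  have h2 := DFunLike.congr_fun h q
  rw [AlgHom.comp_apply, AlgHom.id_apply] at h1 h2
  rw [← h1, ← h2, hpq]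

theorem shiftP_pPoly (k Λ : ℕ) (w : Place K) (L : ℕ) (i : Fin k) (u : Fin k × Fin Λ → ℂ) :
    shiftP u (pPoly k Λ w L i) = pPoly k Λ w L i + MvPolynomial.C (pcol w L u i 0) := by
  have h : pcol w L u i 0 = ∑ l : Fin Λ, algebraMap ℂ K (u (i, l)) * unif w ^ ((l : ℤ) - L) := rfl
  rw [h, pPoly, map_sum, map_sum, ← Finset.sum_add_distrib]
  refine Finset.sum_congr rfl fun l _ => ?_
  rw [shiftP, map_mul, MvPolynomial.aeval_X, MvPolynomial.aeval_C, MvPolynomial.algebraMap_eq,
    map_mul]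
  ring

private theorem coeff_mul_le {σ : Type} (v : Place K) (γ δ : ℤᵐ⁰) (p q : MvPolynomial σ K)
    (hp : ∀ a, v.1 (p.coeff a) ≤ γ) (hq : ∀ a, v.1 (q.coeff a) ≤ δ) (a : σ →₀ ℕ) :
    v.1 ((p * q).coeff a) ≤ γ * δ := by
  classical
  rw [MvPolynomial.coeff_mul]
  refine val_sum_le v _ _ _ fun x _ => ?_
  rw [map_mul]
  exact mul_le_mul' (hp _) (hq _)

private theorem coeff_pow_le {σ : Type} (v : Place K) (p : MvPolynomial σ K)
    (hp : ∀ a, v.1 (p.coeff a) ≤ 1) (n : ℕ) (a : σ →₀ ℕ) : v.1 ((p ^ n).coeff a) ≤ 1 := by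
  classical
  induction n generalizing a with
  | zero =>
    rw [pow_zero, MvPolynomial.coeff_one]
    split_ifs <;> simp
  | succ n ih =>
    rw [pow_succ]
    simpa using coeff_mul_le v 1 1 _ _ ih hp a

private theorem coeff_prod_le {σ : Type} (v : Place K) (s : Finset σ) (f : σ → MvPolynomial σ K)
    (hf : ∀ i ∈ s, ∀ a, v.1 ((f i).coeff a) ≤ 1) (a : σ →₀ ℕ) :
    v.1 ((∏ i ∈ s, f i).coeff a) ≤ 1 := by
  classical
  induction s using Finset.induction_on generalizing a with
  | empty =>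
    rw [Finset.prod_empty, MvPolynomial.coeff_one]
    split_ifs <;> simp
  | insert i s hi ih =>
    rw [Finset.prod_insert hi]
    simpa using coeff_mul_le v 1 1 _ _ (hf i (Finset.mem_insert_self _ _))
      (ih fun j hj => hf j (Finset.mem_insert_of_mem hj)) a

theorem coeff_shiftP_le {σ : Type} (u : σ → ℂ) (v : Place K) (γ : ℤᵐ⁰) (p : MvPolynomial σ K)
    (h : ∀ a, v.1 (p.coeff a) ≤ γ) (a : σ →₀ ℕ) : v.1 ((shiftP u p).coeff a) ≤ γ := by
  classical
  conv_lhs => rw [p.as_sum]
  rw [map_sum, MvPolynomial.coeff_sum]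
  refine val_sum_le v _ _ _ fun b _ => ?_
  rw [shiftP, MvPolynomial.aeval_monomial, MvPolynomial.algebraMap_eq, MvPolynomial.coeff_C_mul,
    map_mul]
  have h1 : v.1 ((b.prod fun s k => ((MvPolynomial.X s +
      MvPolynomial.C (algebraMap ℂ K (u s)) : MvPolynomial σ K)) ^ k).coeff a) ≤ 1 := by
    rw [Finsupp.prod]
    refine coeff_prod_le v _ _ (fun i _ a' => coeff_pow_le v _ (fun a'' => ?_) _ a') a
    rw [MvPolynomial.coeff_add, MvPolynomial.coeff_X, MvPolynomial.coeff_C]
    refine (v.1.map_add _ _).trans (max_le ?_ ?_)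
    · split_ifs <;> simp
    · split_ifs
      · exact val_alg_le v _
      · simp
  calc v.1 (p.coeff b) * _ ≤ γ * 1 := mul_le_mul' (h b) h1
    _ = γ := mul_one γ

end Pool.Agent.Lib.BPT
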