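import Pool.Agent.Lib.BPT.MemExt
import Pool.Agent.Lib.BPT.LowB

/-!
# Module BPT.Low: the lowest coefficient

`H` a bundle of rank `ρ`, `A ≠ 0` a homomorphism `H → bigG`, `u₀ : σ → ℂ`, `σ = Fin k × Fin Λ`.

For `y ∈ K ^ ρ` let `T_y = boxP M ((A y) ∘ inr)`, `S_{i,y} = boxP (M + 1) (β ↦ (A y) (inl (i, β)))`; both
linear in `y`. By `pPoly_mul` and `mem_extB_ne`, `mem_extB_self` (`bigG` is `extB` with `Y = pbig`),
for `y` in the stalk `H_v` (`isHom_iff`):
`v ≠ w`: all coefficients of `T_y`, `S_{i,y}` are regular at `v`;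
`v = w`: the coefficients of `T_y` have `w.val ≤ exp b`, those of `S_{i,y} - p_i T_y` have
`w.val ≤ exp (-m)`. (`coeff_boxP`.)
Let `τ = shiftP u₀`; `τ p_i = p_i + p_i(u₀)` (`shiftP_pPoly`, `pcol`); the same bounds hold for the coefficients of
`τ T_y`, `τ S_{i,y}`, `τ (S_{i,y} - p_i T_y)` (`coeff_shiftP_le`).
Let `n` be the least total degree (`Finsupp.degree`) of an exponent `a` such that the coefficient at `a` of one of the
`τ T_{e_j}`, `τ S_{i,e_j}` (`j : Fin ρ`, `e_j = Pi.single j 1`) is nonzero (exists since `A ≠ 0` and `τ` is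
injective), and `a` such an exponent. `Ψ (inl i) j = coeff a (τ S_{i,e_j})`,
`Ψ (inr 0) j = coeff a (τ T_{e_j})`. `Ψ ≠ 0`. By linearity `Ψ y = (coeff a (τ S_{i,y}), coeff a (τ T_y))`,
and the coefficients of `τ T_y` of total degree `< n` vanish for all `y`.
Homomorphism (`nf` is `extB` with `Y = pcol`): at `v ≠ w` clear; at `w`: `w.val (coeff a (τ T_y)) ≤ exp b`;
`coeff a (τ (S_{i,y} - p_i T_y)) = coeff a (τ S_{i,y}) - p_i(u₀) coeff a (τ T_y) - coeff a (p_i τ T_y)`,
and the last term is `0` by `coeff_pPoly_mul`.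
-/

namespace Pool.Agent.Lib.BPT

open Matrix WithZero

variable {K : Type} [Field K] [Algebra ℂ K]

namespace LowAux

/-- `boxP` as a linear map -/
noncomputable def boxL {σ : Type} [Fintype σ] [DecidableEq σ] (M : ℕ) :
    ((σ → Fin (M + 1)) → K) →ₗ[K] MvPolynomial σ K :=
  ∑ α, (MvPolynomial.monomial (Finsupp.equivFunOnFinite.symm fun s => (α s : ℕ))) ∘ₗ
    (LinearMap.proj α : ((σ → Fin (M + 1)) → K) →ₗ[K] K)

omit [Algebra ℂ K] in
theorem boxL_apply {σ : Type} [Fintype σ] [DecidableEq σ] (M : ℕ) (c : (σ → Fin (M + 1)) → K) :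
    boxL M c = boxP M c := by
  rw [boxL, LinearMap.sum_apply, boxP]
  rfl

theorem coeff_boxP_le {σ : Type} [Fintype σ] [DecidableEq σ] (M : ℕ) (c : (σ → Fin (M + 1)) → K)
    (v : Place K) (γ : ℤᵐ⁰) (h : ∀ α, v.1 (c α) ≤ γ) (a : σ →₀ ℕ) :
    v.1 ((boxP M c).coeff a) ≤ γ := by
  rw [coeff_boxP]
  split_ifs with h1
  · exact h _
  · rw [map_zero]
    exact zero_le

theorem boxP_ne_zero {σ : Type} [Fintype σ] [DecidableEq σ] (M : ℕ) (c : (σ → Fin (M + 1)) → K)
    (α : σ → Fin (M + 1)) (h : c α ≠ 0) : boxP M c ≠ 0 := by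
  intro h0
  apply h
  have h1 := coeff_boxP M c (Finsupp.equivFunOnFinite.symm fun s => (α s : ℕ))
  rw [h0, MvPolynomial.coeff_zero, dif_pos (fun s => by
    rw [Finsupp.equivFunOnFinite_symm_apply_apply]
    exact (α s).2)] at h1
  rw [h1]
  congr 1

omit [Algebra ℂ K] in
theorem linear_sum {ρ : ℕ} {P : Type} [AddCommGroup P] [Module K P]
    (f : (Fin ρ → K) →ₗ[K] P) (y : Fin ρ → K) : f y = ∑ j, y j • f (Pi.single j 1) := by
  conv_lhs => rw [pi_eq_sum_univ' y]
  rw [map_sum]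
  refine Finset.sum_congr rfl fun j _ => ?_
  rw [map_smul]

end LowAux

open LowAux

theorem exists_low {k Λ : ℕ} (w : Place K) (m b L M : ℕ) {ρ : ℕ} (H : VB K (Fin ρ))
    (A : Matrix ((Fin k × (Fin k × Fin Λ → Fin (M + 2))) ⊕ (Fin k × Fin Λ → Fin (M + 1)))
      (Fin ρ) K) (hA : A ≠ 0) (hom : IsHom H (bigG k Λ w m b L M) A) (u₀ : Fin k × Fin Λ → ℂ) :
    ∃ Ψ : Matrix (Fin k ⊕ Fin 1) (Fin ρ) K, Ψ ≠ 0 ∧ IsHom H (nf w m b L u₀) Ψ := by
  classical
  let Ar : Matrix (Fin k × Fin Λ → Fin (M + 1)) (Fin ρ) K := A.submatrix Sum.inr id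
  let Al : Fin k → Matrix (Fin k × Fin Λ → Fin (M + 2)) (Fin ρ) K := fun i =>
    A.submatrix (fun β => Sum.inl (i, β)) id
  let TL : (Fin ρ → K) →ₗ[K] MvPolynomial (Fin k × Fin Λ) K :=
    (shiftP u₀).toLinearMap ∘ₗ boxL M ∘ₗ Ar.mulVecLin
  let SL : Fin k → (Fin ρ → K) →ₗ[K] MvPolynomial (Fin k × Fin Λ) K := fun i =>
    (shiftP u₀).toLinearMap ∘ₗ boxL (M + 1) ∘ₗ (Al i).mulVecLin
  have hTL : ∀ y, TL y = shiftP u₀ (boxP M (Ar.mulVec y)) := by
    intro y
    change shiftP u₀ (boxL M (Ar.mulVec y)) = _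
    rw [boxL_apply]
  have hSL : ∀ i y, SL i y = shiftP u₀ (boxP (M + 1) ((Al i).mulVec y)) := by
    intro i y
    change shiftP u₀ (boxL (M + 1) ((Al i).mulVec y)) = _
    rw [boxL_apply]
  let Q : Set (Fin k × Fin Λ →₀ ℕ) := {a |
    (∃ j : Fin ρ, (TL (Pi.single j 1)).coeff a ≠ 0) ∨
      ∃ (i : Fin k) (j : Fin ρ), (SL i (Pi.single j 1)).coeff a ≠ 0}
  have hQ : Q.Nonempty := by
    obtain ⟨x, j, hx⟩ : ∃ x j, A x j ≠ 0 := by
      by_contra hcon
      push Not at hcon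
      apply hA
      ext x j
      exact hcon x j
    rcases x with ⟨i, β⟩ | α
    · have h1 : boxP (M + 1) ((Al i).mulVec (Pi.single j 1)) ≠ 0 := by
        apply boxP_ne_zero _ _ β
        rw [Matrix.mulVec_single_one]
        exact hx
      have h2 : SL i (Pi.single j 1) ≠ 0 := by
        rw [hSL]
        intro h0
        exact h1 (shiftP_injective u₀ (by rw [h0, map_zero]))
      obtain ⟨a, ha⟩ := MvPolynomial.ne_zero_iff.1 h2
      exact ⟨a, Or.inr ⟨i, j, ha⟩⟩
    · have h1 : boxP M (Ar.mulVec (Pi.single j 1)) ≠ 0 := by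
        apply boxP_ne_zero _ _ α
        rw [Matrix.mulVec_single_one]
        exact hx
      have h2 : TL (Pi.single j 1) ≠ 0 := by
        rw [hTL]
        intro h0
        exact h1 (shiftP_injective u₀ (by rw [h0, map_zero]))
      obtain ⟨a, ha⟩ := MvPolynomial.ne_zero_iff.1 h2
      exact ⟨a, Or.inl ⟨j, ha⟩⟩
  obtain ⟨a, haQ, hmin⟩ := (measure (Finsupp.degree : (Fin k × Fin Λ →₀ ℕ) → ℕ)).wf.has_min Q hQ
  have hlow : ∀ a' : Fin k × Fin Λ →₀ ℕ, Finsupp.degree a' < Finsupp.degree a →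
      ∀ y, (TL y).coeff a' = 0 := by
    intro a' ha' y
    have h1 : ∀ j : Fin ρ, (TL (Pi.single j 1)).coeff a' = 0 := by
      intro j
      by_contra hne
      exact hmin a' (Or.inl ⟨j, hne⟩) ha'
    rw [linear_sum TL y, MvPolynomial.coeff_sum]
    refine Finset.sum_eq_zero fun j _ => ?_
    rw [MvPolynomial.coeff_smul, h1, smul_zero]
  let Ψ : Matrix (Fin k ⊕ Fin 1) (Fin ρ) K := Matrix.of fun x j =>
    Sum.elim (fun i => (SL i (Pi.single j 1)).coeff a) (fun _ => (TL (Pi.single j 1)).coeff a) x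
  have hΨl : ∀ y i, Ψ.mulVec y (Sum.inl i) = (SL i y).coeff a := by
    intro y i
    rw [linear_sum (SL i) y, MvPolynomial.coeff_sum, Matrix.mulVec, dotProduct]
    refine Finset.sum_congr rfl fun j _ => ?_
    rw [MvPolynomial.coeff_smul, smul_eq_mul, mul_comm]
    rfl
  have hΨr : ∀ y i, Ψ.mulVec y (Sum.inr i) = (TL y).coeff a := by
    intro y i
    rw [linear_sum TL y, MvPolynomial.coeff_sum, Matrix.mulVec, dotProduct]
    refine Finset.sum_congr rfl fun j _ => ?_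
    rw [MvPolynomial.coeff_smul, smul_eq_mul, mul_comm]
    rfl
  refine ⟨Ψ, ?_, ?_⟩
  · intro h0
    rcases haQ with ⟨j, hj⟩ | ⟨i, j, hj⟩
    · apply hj
      have := congrFun (congrFun h0 (Sum.inr 0)) j
      exact this
    · apply hj
      have := congrFun (congrFun h0 (Sum.inl i)) j
      exact this
  · rw [isHom_iff]
    intro v y hy
    have h1 := isHom_iff.1 hom v y hy
    rcases eq_or_ne v w with rfl | hv
    · obtain ⟨h2, h3⟩ := mem_extB_self.1 h1
      refine mem_extB_self.2 ⟨fun j => ?_, fun i => ?_⟩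
      · rw [hΨr, hTL]
        exact coeff_shiftP_le u₀ v _ _ (fun a' => coeff_boxP_le M _ v _ (fun α => h2 α) a') a
      · rw [hΨl]
        have h4 : (pcol v L u₀).mulVec (Ψ.mulVec y ∘ Sum.inr) i =
            pcol v L u₀ i 0 * (TL y).coeff a := by
          rw [Matrix.mulVec, dotProduct, Fin.sum_univ_one, Function.comp_apply, hΨr]
        rw [h4]
        have h5 : shiftP u₀ (boxP (M + 1) ((Al i).mulVec y) -
            pPoly k Λ v L i * boxP M (Ar.mulVec y)) =
              SL i y - (pPoly k Λ v L i + MvPolynomial.C (pcol v L u₀ i 0)) * TL y := by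
          rw [map_sub, map_mul, shiftP_pPoly, hSL, hTL]
        have h6 : boxP (M + 1) ((Al i).mulVec y) - pPoly k Λ v L i * boxP M (Ar.mulVec y) =
            boxP (M + 1) (fun β => A.mulVec y (Sum.inl (i, β)) -
              (pbig k Λ v L M).mulVec (A.mulVec y ∘ Sum.inr) (i, β)) := by
          rw [pPoly_mul, ← boxL_apply, ← boxL_apply, ← boxL_apply, ← map_sub]
          rfl
        have h7 := coeff_shiftP_le u₀ v (exp (-(m : ℤ))) _
          (fun a' => coeff_boxP_le (M + 1) (fun β => A.mulVec y (Sum.inl (i, β)) -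
              (pbig k Λ v L M).mulVec (A.mulVec y ∘ Sum.inr) (i, β)) v _
            (fun β => h3 (i, β)) a') a
        rw [← h6, h5, MvPolynomial.coeff_sub, add_mul, MvPolynomial.coeff_add,
          MvPolynomial.coeff_C_mul, coeff_pPoly_mul k Λ v L i (TL y) a
            (fun a' ha' => hlow a' ha' y), zero_add] at h7
        exact h7
    · have h2 := (mem_extB_ne hv).1 h1
      refine (mem_extB_ne hv).2 fun x => ?_
      rcases x with i | j
      · rw [hΨl, hSL]
        exact coeff_shiftP_le u₀ v _ _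
          (fun a' => coeff_boxP_le (M + 1) _ v _ (fun β => h2 (Sum.inl (i, β))) a') a
      · rw [hΨr, hTL]
        exact coeff_shiftP_le u₀ v _ _
          (fun a' => coeff_boxP_le M _ v _ (fun α => h2 (Sum.inr α)) a') a

end Pool.Agent.Lib.BPT
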