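import Pool.Agent.Lib.BPT.Objects

/-!
# Module BPT.MinRank: a bundle of nonnegative degree contains a stable bundle of degree zero

Let `ρ` be the least positive natural number such that there are `H : VB K (Fin ρ)` with `0 ≤ deg H`
and an injective homomorphism `A : H → G` (`ρ = card ι` is one: reindex `G` by `Fintype.equivFin`,
`A` the permutation matrix). Let `δ = deg H ≥ 0`, `w` a place, `h ∈ GL_ρ(K)` the diagonal matrix
with entries `π ^ δ, 1, ..., 1` (or `Matrix.updateRow 1 i₀ (Pi.single i₀ (π ^ δ))`), `H' = H.modAt w h`: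
`deg H' = 0` (`deg_modAt`), `H'_v ⊆ H_v`, so `A` is an injective homomorphism `H' → G`.
If `S` of rank `0 < n < ρ` has an injective homomorphism `A'` to `H'` then `A A'` is an
injective homomorphism `S → G`, so `deg S < 0` by minimality.
-/

namespace Pool.Agent.Lib.BPT

open Matrix WithZero

variable {K : Type} [Field K] [Algebra ℂ K] [CurveFacts K]

namespace MinRankAux

/-- invertible diagonal matrices -/
def diagGL {ι : Type} [Fintype ι] [DecidableEq ι] (d : ι → K) (hd : ∀ i, d i ≠ 0) : GL ι K where
  val := Matrix.diagonal d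
  inv := Matrix.diagonal fun i => (d i)⁻¹
  val_inv := by
    rw [Matrix.diagonal_mul_diagonal, ← Matrix.diagonal_one]
    congr 1
    funext i
    exact mul_inv_cancel₀ (hd i)
  inv_val := by
    rw [Matrix.diagonal_mul_diagonal, ← Matrix.diagonal_one]
    congr 1
    funext i
    exact inv_mul_cancel₀ (hd i)

theorem inj_mul {ι κ μ : Type} [Fintype ι] [Fintype κ] [Fintype μ]
    {A : Matrix ι κ K} {B : Matrix κ μ K} (hA : Function.Injective A.mulVec)
    (hB : Function.Injective B.mulVec) : Function.Injective (A * B).mulVec := by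
  intro x y hxy
  rw [← Matrix.mulVec_mulVec, ← Matrix.mulVec_mulVec] at hxy
  exact hB (hA hxy)

/-- making the stalk at `w` smaller -/
theorem mem_of_modAt {ι : Type} [Fintype ι] [DecidableEq ι] {E : VB K ι} {w v : Place K}
    {h : GL ι K} (hint : IsInt w h.1) {x : ι → K} (hx : Mem (E.modAt w h) v x) : Mem E v x := by
  rcases eq_or_ne v w with rfl | hvw
  · obtain ⟨y, hy, hyx⟩ := mem_iff.1 hx
    rw [modAt_g_self, Units.val_mul, ← Matrix.mulVec_mulVec] at hyx
    exact mem_iff.2 ⟨h.1.mulVec y, fun i => hint.mulVec hy i, hyx⟩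
  · unfold Mem at hx ⊢
    rw [modAt_g_ne E h hvw] at hx
    exact hx

end MinRankAux

open MinRankAux

theorem exists_stable_sub {ι : Type} [Fintype ι] [DecidableEq ι] [Nonempty ι] (G : VB K ι)
    (hG : 0 ≤ deg G) : ∃ (ρ : ℕ) (H : VB K (Fin ρ)) (A : Matrix ι (Fin ρ) K), 0 < ρ ∧
      StableZero H ∧ Function.Injective A.mulVec ∧ IsHom H G A := by
  classical
  have hex : ∃ ρ : ℕ, 0 < ρ ∧ ∃ (H : VB K (Fin ρ)) (A : Matrix ι (Fin ρ) K), 0 ≤ deg H ∧
      Function.Injective A.mulVec ∧ IsHom H G A := by
    let e := Fintype.equivFin ι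
    refine ⟨Fintype.card ι, Fintype.card_pos, G.reindex e,
      Matrix.of fun i j => if e i = j then 1 else 0, ?_, ?_, ?_⟩
    · rw [deg_reindex]
      exact hG
    all_goals
      have hmv : ∀ x : Fin (Fintype.card ι) → K,
          (Matrix.of fun i j => if e i = j then (1 : K) else 0 :
            Matrix ι (Fin (Fintype.card ι)) K).mulVec x = x ∘ e := by
        intro x
        funext i
        rw [Matrix.mulVec, dotProduct]
        simp
    · intro x y hxy
      rw [hmv, hmv] at hxy
      exact e.surjective.injective_comp_right hxy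
    · rw [isHom_iff]
      intro v x hx
      rw [hmv]
      exact mem_reindex.1 hx
  let ρ := Nat.find hex
  obtain ⟨hρ, H, A, hH, hA, hAG⟩ := Nat.find_spec hex
  obtain ⟨w⟩ := CurveFacts.ne (K := K)
  let i0 : Fin ρ := ⟨0, hρ⟩
  have hu : unif w ^ (deg H) ≠ 0 := zpow_ne_zero _ (unif_ne_zero w)
  let d : Fin ρ → K := fun i => if i = i0 then unif w ^ (deg H) else 1
  have hd : ∀ i, d i ≠ 0 := by
    intro i
    change (if i = i0 then unif w ^ (deg H) else 1) ≠ 0
    split_ifs
    · exact hu
    · exact one_ne_zero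
  let h : GL (Fin ρ) K := diagGL d hd
  have hdet : h.1.det = unif w ^ (deg H) := by
    change (Matrix.diagonal d).det = _
    rw [Matrix.det_diagonal]
    change ∏ i, (if i = i0 then unif w ^ (deg H) else 1) = _
    rw [Finset.prod_ite_eq' Finset.univ i0, if_pos (Finset.mem_univ _)]
  have hint : IsInt w h.1 := by
    intro i j
    change w.1 (Matrix.diagonal d i j) ≤ 1
    rw [Matrix.diagonal_apply]
    split_ifs with hij
    · change w.1 (if i = i0 then unif w ^ (deg H) else 1) ≤ 1
      split_ifs
      · rw [val_le_one w hu, ord_unif_zpow]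
        exact hH
      · rw [map_one]
    · rw [map_zero]
      exact zero_le_one
  refine ⟨ρ, H.modAt w h, A, hρ, ⟨?_, ?_⟩, hA, ?_⟩
  · rw [deg_modAt, hdet, ord_unif_zpow, sub_self]
  · intro n hn hnρ S A' hA' hS
    by_contra hcon
    push Not at hcon
    rw [Fintype.card_fin] at hnρ
    refine Nat.find_min hex hnρ ⟨hn, S, A * A', hcon, inj_mul hA hA', ?_⟩
    refine IsHom.comp ?_ hS
    rw [isHom_iff] at hAG ⊢
    intro v x hx
    exact hAG v x (mem_of_modAt hint hx)
  · rw [isHom_iff] at hAG ⊢
    intro v x hx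
    exact hAG v x (mem_of_modAt hint hx)

end Pool.Agent.Lib.BPT
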