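import Pool.Agent.Lib.BPT.PlC
import Pool.Agent.Lib.BPT.Bk
import Pool.Agent.Lib.BPT.DualSt
import Pool.Agent.Lib.BPT.MinRank
import Pool.Agent.Lib.BPT.ExtB
import Pool.Agent.Lib.BPT.Low

/-!
# The final assembly
-/

namespace Pool.Agent.Lib.BPT

open Matrix WithZero

variable {K : Type} [Field K] [Algebra ℂ K]

theorem mul_ne_zero_of_inj {ι κ μ : Type} [Fintype ι] [Fintype κ] [Fintype μ] [DecidableEq μ]
    {A : Matrix ι κ K} {B : Matrix κ μ K} (hA : Function.Injective A.mulVec) (hB : B ≠ 0) :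
    A * B ≠ 0 := by
  intro h
  apply hB
  have h1 : ∀ j, B.mulVec (Pi.single j 1) = 0 := by
    intro j
    apply hA
    rw [Matrix.mulVec_mulVec, h, Matrix.zero_mulVec, Matrix.mulVec_zero]
  ext i j
  have := congrFun (h1 j) i
  rw [Matrix.mulVec_single_one] at this
  exact this

theorem universal_sub [CurveFacts K] {g : ℕ} (hg : HasGenus K g) (κ : ℕ)
    (h : κ + 1 + g < (κ + 1) * g) : ∃ (ρ : ℕ) (H : VB K (Fin ρ)), 0 < ρ ∧ StableZero H ∧
      ∀ F : VB K (Fin (κ + 1)), deg F = (κ + 1) * ((g : ℤ) - 1) →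
        ∃ Ψ : Matrix (Fin (κ + 1)) (Fin ρ) K, Ψ ≠ 0 ∧ IsHom H F Ψ := by
  obtain ⟨w⟩ := (CurveFacts.ne : Nonempty (Place K))
  obtain ⟨c, hc⟩ := ns_line hg
  obtain ⟨m₀, hm⟩ := dich hg κ
  obtain ⟨d, hd⟩ : ∃ d, (κ + 1) * g = κ + 1 + g + d := ⟨(κ + 1) * g - (κ + 1 + g), by omega⟩
  have hd0 : 0 < d := by omega
  set L := c.toNat with hLdef
  set m := (m₀ + 1).toNat with hmdef
  have hL : NS (lineB (Finsupp.single w (L : ℤ))) := by
    apply hc
    rw [deg_lineB, dg_single]
    omega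
  obtain ⟨M, hM⟩ := deg_bigG_pos κ (L + m + (κ * m + d)) w m (κ * m + d) L (by omega)
  obtain ⟨ρ, H, A, hρ, hst, hinj, hom⟩ := exists_stable_sub _ hM
  have hA0 : A ≠ 0 := by
    rintro rfl
    have h1 : (Pi.single ⟨0, hρ⟩ 1 : Fin ρ → K) = 0 := by
      apply hinj
      rw [Matrix.zero_mulVec, Matrix.zero_mulVec]
    have h2 := congrFun h1 ⟨0, hρ⟩
    rw [Pi.single_eq_same] at h2
    exact one_ne_zero h2
  refine ⟨ρ, H, hρ, hst, ?_⟩
  intro F hF
  rcases hm F hF with ⟨N, A', hA', homN, hN⟩ | hNS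
  · have h1 : Fintype.card (Fin ρ × Fin κ) * ((g : ℤ) - 1) < deg (H.dual.tensor N) := by
      rw [deg_tensor, deg_dual, hst.1, Fintype.card_prod]
      simp only [Fintype.card_fin, neg_zero, mul_zero, zero_add]
      push_cast
      rw [mul_assoc]
      exact mul_lt_mul_of_pos_left hN (by exact_mod_cast hρ)
    obtain ⟨x, hx0, hx⟩ := minkowski hg _ h1
    have hx' := isHom_of_mem_tensor hx
    refine ⟨A' * (Matrix.of fun j i => x (i, j)), mul_ne_zero_of_inj hA' ?_, homN.comp hx'⟩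
    intro h2
    apply hx0
    funext ⟨i, j⟩
    exact congrFun (congrFun h2 j) i
  · have hFd : deg F = d + g := by
      rw [hF]
      have : ((κ : ℤ) + 1) * g = κ + 1 + g + d := by exact_mod_cast hd
      linarith
    obtain ⟨u, P, hP, homP⟩ := exists_nf hg d m L w hL F hFd (by
      intro v
      refine NS.congr (fun v' x => mem_twist_twist.symm) (hNS _ ?_)
      rw [dg_add, dg_single, dg_single]
      omega)
    obtain ⟨Ψ, hΨ, homΨ⟩ := exists_low w m (κ * m + d) L M H A hA0 hom u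
    exact ⟨P * Ψ, mul_ne_zero_of_inj hP hΨ, homP.comp homΨ⟩

theorem det_blockDiag {t : ℕ} {n : Fin t → ℕ} (M : ∀ i, Matrix (Fin (n i)) (Fin (n i)) K) :
    (Matrix.blockDiagonal' M).det = ∏ i, (M i).det := by
  rw [(Matrix.blockTriangular_blockDiagonal' M).det_fintype]
  refine Finset.prod_congr rfl fun i _ => ?_
  rw [← Matrix.det_submatrix_equiv_self
    (Equiv.sigmaSubtype (β := fun i : Fin t => Fin (n i)) i).symm]
  congr 1
  ext a b
  exact Matrix.blockDiagonal'_apply_eq M i a b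

/-- the determinant line bundle -/
noncomputable def detB {n : ℕ} (E : VB K (Fin n)) : VB K (Fin 1) where
  g v := scalGL (Fin 1) (E.g v).1.det (det_ne_zero _)
  fin := by
    refine E.finU.subset ?_
    intro v hv h
    exact hv (unimod_scalGL _ h.val_det)

theorem deg_detB {n : ℕ} (E : VB K (Fin n)) : deg (detB E) = deg E := by
  unfold deg
  congr 1
  refine finsum_congr fun v => ?_
  change ord v ((E.g v).1.det • (1 : Matrix (Fin 1) (Fin 1) K)).det = _
  rw [Matrix.det_smul, Matrix.det_one, mul_one, Fintype.card_fin, pow_one]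

theorem stable_line {L : VB K (Fin 1)} (h : deg L = 0) : StableZero L := by
  refine ⟨h, ?_⟩
  intro n h0 h1
  rw [Fintype.card_fin] at h1
  omega

/-- the ranks of the summands -/
def rk (ρ s : ℕ) : Fin (s + 2) → ℕ := Fin.cons ρ fun _ => 1

/-- the summands -/
noncomputable def summand {ρ : ℕ} (H : VB K (Fin ρ)) (s : ℕ) :
    ∀ i : Fin (s + 2), VB K (Fin (rk ρ s i)) :=
  Fin.cons (α := fun i => VB K (Fin (rk ρ s i))) H.dual
    (Fin.cons (α := fun _ => VB K (Fin 1)) (detB H) fun _ => trivB K (Fin 1))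

theorem assemble [CurveFacts K] {ρ : ℕ} (hρ : 0 < ρ) (H : VB K (Fin ρ)) (hH : StableZero H)
    (s : ℕ) :
    (∑ i, rk ρ s i = ρ + 1 + s) ∧ (∀ i, 0 < rk ρ s i) ∧ (∀ i, StableZero (summand H s i)) ∧
      TrivialDet (directSum (summand H s)) ∧
      ∀ (k : ℕ) (F : VB K (Fin k)), (∃ Ψ : Matrix (Fin k) (Fin ρ) K, Ψ ≠ 0 ∧ IsHom H F Ψ) →
        HasSection (directSum (summand H s)) F := by
  refine ⟨?_, ?_, ?_, ?_, ?_⟩
  · unfold rk
    rw [Fin.sum_cons]
    simp
    ring
  · intro i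
    refine Fin.cases ?_ (fun i => ?_) i
    · exact hρ
    · exact Nat.one_pos
  · intro i
    refine Fin.cases ?_ (fun i => ?_) i
    · exact stable_dual H hH
    · refine Fin.cases ?_ (fun i => ?_) i
      · exact stable_line (L := detB H) (by rw [deg_detB, hH.1])
      · exact stable_line (L := trivB K (Fin 1)) deg_trivB
  · refine ⟨1, one_ne_zero, fun v => ?_⟩
    change v.1 (Matrix.blockDiagonal' fun i => ((summand H s i).g v).1).det = _
    rw [det_blockDiag, Fin.prod_univ_succ, Fin.prod_univ_succ]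
    have h1 : ((summand H s 0).g v).1.det = ((H.g v).1.det)⁻¹ := by
      change ((H.g v)⁻¹).1ᵀ.det = _
      rw [Matrix.det_transpose]
      have h1 : (H.g v).1.det * ((H.g v)⁻¹).1.det = 1 := by
        rw [← Matrix.det_mul, Units.mul_inv, Matrix.det_one]
      exact eq_inv_of_mul_eq_one_right h1
    have h2 : ((summand H s (Fin.succ 0)).g v).1.det = (H.g v).1.det := by
      change ((H.g v).1.det • (1 : Matrix (Fin 1) (Fin 1) K)).det = _
      rw [Matrix.det_smul, Matrix.det_one, mul_one, Fintype.card_fin, pow_one]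
    have h3 : ∀ i : Fin s, ((summand H s (Fin.succ (Fin.succ i))).g v).1.det = 1 := by
      intro i
      change (1 : Matrix (Fin 1) (Fin 1) K).det = 1
      exact Matrix.det_one
    rw [h1, h2, Finset.prod_congr rfl fun i _ => h3 i, Finset.prod_const_one, mul_one,
      inv_mul_cancel₀ (det_ne_zero _)]
  · rintro k F ⟨Ψ, hΨ, hom⟩
    refine ⟨Matrix.of fun x j => Fin.cases (motive := fun i => Fin (rk ρ s i) → K)
      (fun a => Ψ j a) (fun _ _ => 0) x.1 x.2, ?_, ?_⟩
    · intro h0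
      apply hΨ
      ext j a
      exact congrFun (congrFun h0 ⟨0, a⟩) j
    · intro v
      set M : Matrix (Σ i, Fin (rk ρ s i)) (Fin k) K := Matrix.of fun x j =>
        Fin.cases (motive := fun i => Fin (rk ρ s i) → K) (fun a => Ψ j a) (fun _ _ => 0) x.1 x.2
        with hM
      have key : ∀ i a j', ((((directSum (summand H s)).g v)⁻¹).1 * M) ⟨i, a⟩ j' =
          ∑ a', (((summand H s i).g v)⁻¹).1 a a' * M ⟨i, a'⟩ j' := by
        intro i a j'
        rw [Matrix.mul_apply, Fintype.sum_sigma, Finset.sum_eq_single i]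
        · refine Finset.sum_congr rfl fun a' _ => ?_
          congr 1
          exact Matrix.blockDiagonal'_apply_eq
            (fun i => (((summand H s i).g v)⁻¹).1) i a a'
        · intro i' _ hi'
          refine Finset.sum_eq_zero fun a' _ => ?_
          have h0 : (((directSum (summand H s)).g v)⁻¹).1 ⟨i, a⟩ ⟨i', a'⟩ = 0 :=
            Matrix.blockDiagonal'_apply_ne (fun i => (((summand H s i).g v)⁻¹).1) a a'
              (fun h => hi' h.symm)
          rw [h0, zero_mul]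
        · intro h; exact absurd (Finset.mem_univ _) h
      rintro ⟨i, a⟩ j
      rw [Matrix.mul_apply]
      refine Fin.cases (motive := fun i => ∀ a : Fin (rk ρ s i), v.1 (∑ j', ((((directSum
        (summand H s)).g v)⁻¹).1 * M) ⟨i, a⟩ j' * ((F.g v)⁻¹).1ᵀ j' j) ≤ 1) ?_ (fun i => ?_) i a
      · intro a
        have h1 := hom v j a
        rw [Matrix.mul_apply] at h1
        have h2 : (∑ j', ((((directSum (summand H s)).g v)⁻¹).1 * M) ⟨0, a⟩ j' *
            ((F.g v)⁻¹).1ᵀ j' j) =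
            ∑ x, (((F.g v)⁻¹).1 * Ψ) j x * (H.g v).1 x a := by
          have h3 : ∀ j', ((((directSum (summand H s)).g v)⁻¹).1 * M) ⟨0, a⟩ j' =
              ∑ a', (H.g v).1 a' a * Ψ j' a' := fun j' => key 0 a j'
          simp only [h3, Matrix.mul_apply, Matrix.transpose_apply, Finset.sum_mul]
          rw [Finset.sum_comm]
          refine Finset.sum_congr rfl fun x _ => Finset.sum_congr rfl fun y _ => ?_
          ring
        rw [h2]
        exact h1
      · intro a
        have h3 : ∀ j', ((((directSum (summand H s)).g v)⁻¹).1 * M) ⟨Fin.succ i, a⟩ j' = 0 := by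
          intro j'
          rw [key]
          refine Finset.sum_eq_zero fun a' _ => ?_
          have : M ⟨Fin.succ i, a'⟩ j' = 0 := rfl
          rw [this, mul_zero]
        simp only [h3, zero_mul, Finset.sum_const_zero, map_zero, zero_le]

/-- the projection of `F ⊕ ... ⊕ F` (`c` copies) to one summand -/
theorem isHom_proj {k n : ℕ} (c : ℕ) (e : Fin c × Fin k ≃ Fin n) (F : VB K (Fin k)) (a : Fin c) :
    IsHom (((trivB K (Fin c)).tensor F).reindex e) F
      (Matrix.of fun j x => if e (a, j) = x then 1 else 0) := by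
  rw [isHom_iff]
  intro v x hx
  rw [mem_reindex] at hx
  have h1 : (Matrix.of fun j x => if e (a, j) = x then (1 : K) else 0).mulVec x =
      fun j => x (e (a, j)) := by
    funext j
    rw [Matrix.mulVec, dotProduct]
    simp
  rw [h1]
  intro i
  have h2 := hx (a, i)
  have h3 : ((((trivB K (Fin c)).tensor F).g v)⁻¹).1.mulVec (x ∘ e) (a, i) =
      ((F.g v)⁻¹).1.mulVec (fun j => x (e (a, j))) i := by
    change (Matrix.kroneckerMap (· * ·) (1 : Matrix (Fin c) (Fin c) K) ((F.g v)⁻¹).1).mulVec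
      (x ∘ e) (a, i) = _
    rw [Matrix.mulVec, dotProduct, Fintype.sum_prod_type, Finset.sum_eq_single a]
    · rw [Matrix.mulVec, dotProduct]
      refine Finset.sum_congr rfl fun b _ => ?_
      rw [Matrix.kroneckerMap_apply, Matrix.one_apply_eq, one_mul]
      rfl
    · intro a' _ ha'
      refine Finset.sum_eq_zero fun b _ => ?_
      rw [Matrix.kroneckerMap_apply, Matrix.one_apply_ne (fun h => ha' h.symm), zero_mul, zero_mul]
    · intro h; exact absurd (Finset.mem_univ _) h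
  rw [h3] at h2
  exact h2

/-- A stable bundle of degree zero which maps nontrivially to all bundles `F` of rank `k ≤ m` and degree `k (g - 1)`. -/
theorem universal [CurveFacts K] {g : ℕ} (hg : HasGenus K g) (hg2 : 2 ≤ g) (m : ℕ) :
    ∃ (ρ : ℕ) (H : VB K (Fin ρ)), 0 < ρ ∧ StableZero H ∧
      ∀ k : ℕ, 1 ≤ k → k ≤ m → ∀ F : VB K (Fin k), deg F = k * ((g : ℤ) - 1) →
        ∃ Ψ : Matrix (Fin k) (Fin ρ) K, Ψ ≠ 0 ∧ IsHom H F Ψ := by
  obtain ⟨N, hN⟩ : ∃ N, 3 * m.factorial = N + 1 :=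
    ⟨3 * m.factorial - 1, by have := Nat.factorial_pos m; omega⟩
  have hN3 : 3 ≤ N + 1 := by have := Nat.factorial_pos m; omega
  obtain ⟨ρ, H, hρ, hst, hH⟩ := universal_sub hg N (by nlinarith)
  refine ⟨ρ, H, hρ, hst, ?_⟩
  intro k hk1 hkm F hF
  obtain ⟨c, hc⟩ : k ∣ N + 1 := by
    rw [← hN]
    exact (Nat.dvd_factorial (by omega) hkm).mul_left 3
  have e : Fin c × Fin k ≃ Fin (N + 1) := finProdFinEquiv.trans (finCongr (by rw [hc, mul_comm]))
  obtain ⟨Ψ, hΨ, hom⟩ := hH (((trivB K (Fin c)).tensor F).reindex e) (by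
    rw [deg_reindex, deg_tensor, deg_trivB, hF, Fintype.card_fin, Fintype.card_fin, mul_zero,
      zero_add]
    have : ((N : ℤ) + 1) = k * c := by exact_mod_cast hc
    rw [this]; ring)
  have h1 : ∃ a : Fin c, (Matrix.of fun j x => if e (a, j) = x then (1 : K) else 0) * Ψ ≠ 0 := by
    by_contra hcon
    push Not at hcon
    apply hΨ
    ext x y
    obtain ⟨⟨a, j⟩, rfl⟩ := e.surjective x
    have h2 := congrFun (congrFun (hcon a) j) y
    rw [Matrix.mul_apply] at h2
    simpa using h2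
  obtain ⟨a, ha⟩ := h1
  exact ⟨_, ha, (isHom_proj c e F a).comp hom⟩

/-- The main theorem for `K` with the basic facts. -/
theorem main [CurveFacts K] {g : ℕ} (hg : HasGenus K g) (hg2 : 2 ≤ g) (m : ℕ) :
    ∃ r₀ : ℕ, ∀ r, r₀ ≤ r → ∃ (t : ℕ) (n : Fin t → ℕ) (E : ∀ i, VB K (Fin (n i))),
      ∑ i, n i = r ∧ (∀ i, 0 < n i) ∧ (∀ i, StableZero (E i)) ∧ TrivialDet (directSum E) ∧
      ∀ k : ℕ, 1 ≤ k → k ≤ m → ∀ F : VB K (Fin k), deg F = k * ((g : ℤ) - 1) →
        HasSection (directSum E) F := by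
  obtain ⟨ρ, H, hρ, hst, hH⟩ := universal hg hg2 m
  refine ⟨ρ + 1, fun r hr => ?_⟩
  obtain ⟨s, rfl⟩ : ∃ s, r = ρ + 1 + s := ⟨r - (ρ + 1), by omega⟩
  obtain ⟨h1, h2, h3, h4, h5⟩ := assemble hρ H hst s
  exact ⟨s + 2, rk ρ s, summand H s, h1, h2, h3, h4, fun k hk1 hkm F hF =>
    h5 k F (hH k hk1 hkm F hF)⟩

end Pool.Agent.Lib.BPT
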