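import Pool.Agent.Lib.BPT.Modif

/-!
# Module BPT.HZero: dimension of the space of global sections

(1) `exists_incl`: for every bundle `E` and `c : ℤ` there is a divisor `D` with `c ≤ dg D` and
`E_v ⊆ O(D)_v ^ ι` for all `v`: for the finitely many `v` with `E.g v` not `Unimod` bound the pole
orders of the entries of `E.g v`; then enlarge `D` at one place (`CurveFacts.ne`).
(2) If `F ⊆ F'` and `H0 F` is finite dimensional, then so is `H0 F'` and
`finrank H0 F' ≤ finrank H0 F + (deg F' - deg F)`. Induction on `deg F' - deg F` (a natural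
number, `deg_le_of_isHom` with `A = 1`), by `exists_modif` and `mem_of_deg_eq`: `H0 F''` is the kernel
of the linear functional `H0 F' → ℂ`, `x ↦` the residue of `∑ lam i (F'.g w)⁻¹ x i` at `w`
(`CurveFacts.res` and uniqueness of the residue), or: for `x, y ∈ H0 F'` with residues `a, b`,
`b x - a y ∈ H0 F''`, so `finrank H0 F' ≤ finrank H0 F'' + 1`.
(3) If `dg D < 0` then `secD D = ⊥` and `H0 ((trivB K ι).twist D) = ⊥` (product formula: a
nonzero `f` with `-ord v f ≤ D v` has `0 = ∑ ord v f ≥ - dg D > 0`).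
(4) `h0_fin`: `H0 E` is finite dimensional: by (1) `H0 E ≤ H0 (triv(D))`, and by (2), (3) applied to
`triv(D - n w) ⊆ triv(D)`, `n > dg D`, this is finite dimensional.
(5) `secD D` is isomorphic to `H0 (lineB D)` (`mem_secD`); `secD_step` is `h0_step` for
`lineB D ⊆ lineB (D + w)`.
-/

namespace Pool.Agent.Lib.BPT

open Matrix WithZero

variable {K : Type} [Field K] [Algebra ℂ K] [CurveFacts K]

variable {ι : Type} [Fintype ι] [DecidableEq ι]

namespace HZeroAux

omit [CurveFacts K] in
theorem mem_trivTwist {D : Place K →₀ ℤ} {v : Place K} {x : ι → K} :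
    Mem ((trivB K ι).twist D) v x ↔ ∀ i, v.1 (x i) ≤ exp (D v) := by
  rw [mem_twist, mem_trivB]
  refine forall_congr' fun i => ?_
  rw [Pi.smul_apply, smul_eq_mul, map_mul, val_unif_zpow, WithZero.exp_neg,
    inv_mul_le_iff₀ (exp_pos), mul_one]

/-- a bound for the pole orders of the entries of a matrix -/
noncomputable def bnd (v : Place K) (g : Matrix ι ι K) : ℤ := ∑ i, ∑ j, |ord v (g i j)|

omit [CurveFacts K] [DecidableEq ι] in
theorem bnd_nonneg (v : Place K) (g : Matrix ι ι K) : 0 ≤ bnd v g :=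
  Finset.sum_nonneg fun _ _ => Finset.sum_nonneg fun _ _ => abs_nonneg _

omit [CurveFacts K] [DecidableEq ι] in
theorem val_le_bnd (v : Place K) (g : Matrix ι ι K) (i j : ι) :
    v.1 (g i j) ≤ exp (∑ i, ∑ j, |ord v (g i j)|) := by
  rcases eq_or_ne (g i j) 0 with h0 | h0
  · rw [h0, map_zero]; exact zero_le
  · rw [val_le_exp v h0]
    have h1 : |ord v (g i j)| ≤ ∑ j, |ord v (g i j)| :=
      Finset.single_le_sum (f := fun j => |ord v (g i j)|) (fun _ _ => abs_nonneg _)
        (Finset.mem_univ j)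
    have h2 : ∑ j, |ord v (g i j)| ≤ ∑ i, ∑ j, |ord v (g i j)| :=
      Finset.single_le_sum (f := fun i => ∑ j, |ord v (g i j)|)
        (fun _ _ => Finset.sum_nonneg fun _ _ => abs_nonneg _) (Finset.mem_univ i)
    have h3 := neg_abs_le (ord v (g i j))
    linarith

omit [CurveFacts K] in
theorem mem_bound {E : VB K ι} {v : Place K} {x : ι → K} (hx : Mem E v x) (i : ι) :
    v.1 (x i) ≤ exp (bnd v (E.g v).1) := by
  obtain ⟨y, hy, rfl⟩ := mem_iff.1 hx
  rw [Matrix.mulVec, dotProduct]
  refine val_sum_le v _ _ _ fun a _ => ?_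
  rw [map_mul]
  calc v.1 ((E.g v).1 i a) * v.1 (y a) ≤ v.1 ((E.g v).1 i a) * 1 := mul_le_mul_right (hy a) _
    _ = v.1 ((E.g v).1 i a) := mul_one _
    _ ≤ _ := val_le_bnd v _ i a

omit [CurveFacts K] in
theorem dg_nonneg {D : Place K →₀ ℤ} (h : ∀ v, 0 ≤ D v) : 0 ≤ dg D :=
  Finset.sum_nonneg fun v _ => h v

/-- the residue -/
noncomputable def resC (w : Place K) (x : K) : ℂ :=
  open Classical in if h : w.1 x ≤ 1 then (CurveFacts.res w x h).choose else 0

theorem resC_spec {w : Place K} {x : K} (h : w.1 x ≤ 1) :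
    w.1 (x - algebraMap ℂ K (resC w x)) < 1 := by
  unfold resC
  rw [dif_pos h]
  exact (CurveFacts.res w x h).choose_spec

theorem resC_unique {w : Place K} {x : K} {c : ℂ} (h : w.1 x ≤ 1)
    (hc : w.1 (x - algebraMap ℂ K c) < 1) : resC w x = c := by
  by_contra hne
  have h1 : w.1 (algebraMap ℂ K (resC w x - c)) = 1 := val_alg w (sub_ne_zero.2 hne)
  have h2 : algebraMap ℂ K (resC w x - c)
      = (x - algebraMap ℂ K c) - (x - algebraMap ℂ K (resC w x)) := by
    rw [map_sub]; ring
  rw [h2] at h1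
  exact absurd h1 (w.1.map_sub_lt hc (resC_spec h)).ne

theorem resC_add {w : Place K} {x y : K} (hx : w.1 x ≤ 1) (hy : w.1 y ≤ 1) :
    resC w (x + y) = resC w x + resC w y := by
  refine resC_unique ((w.1.map_add x y).trans (max_le hx hy)) ?_
  have h2 : x + y - algebraMap ℂ K (resC w x + resC w y)
      = (x - algebraMap ℂ K (resC w x)) + (y - algebraMap ℂ K (resC w y)) := by
    rw [map_add]; ring
  rw [h2]
  exact w.1.map_add_lt (resC_spec hx) (resC_spec hy)

theorem resC_smul {w : Place K} {x : K} (c : ℂ) (hx : w.1 x ≤ 1) :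
    resC w (algebraMap ℂ K c * x) = c * resC w x := by
  refine resC_unique ?_ ?_
  · rw [map_mul]; exact mul_le_one' (val_alg_le w c) hx
  · have h2 : algebraMap ℂ K c * x - algebraMap ℂ K (c * resC w x)
        = algebraMap ℂ K c * (x - algebraMap ℂ K (resC w x)) := by
      rw [map_mul]; ring
    rw [h2, map_mul]
    exact (mul_le_of_le_one_left' (val_alg_le w c)).trans_lt (resC_spec hx)

theorem resC_eq_zero {w : Place K} {x : K} (hx : w.1 x ≤ 1) : resC w x = 0 ↔ w.1 x < 1 := by
  constructor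
  · intro h
    have h1 := resC_spec hx
    rwa [h, map_zero, sub_zero] at h1
  · intro h
    refine resC_unique hx ?_
    rwa [map_zero, sub_zero]

omit [CurveFacts K] in
theorem val_comb {F : VB K ι} {w : Place K} {x : ι → K} (lam : ι → ℂ) (hx : Mem F w x) :
    w.1 (∑ i, algebraMap ℂ K (lam i) * ((F.g w)⁻¹).1.mulVec x i) ≤ 1 := by
  refine val_sum_le w _ _ _ fun i _ => ?_
  rw [map_mul]
  exact mul_le_one' (val_alg_le w _) (hx i)

/-- the functional -/
noncomputable def fnl (F : VB K ι) (w : Place K) (lam : ι → ℂ) : H0 F →ₗ[ℂ] ℂ where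
  toFun x := resC w (∑ i, algebraMap ℂ K (lam i) * ((F.g w)⁻¹).1.mulVec x.1 i)
  map_add' x y := by
    rw [← resC_add (val_comb lam (x.2 w)) (val_comb lam (y.2 w))]
    congr 1
    rw [← Finset.sum_add_distrib]
    refine Finset.sum_congr rfl fun i _ => ?_
    rw [Submodule.coe_add, Matrix.mulVec_add, Pi.add_apply, mul_add]
  map_smul' c x := by
    rw [RingHom.id_apply, smul_eq_mul, ← resC_smul c (val_comb lam (x.2 w))]
    congr 1
    rw [Finset.mul_sum]
    refine Finset.sum_congr rfl fun i _ => ?_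
    have h1 : ((c • x : H0 F) : ι → K) = (algebraMap ℂ K c) • x.1 := by
      funext j
      rw [Submodule.coe_smul, Pi.smul_apply, Algebra.smul_def, Pi.smul_apply, smul_eq_mul]
    rw [h1, Matrix.mulVec_smul, Pi.smul_apply, smul_eq_mul]
    ring

theorem step_one (F' F'' : VB K ι) (w : Place K) (lam : ι → ℂ)
    (h2 : ∀ v x, Mem F'' v x → Mem F' v x)
    (h3 : ∀ v, v ≠ w → ∀ x, Mem F'' v x ↔ Mem F' v x)
    (h4 : ∀ x, Mem F' w x → (Mem F'' w x ↔
        w.1 (∑ i, algebraMap ℂ K (lam i) * ((F'.g w)⁻¹).1.mulVec x i) < 1))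
    (hfin : Module.Finite ℂ (H0 F'')) :
    Module.Finite ℂ (H0 F') ∧ Module.finrank ℂ (H0 F') ≤ Module.finrank ℂ (H0 F'') + 1 := by
  have hle : H0 F'' ≤ H0 F' := fun x hx v => h2 v x (hx v)
  have hker : LinearMap.ker (fnl F' w lam) = Submodule.comap (H0 F').subtype (H0 F'') := by
    ext x
    rw [LinearMap.mem_ker, Submodule.mem_comap, Submodule.coe_subtype]
    change resC w _ = 0 ↔ _
    rw [resC_eq_zero (val_comb lam (x.2 w)), ← h4 x.1 (x.2 w)]
    constructor
    · intro h v
      rcases eq_or_ne v w with rfl | hv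
      · exact h
      · exact (h3 v hv x.1).2 (x.2 v)
    · intro h
      exact h w
  let e : LinearMap.ker (fnl F' w lam) ≃ₗ[ℂ] H0 F'' :=
    (LinearEquiv.ofEq _ _ hker).trans (Submodule.comapSubtypeEquivOfLe hle)
  have hkf : Module.Finite ℂ (LinearMap.ker (fnl F' w lam)) := Module.Finite.equiv e.symm
  have hqf : Module.Finite ℂ (H0 F' ⧸ LinearMap.ker (fnl F' w lam)) :=
    Module.Finite.equiv (LinearMap.quotKerEquivRange (fnl F' w lam)).symm
  have hF' : Module.Finite ℂ (H0 F') :=
    Module.Finite.of_submodule_quotient (LinearMap.ker (fnl F' w lam))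
  refine ⟨hF', ?_⟩
  have h5 := LinearMap.finrank_range_add_finrank_ker (fnl F' w lam)
  have h6 : Module.finrank ℂ (LinearMap.range (fnl F' w lam)) ≤ 1 :=
    (Submodule.finrank_le _).trans (Module.finrank_self ℂ).le
  have h7 : Module.finrank ℂ (LinearMap.ker (fnl F' w lam)) = Module.finrank ℂ (H0 F'') :=
    e.finrank_eq
  omega

theorem step_aux (F : VB K ι) (hfin : Module.Finite ℂ (H0 F)) (n : ℕ) :
    ∀ F' : VB K ι, (∀ v x, Mem F v x → Mem F' v x) → deg F' - deg F ≤ n →
      Module.Finite ℂ (H0 F') ∧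
        (Module.finrank ℂ (H0 F') : ℤ) ≤ Module.finrank ℂ (H0 F) + (deg F' - deg F) := by
  induction n with
  | zero =>
    intro F' h hn
    have h1 : IsHom F F' (1 : Matrix ι ι K) := by
      rw [isHom_iff]; intro v x hx; rw [Matrix.one_mulVec]; exact h v x hx
    have h2 : deg F ≤ deg F' := deg_le_of_isHom h1 (by rw [Matrix.det_one]; exact one_ne_zero)
    have h3 : H0 F' = H0 F := by
      ext x
      rw [mem_H0, mem_H0]
      exact ⟨fun hx v => mem_of_deg_eq F F' h (by push_cast at hn; linarith) v x (hx v),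
        fun hx v => h v x (hx v)⟩
    rw [h3]
    exact ⟨hfin, by linarith⟩
  | succ n ih =>
    intro F' h hn
    rcases lt_or_ge (deg F) (deg F') with hd | hd
    · obtain ⟨F'', w, lam, hdeg, hsub, h2, h3, h4⟩ := exists_modif F F' h hd
      obtain ⟨h5, h6⟩ := ih F'' hsub (by push_cast at hn; linarith)
      obtain ⟨h7, h8⟩ := step_one F' F'' w lam h2 h3 h4 h5
      refine ⟨h7, ?_⟩
      have h9 : (Module.finrank ℂ (H0 F') : ℤ) ≤ Module.finrank ℂ (H0 F'') + 1 := by
        exact_mod_cast h8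
      linarith
    · exact ih F' h (by have : (0 : ℤ) ≤ n := Int.natCast_nonneg n
                        linarith)

theorem H0_eq_bot {D : Place K →₀ ℤ} (hD : dg D < 0) : H0 ((trivB K ι).twist D) = ⊥ := by
  rw [eq_bot_iff]
  intro x hx
  rw [Submodule.mem_bot]
  by_contra hne
  obtain ⟨i, hi⟩ : ∃ i, x i ≠ 0 := by
    by_contra hcon
    push Not at hcon
    exact hne (funext hcon)
  have h1 : ∀ v : Place K, -(D v) ≤ ord v (x i) := fun v =>
    (val_le_exp v hi (D v)).1 (mem_trivTwist.1 (hx v) i)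
  have hs : (Function.support fun v : Place K => -(D v)).Finite := by
    refine D.hasFiniteSupport.subset fun v hv => ?_
    simp only [Function.mem_support] at hv ⊢
    intro h0; apply hv; rw [h0, neg_zero]
  have h2 : ∑ᶠ v : Place K, -(D v) ≤ ∑ᶠ v : Place K, ord v (x i) :=
    finsum_le_finsum' hs (ord_support _) h1
  rw [finsum_neg_distrib, ← dg_eq_finsum, CurveFacts.prod _ hi] at h2
  linarith

/-- sections of `O(D)` -/
def secEquiv (D : Place K →₀ ℤ) : secD D ≃ₗ[ℂ] H0 (lineB D) where
  toFun f := ⟨fun _ => f.1, mem_secD.1 f.2⟩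
  map_add' _ _ := rfl
  map_smul' _ _ := rfl
  invFun x := ⟨x.1 0, mem_secD.2 (by
    have h : (fun _ => x.1 0 : Fin 1 → K) = x.1 := funext fun i => by
      rw [Subsingleton.elim i 0]
    rw [h]
    exact x.2)⟩
  left_inv _ := rfl
  right_inv x := by
    apply Subtype.ext
    funext i
    rw [Subsingleton.elim i 0]

end HZeroAux

open HZeroAux

theorem exists_incl (E : VB K ι) (c : ℤ) : ∃ D : Place K →₀ ℤ, c ≤ dg D ∧
    ∀ v x, Mem E v x → Mem ((trivB K ι).twist D) v x := by
  classical
  obtain ⟨w⟩ := CurveFacts.ne (K := K)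
  set S := E.finU.toFinset with hS
  let D0 : Place K →₀ ℤ := Finsupp.onFinset S (fun v => if v ∈ S then bnd v (E.g v).1 else 0)
    (fun v hv => by
      by_contra h
      exact hv (if_neg h))
  have hD0 : ∀ v, D0 v = if v ∈ S then bnd v (E.g v).1 else 0 := fun v => rfl
  have hD0n : ∀ v, 0 ≤ D0 v := by
    intro v
    rw [hD0]
    split_ifs
    · exact bnd_nonneg v _
    · exact le_rfl
  refine ⟨D0 + Finsupp.single w |c|, ?_, ?_⟩
  · rw [dg_add, dg_single]
    have h1 := dg_nonneg hD0n
    have h2 := le_abs_self c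
    linarith
  · intro v x hx
    rw [mem_trivTwist]
    intro i
    have h1 : D0 v ≤ (D0 + Finsupp.single w |c|) v := by
      rw [Finsupp.add_apply, Finsupp.single_apply]
      split_ifs
      · have := abs_nonneg c
        linarith
      · linarith
    refine le_trans ?_ (exp_le_exp.2 h1)
    by_cases hv : v ∈ S
    · rw [hD0, if_pos hv]
      exact mem_bound hx i
    · rw [hD0, if_neg hv, exp_zero]
      have hu : Unimod v (E.g v) := by
        by_contra h
        exact hv (by rw [hS]; exact (Set.Finite.mem_toFinset _).2 h)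
      obtain ⟨y, hy, rfl⟩ := mem_iff.1 hx
      exact hu.1.mulVec hy i

theorem h0_fin (E : VB K ι) : Module.Finite ℂ (H0 E) := by
  classical
  obtain ⟨D, -, hD⟩ := exists_incl E 0
  obtain ⟨w⟩ := CurveFacts.ne (K := K)
  have hneg : dg (D + Finsupp.single w (-(|dg D| + 1))) < 0 := by
    rw [dg_add, dg_single]
    have := le_abs_self (dg D)
    linarith
  have h0 : Module.Finite ℂ (H0 ((trivB K ι).twist (D + Finsupp.single w (-(|dg D| + 1))))) := by
    rw [H0_eq_bot hneg]
    infer_instance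
  have hsub : ∀ v x, Mem ((trivB K ι).twist (D + Finsupp.single w (-(|dg D| + 1)))) v x →
      Mem ((trivB K ι).twist D) v x := by
    intro v x hx
    rw [mem_trivTwist] at hx ⊢
    intro i
    refine (hx i).trans (exp_le_exp.2 ?_)
    rw [Finsupp.add_apply, Finsupp.single_apply]
    split_ifs
    · have := abs_nonneg (dg D)
      linarith
    · linarith
  have h1 := (step_aux _ h0 (deg ((trivB K ι).twist D)
    - deg ((trivB K ι).twist (D + Finsupp.single w (-(|dg D| + 1))))).toNat
    ((trivB K ι).twist D) hsub (Int.self_le_toNat _)).1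
  exact Submodule.finiteDimensional_of_le (S₂ := H0 ((trivB K ι).twist D))
    (fun x hx v => hD v x (hx v))

theorem h0_step (F F' : VB K ι) (h : ∀ v x, Mem F v x → Mem F' v x) :
    (Module.finrank ℂ (H0 F') : ℤ) ≤ Module.finrank ℂ (H0 F) + (deg F' - deg F) :=
  (step_aux F (h0_fin F) (deg F' - deg F).toNat F' h (Int.self_le_toNat _)).2

theorem secD_fin (D : Place K →₀ ℤ) : Module.Finite ℂ (secD D) := by
  have := h0_fin (lineB D)
  exact Module.Finite.equiv (secEquiv D).symm

/-- one more pole: `h⁰(D + w) ≤ h⁰(D) + 1` -/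
theorem secD_step (D : Place K →₀ ℤ) (w : Place K) :
    Module.finrank ℂ (secD (D + Finsupp.single w 1)) ≤ Module.finrank ℂ (secD D) + 1 := by
  classical
  rw [(secEquiv D).finrank_eq, (secEquiv (D + Finsupp.single w 1)).finrank_eq]
  have h := h0_step (lineB D) (lineB (D + Finsupp.single w 1)) (fun v x hx => by
    rw [mem_lineB] at hx ⊢
    refine hx.trans (exp_le_exp.2 ?_)
    rw [Finsupp.add_apply, Finsupp.single_apply]
    split_ifs <;> omega)
  rw [deg_lineB, deg_lineB, dg_add, dg_single] at h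
  omega

end Pool.Agent.Lib.BPT
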