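import Pool.Agent.Lib.BPT.Objects

/-!
# Module BPT.LowA: polynomials with bounded degree in each variable

`boxP M c = ∑_α c_α X ^ α` for `c` a vector of coefficients on the exponents `α : σ → Fin (M + 1)`.
`coeff_boxP`: its coefficients. `boxP_add`, `boxP_smul` : linearity (direct from the definition or
from `coeff_boxP`).
`pPoly i = ∑_l π ^ (l - L) X_{(i,l)}` and `pPoly_mul`: the product `pPoly i * boxP M c` has the
coefficient vector `(pbig.mulVec c) (i, ·)` on the exponents `β : σ → Fin (M + 2)`. Proof: compare the coefficients at an exponent `a`: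
`coeff_X_mul'`: the coefficient of `X_{(i,l)} * q` at `a` is that of `q` at `a - e_{(i,l)}` if
`a (i,l) ≠ 0` and `0` otherwise; for an exponent not in the box `M + 1` both sides vanish; for `a = β` in the
box, `a - e_{(i,l)}` is in the box `M` for at most one `α`, and the condition in `pbig` says `β = α + e_{(i,l)}`.
-/

namespace Pool.Agent.Lib.BPT

open Matrix WithZero

variable {K : Type} [Field K] [Algebra ℂ K]

/-- the polynomial with the given coefficients on a box of exponents -/
noncomputable def boxP {σ : Type} [Fintype σ] [DecidableEq σ] (M : ℕ) (c : (σ → Fin (M + 1)) → K) :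
    MvPolynomial σ K :=
  ∑ α, MvPolynomial.monomial (Finsupp.equivFunOnFinite.symm fun s => (α s : ℕ)) (c α)

/-- `p_i(X) = ∑_l π ^ (l - L) X_{(i,l)}` -/
noncomputable def pPoly (k Λ : ℕ) (w : Place K) (L : ℕ) (i : Fin k) :
    MvPolynomial (Fin k × Fin Λ) K :=
  ∑ l : Fin Λ, MvPolynomial.C (unif w ^ ((l : ℤ) - L)) * MvPolynomial.X (i, l)

theorem coeff_boxP {σ : Type} [Fintype σ] [DecidableEq σ] (M : ℕ) (c : (σ → Fin (M + 1)) → K)
    (a : σ →₀ ℕ) : (boxP M c).coeff a =
      if h : ∀ s, a s < M + 1 then c fun s => ⟨a s, h s⟩ else 0 := by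
  unfold boxP
  rw [MvPolynomial.coeff_sum]
  simp only [MvPolynomial.coeff_monomial]
  split_ifs with h
  · rw [Finset.sum_eq_single (fun s => (⟨a s, h s⟩ : Fin (M + 1)))]
    · rw [if_pos]
      ext s
      simp
    · intro β _ hβ
      rw [if_neg]
      intro he
      apply hβ
      funext s
      apply Fin.ext
      have h2 : a s = (β s : ℕ) := by rw [← he]; simp
      exact h2.symm
    · intro h'
      exact absurd (Finset.mem_univ _) h'
  · push Not at h
    obtain ⟨s, hs⟩ := h
    apply Finset.sum_eq_zero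
    intro β _
    rw [if_neg]
    intro he
    have h1 := (β s).2
    have h2 : a s = (β s : ℕ) := by rw [← he]; simp
    omega

namespace LowAAux

theorem coeff_X_mul_boxP {σ : Type} [Fintype σ] [DecidableEq σ] (M : ℕ)
    (c : (σ → Fin (M + 1)) → K) (t : σ) (a : σ →₀ ℕ) : (MvPolynomial.X t * boxP M c).coeff a =
      ∑ α, if (∀ s, a s = (α s : ℕ) + if s = t then 1 else 0) then c α else 0 := by
  unfold boxP
  rw [Finset.mul_sum, MvPolynomial.coeff_sum]
  refine Finset.sum_congr rfl fun α _ => ?_
  rw [MvPolynomial.X, MvPolynomial.monomial_mul, one_mul, MvPolynomial.coeff_monomial]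
  refine if_congr ?_ rfl rfl
  rw [Finsupp.ext_iff]
  refine forall_congr' fun s => ?_
  rw [Finsupp.add_apply, Finsupp.single_apply, Finsupp.equivFunOnFinite_symm_apply_apply]
  constructor
  · intro h
    rw [← h]
    by_cases hst : s = t
    · rw [if_pos hst.symm, if_pos hst, add_comm]
    · rw [if_neg (Ne.symm hst), if_neg hst, zero_add, add_zero]
  · intro h
    rw [h]
    by_cases hst : s = t
    · rw [if_pos hst.symm, if_pos hst, add_comm]
    · rw [if_neg (Ne.symm hst), if_neg hst, zero_add, add_zero]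

theorem coeff_pPoly (k Λ : ℕ) (w : Place K) (L : ℕ) (i : Fin k)
    (q : MvPolynomial (Fin k × Fin Λ) K) (a : Fin k × Fin Λ →₀ ℕ) :
    (pPoly k Λ w L i * q).coeff a =
      ∑ l : Fin Λ, unif w ^ ((l : ℤ) - L) * (MvPolynomial.X (i, l) * q).coeff a := by
  unfold pPoly
  rw [Finset.sum_mul, MvPolynomial.coeff_sum]
  refine Finset.sum_congr rfl fun l _ => ?_
  rw [mul_assoc, MvPolynomial.coeff_C_mul]

end LowAAux

open LowAAux in
theorem pPoly_mul (k Λ : ℕ) (w : Place K) (L M : ℕ) (c : (Fin k × Fin Λ → Fin (M + 1)) → K)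
    (i : Fin k) : pPoly k Λ w L i * boxP M c =
      boxP (M + 1) fun β => (pbig k Λ w L M).mulVec c (i, β) := by
  ext a
  rw [coeff_pPoly, coeff_boxP]
  simp only [coeff_X_mul_boxP]
  split_ifs with h
  · rw [Matrix.mulVec, dotProduct]
    simp only [pbig, Matrix.of_apply, Finset.sum_mul, Finset.mul_sum]
    rw [Finset.sum_comm]
    refine Finset.sum_congr rfl fun α _ => Finset.sum_congr rfl fun l _ => ?_
    rw [mul_ite, mul_zero, ite_mul, zero_mul]
  · apply Finset.sum_eq_zero
    intro l _
    rw [Finset.sum_eq_zero, mul_zero]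
    intro α _
    rw [if_neg]
    intro he
    apply h
    intro s
    have h1 := (α s).2
    rw [he s]
    split_ifs <;> omega

open LowAAux in
/-- if `q` has no coefficients of total degree smaller than that of `a`, then `p_i q` has the
coefficient `0` at `a` -/
theorem coeff_pPoly_mul (k Λ : ℕ) (w : Place K) (L : ℕ) (i : Fin k)
    (q : MvPolynomial (Fin k × Fin Λ) K) (a : Fin k × Fin Λ →₀ ℕ)
    (h : ∀ a', Finsupp.degree a' < Finsupp.degree a → q.coeff a' = 0) :
    (pPoly k Λ w L i * q).coeff a = 0 := by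
  rw [coeff_pPoly]
  apply Finset.sum_eq_zero
  intro l _
  rw [MvPolynomial.coeff_X_mul']
  split_ifs with hs
  · rw [h, mul_zero]
    have hle : Finsupp.single (i, l) 1 ≤ a := by
      rw [Finsupp.single_le_iff]
      exact Nat.one_le_iff_ne_zero.2 (Finsupp.mem_support_iff.1 hs)
    have h1 := congrArg Finsupp.degree (tsub_add_cancel_of_le hle)
    rw [map_add, Finsupp.degree_single] at h1
    omega
  · rw [mul_zero]

end Pool.Agent.Lib.BPT
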