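import Pool.Agent.Lib.BPT.Objects

/-!
# Module BPT.Modif: elementary modifications between two bundles

Let `F_v ⊆ F'_v` for all `v` and `deg F < deg F'`. Put `M_v = (F'.g v)⁻¹ (F.g v)`, `M_v` is regular.
Some place `w` has `v.val det M_w ≠ 1` (otherwise all `M_v` are `Unimod` by `unimod_of_det` and the
determinants of `F.g v`, `F'.g v` have the same orders, so `deg F = deg F'`), i.e.
`w.val (det M_w) < 1`. By `CurveFacts.res` choose complex numbers `m i j` with
`M_w i j - m i j` in the maximal ideal. Then `det m = 0` (the determinant of `m` is congruent to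
`det M_w`; a polynomial identity: `det` of congruent regular matrices is congruent), so there is
`lam : ι → ℂ`, `lam ≠ 0` with `∑ i, lam i * m i j = 0` for all `j` (`Matrix.exists_vecMul_eq_zero_iff`).
Let `i₀` with `lam i₀ ≠ 0`, scale to `lam i₀ = 1`. Let `h ∈ GL_ι(K)` be the matrix
`Matrix.updateRow 1 i₀ r`, `r i₀ = unif w`, `r j = - lam j` for `j ≠ i₀`; its determinant is `unif w`.
`F'' = F'.modAt w h`: `deg F'' = deg F' - 1` (`deg_modAt`, `ord_unif`).
`Mem F'' w x ↔ h⁻¹ (F'.g w)⁻¹ x regular ↔ y := (F'.g w)⁻¹ x` is regular and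
`w.val (∑ lam j y j) < 1`: `y = h z`: `y j = z j` (`j ≠ i₀`), `y i₀ = π z i₀ - ∑_{j ≠ i₀} lam j z j`,
so `∑ lam j y j = π z i₀`.
For `x ∈ F_w`: `y = M_w z`, `z` regular, and `∑ lam i (M_w z) i ≡ ∑ lam i m i j z j = 0`.
-/

namespace Pool.Agent.Lib.BPT

open Matrix WithZero

variable {K : Type} [Field K] [Algebra ℂ K]

namespace ModifAux

theorem mul_lt_one_left {a b : ℤᵐ⁰} (ha : a ≤ 1) (hb : b < 1) : a * b < 1 :=
  (mul_le_of_le_one_left' ha).trans_lt hb

theorem mul_lt_one_right {a b : ℤᵐ⁰} (ha : a < 1) (hb : b ≤ 1) : a * b < 1 :=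
  (mul_le_of_le_one_right' hb).trans_lt ha

theorem val_prod_sub_lt (v : Place K) {α : Type} (s : Finset α) (f g : α → K)
    (hf : ∀ a, v.1 (f a) ≤ 1) (hg : ∀ a, v.1 (g a) ≤ 1) (hfg : ∀ a, v.1 (f a - g a) < 1) :
    v.1 (∏ a ∈ s, f a - ∏ a ∈ s, g a) < 1 := by
  classical
  induction s using Finset.induction_on with
  | empty => simp
  | insert a s ha ih =>
    rw [Finset.prod_insert ha, Finset.prod_insert ha]
    have h : f a * ∏ x ∈ s, f x - g a * ∏ x ∈ s, g x =
        f a * (∏ x ∈ s, f x - ∏ x ∈ s, g x) + (f a - g a) * ∏ x ∈ s, g x := by ring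
    rw [h]
    refine v.1.map_add_lt ?_ ?_
    · rw [map_mul]; exact mul_lt_one_left (hf a) ih
    · rw [map_mul, map_prod]
      exact mul_lt_one_right (hfg a) (Finset.prod_le_one' fun i _ => hg i)

variable {ι : Type} [Fintype ι] [DecidableEq ι]

theorem val_det_sub_lt (v : Place K) (A B : Matrix ι ι K) (hA : IsInt v A) (hB : IsInt v B)
    (hAB : ∀ i j, v.1 (A i j - B i j) < 1) : v.1 (A.det - B.det) < 1 := by
  rw [Matrix.det_apply, Matrix.det_apply, ← Finset.sum_sub_distrib]
  refine v.1.map_sum_lt one_ne_zero fun σ _ => ?_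
  rw [← smul_sub, Units.smul_def, zsmul_eq_mul, map_mul]
  refine mul_lt_one_left ?_ (val_prod_sub_lt v _ _ _ (fun i => hA _ _) (fun i => hB _ _)
    fun i => hAB _ _)
  rcases Int.units_eq_one_or (Equiv.Perm.sign σ) with h | h <;> simp [h, Valuation.map_neg]

theorem det_updateRow_one' (i₀ : ι) (r : ι → K) : (Matrix.updateRow (1 : Matrix ι ι K) i₀ r).det = r i₀ := by
  rw [← Matrix.cramer_transpose_apply, Matrix.transpose_one, Matrix.cramer_one]
  rfl

/-- the transition matrix -/
noncomputable def tr (F F' : VB K ι) (v : Place K) : GL ι K := (F'.g v)⁻¹ * F.g v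

theorem tr_int {F F' : VB K ι} (h : ∀ v x, Mem F v x → Mem F' v x) (v : Place K) :
    IsInt v (tr F F' v).1 := by
  have h1 : IsHom F F' (1 : Matrix ι ι K) := by
    rw [isHom_iff]; intro v x hx; rw [Matrix.one_mulVec]; exact h v x hx
  have h2 := h1 v
  rw [Matrix.mul_one] at h2
  exact h2

theorem ord_det_tr (F F' : VB K ι) (v : Place K) :
    ord v (tr F F' v).1.det = ord v (F.g v).1.det - ord v (F'.g v).1.det := by
  have h1 : (F'.g v).1.det * (tr F F' v).1.det = (F.g v).1.det := by
    rw [← Matrix.det_mul]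
    congr 1
    change ((F'.g v) * ((F'.g v)⁻¹ * F.g v)).1 = _
    rw [mul_inv_cancel_left]
  rw [← h1, ord_mul v (det_ne_zero _) (det_ne_zero _)]
  ring

theorem ord_det_nonneg {F F' : VB K ι} (h : ∀ v x, Mem F v x → Mem F' v x) (v : Place K) :
    0 ≤ ord v (tr F F' v).1.det := (val_le_one v (det_ne_zero _)).1 (tr_int h v).det

theorem deg_sub_deg (F F' : VB K ι) :
    deg F' - deg F = ∑ᶠ v : Place K, ord v (tr F F' v).1.det := by
  unfold deg
  rw [finsum_congr (ord_det_tr F F'), finsum_sub_distrib (deg_support F) (deg_support F')]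
  ring

theorem support_tr (F F' : VB K ι) :
    (Function.support fun v : Place K => ord v (tr F F' v).1.det).Finite := by
  refine ((deg_support F).union (deg_support F')).subset ?_
  intro v hv
  by_contra hcon
  apply hv
  have h1 : ord v (F.g v).1.det = 0 := by by_contra h; exact hcon (Or.inl h)
  have h2 : ord v (F'.g v).1.det = 0 := by by_contra h; exact hcon (Or.inr h)
  change ord v (tr F F' v).1.det = 0
  rw [ord_det_tr, h1, h2, sub_zero]

theorem mem_tr {F F' : VB K ι} {v : Place K} (hu : Unimod v (tr F F' v)) {x : ι → K}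
    (hx : Mem F' v x) : Mem F v x := by
  intro i
  have h : ((F.g v)⁻¹).1 = ((tr F F' v)⁻¹).1 * ((F'.g v)⁻¹).1 := by
    rw [← Units.val_mul]
    congr 1
    unfold tr
    rw [_root_.mul_inv_rev, inv_inv, mul_assoc, mul_inv_cancel, mul_one]
  rw [h, ← Matrix.mulVec_mulVec]
  exact hu.2.mulVec hx i

end ModifAux

open ModifAux

variable [CurveFacts K]

variable {ι : Type} [Fintype ι] [DecidableEq ι]

/-- If `F ⊂ F'` and the degrees differ there is `F ⊆ F'' ⊂ F'` with `deg F'' = deg F' - 1`, the kernel of a functional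
on the fibre of `F'` at one point. -/
theorem exists_modif (F F' : VB K ι) (h : ∀ v x, Mem F v x → Mem F' v x) (hd : deg F < deg F') :
    ∃ (F'' : VB K ι) (w : Place K) (lam : ι → ℂ), deg F'' = deg F' - 1 ∧
      (∀ v x, Mem F v x → Mem F'' v x) ∧ (∀ v x, Mem F'' v x → Mem F' v x) ∧
      (∀ v, v ≠ w → ∀ x, Mem F'' v x ↔ Mem F' v x) ∧
      ∀ x, Mem F' w x → (Mem F'' w x ↔
        w.1 (∑ i, algebraMap ℂ K (lam i) * ((F'.g w)⁻¹).1.mulVec x i) < 1) := by
  classical
  -- the place
  obtain ⟨w, hw⟩ : ∃ w : Place K, ord w (tr F F' w).1.det ≠ 0 := by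
    by_contra hcon
    push Not at hcon
    have h1 := deg_sub_deg F F'
    rw [finsum_congr hcon, finsum_zero] at h1
    omega
  have hw1 : w.1 (tr F F' w).1.det < 1 := by
    refine lt_of_le_of_ne (tr_int h w).det fun h1 => hw ?_
    exact (val_eq_one w (det_ne_zero _)).1 h1
  -- residues
  set M := (tr F F' w).1 with hM
  have hMi : IsInt w M := tr_int h w
  have hres : ∀ i j, ∃ c : ℂ, w.1 (M i j - algebraMap ℂ K c) < 1 := fun i j =>
    CurveFacts.res w _ (hMi i j)
  choose m hm using hres
  have hdet : Matrix.det (Matrix.of m) = 0 := by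
    by_contra hne
    have h1 : w.1 ((Matrix.of m).map (algebraMap ℂ K)).det = 1 := by
      have : ((Matrix.of m).map (algebraMap ℂ K)).det = algebraMap ℂ K (Matrix.of m).det := by
        rw [RingHom.map_det]; rfl
      rw [this]
      exact val_alg w hne
    have h2 := val_det_sub_lt w M ((Matrix.of m).map (algebraMap ℂ K)) hMi
      (fun i j => val_alg_le w _) (fun i j => hm i j)
    have h3 : w.1 ((Matrix.of m).map (algebraMap ℂ K)).det < 1 := by
      have : ((Matrix.of m).map (algebraMap ℂ K)).det =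
          M.det - (M.det - ((Matrix.of m).map (algebraMap ℂ K)).det) := by ring
      rw [this]
      exact w.1.map_sub_lt hw1 h2
    exact absurd h1 h3.ne
  obtain ⟨lam0, hlam0, hvm⟩ := Matrix.exists_vecMul_eq_zero_iff.2 hdet
  obtain ⟨i₀, hi₀⟩ : ∃ i, lam0 i ≠ 0 := by
    by_contra hcon
    push Not at hcon
    exact hlam0 (funext hcon)
  set lam : ι → ℂ := fun i => lam0 i / lam0 i₀ with hlam
  have hlam1 : lam i₀ = 1 := div_self hi₀
  have hlm : ∀ j, ∑ i, lam i * m i j = 0 := by
    intro j
    have h1 : ∑ i, lam0 i * m i j = 0 := congrFun hvm j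
    have h2 : ∑ i, lam i * m i j = (∑ i, lam0 i * m i j) / lam0 i₀ := by
      rw [Finset.sum_div]
      exact Finset.sum_congr rfl fun i _ => by rw [hlam]; ring
    rw [h2, h1, zero_div]
  -- the modification
  set r : ι → K := fun j => if j = i₀ then unif w else -algebraMap ℂ K (lam j) with hr
  have hdh : (Matrix.updateRow (1 : Matrix ι ι K) i₀ r).det = unif w := by
    rw [det_updateRow_one', hr]; simp
  set hh : GL ι K := Matrix.GeneralLinearGroup.mkOfDetNeZero (Matrix.updateRow (1 : Matrix ι ι K) i₀ r)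
    (by rw [hdh]; exact unif_ne_zero w) with hhh
  have hh1 : hh.1 = Matrix.updateRow (1 : Matrix ι ι K) i₀ r := rfl
  have hunif : w.1 (unif w) ≤ 1 := by
    rw [val_unif, ← exp_zero, exp_le_exp]; norm_num
  have hri : ∀ j, w.1 (r j) ≤ 1 := by
    intro j
    rw [hr]
    dsimp only
    split_ifs
    · exact hunif
    · rw [Valuation.map_neg]; exact val_alg_le w _
  have hhi : IsInt w hh.1 := by
    intro i j
    rw [hh1, Matrix.updateRow_apply]
    split_ifs
    · exact hri j
    · exact IsInt.one i j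
  have hmv : ∀ z : ι → K, ∀ j, j ≠ i₀ → hh.1.mulVec z j = z j := by
    intro z j hj
    rw [hh1, Matrix.mulVec, dotProduct]
    simp [Matrix.updateRow_apply, hj, Matrix.one_apply]
  have hmv0 : ∀ z : ι → K, ∑ j, algebraMap ℂ K (lam j) * hh.1.mulVec z j = unif w * z i₀ := by
    intro z
    have h1 : hh.1.mulVec z i₀ = ∑ j, r j * z j := by
      rw [hh1, Matrix.mulVec, dotProduct]
      simp [Matrix.updateRow_apply]
    rw [← Finset.add_sum_erase _ _ (Finset.mem_univ i₀), hlam1, map_one, one_mul, h1,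
      ← Finset.add_sum_erase _ _ (Finset.mem_univ i₀), add_assoc, ← Finset.sum_add_distrib]
    have h2 : r i₀ = unif w := by rw [hr]; simp
    rw [h2]
    have h3 : ∑ x ∈ Finset.univ.erase i₀, (r x * z x + algebraMap ℂ K (lam x) * hh.1.mulVec z x) = 0 := by
      refine Finset.sum_eq_zero fun x hx => ?_
      have hx' := (Finset.mem_erase.1 hx).1
      rw [hmv z x hx']
      have : r x = -algebraMap ℂ K (lam x) := by rw [hr]; simp [hx']
      rw [this]; ring
    rw [h3, add_zero]
  have hne : ∀ v, v ≠ w → ∀ x, Mem (F'.modAt w hh) v x ↔ Mem F' v x := by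
    intro v hv x
    unfold Mem
    rw [modAt_g_ne F' hh hv]
  -- coordinates
  have hy : ∀ x : ι → K, ((F'.g w)⁻¹).1.mulVec x =
      hh.1.mulVec ((((F'.modAt w hh).g w)⁻¹).1.mulVec x) := by
    intro x
    rw [modAt_g_self, _root_.mul_inv_rev, Units.val_mul, Matrix.mulVec_mulVec, ← Matrix.mul_assoc,
      Units.mul_inv, Matrix.one_mul]
  have hself : ∀ x, Mem F' w x → (Mem (F'.modAt w hh) w x ↔
        w.1 (∑ i, algebraMap ℂ K (lam i) * ((F'.g w)⁻¹).1.mulVec x i) < 1) := by
    intro x hx
    set z := (((F'.modAt w hh).g w)⁻¹).1.mulVec x with hz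
    have hyz := hy x
    rw [← hz] at hyz
    rw [hyz, hmv0, map_mul, val_unif]
    constructor
    · intro hF
      have h1 : w.1 (z i₀) ≤ 1 := hF i₀
      refine mul_lt_one_right ?_ h1
      rw [← exp_zero, exp_lt_exp]; norm_num
    · intro hlt i
      change w.1 (z i) ≤ 1
      by_cases hi : i = i₀
      · rw [hi]
        rcases eq_or_ne (z i₀) 0 with h0 | h0
        · rw [h0]; simp
        · rw [val_eq w h0, ← exp_add, ← exp_zero, exp_lt_exp] at hlt
          rw [val_le_one w h0]
          omega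
      · have h1 := hx i
        rw [hyz, hmv z i hi] at h1
        exact h1
  have hsub : ∀ v x, Mem (F'.modAt w hh) v x → Mem F' v x := by
    intro v x hx
    rcases eq_or_ne v w with rfl | hv
    · intro i
      rw [hy x]
      exact hhi.mulVec hx i
    · exact (hne v hv x).1 hx
  refine ⟨F'.modAt w hh, w, lam, ?_, ?_, hsub, hne, hself⟩
  · rw [deg_modAt, hh1, hdh, ord_unif]
  · intro v x hx
    rcases eq_or_ne v w with rfl | hv
    · rw [hself x (h v x hx)]
      obtain ⟨z, hz, rfl⟩ := mem_iff.1 hx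
      have h1 : ((F'.g v)⁻¹).1.mulVec ((F.g v).1.mulVec z) = M.mulVec z := by
        rw [Matrix.mulVec_mulVec]; rfl
      rw [h1]
      have h2 : ∑ i, algebraMap ℂ K (lam i) * M.mulVec z i =
          ∑ j, (∑ i, algebraMap ℂ K (lam i) * (M i j - algebraMap ℂ K (m i j))) * z j := by
        have h3 : ∀ j, ∑ i, algebraMap ℂ K (lam i) * (M i j - algebraMap ℂ K (m i j)) =
            ∑ i, algebraMap ℂ K (lam i) * M i j := by
          intro j
          have h4 : ∑ i, algebraMap ℂ K (lam i) * algebraMap ℂ K (m i j) = 0 := by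
            have := congrArg (algebraMap ℂ K) (hlm j)
            rw [map_sum, map_zero] at this
            rw [← this]
            exact Finset.sum_congr rfl fun i _ => by rw [map_mul]
          simp only [mul_sub, Finset.sum_sub_distrib]
          rw [h4, sub_zero]
        simp only [h3]
        simp only [Matrix.mulVec, dotProduct, Finset.mul_sum, Finset.sum_mul]
        rw [Finset.sum_comm]
        exact Finset.sum_congr rfl fun j _ => Finset.sum_congr rfl fun i _ => by ring
      rw [h2]
      refine v.1.map_sum_lt one_ne_zero fun j _ => ?_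
      rw [map_mul]
      refine mul_lt_one_right (v.1.map_sum_lt one_ne_zero fun i _ => ?_) (hz j)
      rw [map_mul]
      exact mul_lt_one_left (val_alg_le v _) (hm i j)
    · exact (hne v hv x).2 (h v x hx)

/-- If `F ⊆ F'` and the degrees agree then `F = F'`. -/
theorem mem_of_deg_eq (F F' : VB K ι) (h : ∀ v x, Mem F v x → Mem F' v x) (hd : deg F' ≤ deg F) :
    ∀ v x, Mem F' v x → Mem F v x := by
  intro v x hx
  have h0 : ord v (tr F F' v).1.det = 0 := by
    by_contra hne
    have h1 := deg_sub_deg F F'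
    have h2 : 0 < ∑ᶠ v : Place K, ord v (tr F F' v).1.det :=
      finsum_pos (fun u => ord_det_nonneg h u)
        ⟨v, lt_of_le_of_ne (ord_det_nonneg h v) (Ne.symm hne)⟩ (support_tr F F')
    omega
  exact mem_tr (unimod_of_det (tr_int h v) ((val_eq_one v (det_ne_zero _)).2 h0)) hx

end Pool.Agent.Lib.BPT
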