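import Pool.Agent.Lib.BPT.Constr

/-!
# Objects of the proof: global sections, vanishing of `H¹`, exact sequences, the normal forms `nf`
and the big bundle `bigG`
-/

namespace Pool.Agent.Lib.BPT

open Matrix WithZero

variable {K : Type} [Field K] [Algebra ℂ K]

variable {ι κ : Type} [Fintype ι] [DecidableEq ι] [Fintype κ] [DecidableEq κ]

/-- the global sections of `E` -/
def H0 (E : VB K ι) : Submodule ℂ (ι → K) where
  carrier := {x | ∀ v, Mem E v x}
  add_mem' := fun ha hb v => (ha v).add (hb v)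
  zero_mem' := fun v => Mem.zero E v
  smul_mem' := fun c x hx v => by
    have h : c • x = (algebraMap ℂ K c) • x := by
      funext i
      rw [Pi.smul_apply, Pi.smul_apply, Algebra.smul_def, smul_eq_mul]
    rw [h]
    exact (hx v).smul (val_alg_le v c)

theorem mem_H0 {E : VB K ι} {x : ι → K} : x ∈ H0 E ↔ ∀ v, Mem E v x := Iff.rfl

/-- `H¹(F) = 0` in adelic form -/
def NS (F : VB K ι) : Prop :=
  ∀ x : Place K → ι → K, {v | x v ≠ 0}.Finite → ∃ h : ι → K, ∀ v, Mem F v (h - x v)

/-- `0 → N → E → Q → 0` is an exact sequence of bundles, the maps are the matrices `A` and `B` -/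
structure Exact {a b : ℕ} (N : VB K (Fin a)) (E : VB K ι) (Q : VB K (Fin b))
    (A : Matrix ι (Fin a) K) (B : Matrix (Fin b) ι K) : Prop where
  inj : Function.Injective A.mulVec
  surj : Function.Surjective B.mulVec
  exact : ∀ x, B.mulVec x = 0 ↔ ∃ y, A.mulVec y = x
  sub : ∀ v x, Mem N v x ↔ Mem E v (A.mulVec x)
  hom : ∀ v x, Mem E v x → Mem Q v (B.mulVec x)
  lift : ∀ v z, Mem Q v z → ∃ x, Mem E v x ∧ B.mulVec x = z
  deg_add : deg E = deg N + deg Q

/-! ## block triangular matrices -/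

section blocks

variable {α β : Type} [Fintype α] [DecidableEq α] [Fintype β] [DecidableEq β]

/-- the matrix `[[a I, Y], [0, c I]]` -/
noncomputable def triGL (a c : K) (ha : a ≠ 0) (hc : c ≠ 0) (Y : Matrix α β K) : GL (α ⊕ β) K where
  val := Matrix.fromBlocks (a • 1) Y 0 (c • 1)
  inv := Matrix.fromBlocks (a⁻¹ • 1) (-((a⁻¹ * c⁻¹) • Y)) 0 (c⁻¹ • 1)
  val_inv := by
    rw [Matrix.fromBlocks_multiply, ← Matrix.fromBlocks_one]
    congr 1
    · rw [smul_mul_smul_comm, mul_inv_cancel₀ ha, one_smul, one_mul, Matrix.mul_zero, add_zero]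
    · rw [Matrix.mul_neg, Matrix.smul_mul, Matrix.one_mul, smul_smul, ← mul_assoc,
        mul_inv_cancel₀ ha, one_mul, Matrix.mul_smul, Matrix.mul_one, neg_add_cancel]
    · rw [Matrix.zero_mul, Matrix.mul_zero, add_zero]
    · rw [smul_mul_smul_comm, mul_inv_cancel₀ hc, one_smul, one_mul, Matrix.zero_mul, zero_add]
  inv_val := by
    rw [Matrix.fromBlocks_multiply, ← Matrix.fromBlocks_one]
    congr 1
    · rw [smul_mul_smul_comm, inv_mul_cancel₀ ha, one_smul, one_mul, Matrix.mul_zero, add_zero]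
    · rw [Matrix.neg_mul, Matrix.mul_smul, Matrix.mul_one, smul_smul, mul_comm c, mul_assoc,
        inv_mul_cancel₀ hc, mul_one, Matrix.smul_mul, Matrix.one_mul, add_neg_cancel]
    · rw [Matrix.zero_mul, Matrix.mul_zero, add_zero]
    · rw [smul_mul_smul_comm, inv_mul_cancel₀ hc, one_smul, one_mul, Matrix.zero_mul, zero_add]

open Classical in
/-- the bundle on `α ⊕ β` with the standard stalk away from `w` and the stalk with the basis
`[[π ^ m I, π ^ (-b) Y], [0, π ^ (-b) I]]` at `w` (`π = unif w`) -/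
noncomputable def extB (w : Place K) (m b : ℕ) (Y : Matrix α β K) : VB K (α ⊕ β) where
  g v := if v = w then triGL (unif w ^ (m : ℤ)) (unif w ^ (-(b : ℤ)))
      (zpow_ne_zero _ (unif_ne_zero w)) (zpow_ne_zero _ (unif_ne_zero w))
      ((unif w ^ (-(b : ℤ))) • Y) else 1
  fin := by
    refine (Set.finite_singleton w).subset ?_
    intro v hv
    by_contra hcon
    apply hv
    have hvw : v ≠ w := fun h => hcon h
    change Unimod v _
    rw [if_neg hvw]
    exact Unimod.one

end blocks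

/-- `p(u)_i = ∑_{l < Λ} u_{i,l} π ^ (l - L)` as a column -/
noncomputable def pcol {k Λ : ℕ} (w : Place K) (L : ℕ) (u : Fin k × Fin Λ → ℂ) :
    Matrix (Fin k) (Fin 1) K :=
  Matrix.of fun i _ => ∑ l : Fin Λ, algebraMap ℂ K (u (i, l)) * unif w ^ ((l : ℤ) - L)

/-- the normal form -/
noncomputable def nf {k Λ : ℕ} (w : Place K) (m b L : ℕ) (u : Fin k × Fin Λ → ℂ) :
    VB K (Fin k ⊕ Fin 1) := extB w m b (pcol w L u)

/-- The matrix of the multiplication by `p_i(U) = ∑_l U_{i,l} π ^ (l - L)` on the polynomials in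
`U = (U_{i,l})` of degree `≤ M` in each variable: the entry at `((i, β), α)` is `π ^ (l - L)` if
`β = α + e_{i,l}`. -/
noncomputable def pbig (k Λ : ℕ) (w : Place K) (L M : ℕ) :
    Matrix (Fin k × (Fin k × Fin Λ → Fin (M + 2))) (Fin k × Fin Λ → Fin (M + 1)) K :=
  Matrix.of fun x α => ∑ l : Fin Λ,
    if (∀ s, (x.2 s : ℕ) = α s + if s = (x.1, l) then 1 else 0) then unif w ^ ((l : ℤ) - L) else 0

/-- the big bundle -/
noncomputable def bigG (k Λ : ℕ) (w : Place K) (m b L M : ℕ) :
    VB K ((Fin k × (Fin k × Fin Λ → Fin (M + 2))) ⊕ (Fin k × Fin Λ → Fin (M + 1))) :=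
  extB w m b (pbig k Λ w L M)

end Pool.Agent.Lib.BPT
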