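import Pool.Agent.Lib.BPT.Basic

/-!
# Module BPT.PlA: function fields of curves, the residue fields are `ℂ`

Let `t ∈ K` be transcendental with `K` finite over `ℂ(t)` (`IsCurveField`).

`algebraic_over`: if `f ∈ K` is transcendental over `ℂ` then `K` is algebraic over `ℂ(f)` (the
transcendence degree is one: `f` is algebraic over `ℂ(t)`, so `t` is algebraic over `ℂ(f)`; Mathlib:
`IsTranscendenceBasis`, `AlgebraicIndependent`, `Algebra.trdeg`, ...) and then finite: `K` is
generated as a field over `ℂ` by `t` and a finite basis of `K / ℂ(t)`, finitely many elements, all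
algebraic over `ℂ(f)`.

`res_of`: let `v.val x ≤ 1`. Suppose `v.val (x - c) = 1` for all `c : ℂ` (it is always `≤ 1`). Then
`v.val (P(x)) = 1` for all `P ∈ ℂ[X]`, `P ≠ 0` (split `P`, `IsAlgClosed ℂ`), hence `x` is
transcendental and `v.val = 1` on `ℂ(x)ˣ`. By the previous lemma each `y ∈ K` is algebraic over
`ℂ(x)`; take (as `v.val` is surjective) `y` with `v.val y = exp (-1) < 1`, `y ≠ 0`, with minimal
polynomial `∑ a_i y ^ i = 0`, `a_0 ≠ 0`, `a_i ∈ ℂ(x)` (all `v.val a_i ≤ 1`): then
`1 = v.val a_0 = v.val (∑_{i ≥ 1} a_i y ^ i) < 1`, a contradiction.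

`exists_trans`: for each place there is a transcendental `f` with `v.val f < 1` : any `f` with
`v.val f = exp (-1)`; algebraic elements over `ℂ` are in `ℂ`, where `v.val` is `0` or `1`.
-/

namespace Pool.Agent.Lib.BPT

open Matrix WithZero

variable {K : Type} [Field K] [Algebra ℂ K]

open scoped IntermediateField.algebraAdjoinAdjoin in
theorem algebraic_over (hK : IsCurveField K) (f : K) (hf : Transcendental ℂ f) :
    Algebra.IsAlgebraic (IntermediateField.adjoin ℂ {f}) K ∧
      Module.Finite (IntermediateField.adjoin ℂ {f}) K := by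
  obtain ⟨t, ht, hfin⟩ := hK
  have halg : Algebra.IsAlgebraic (IntermediateField.adjoin ℂ {t}) K := inferInstance
  have halg' : Algebra.IsAlgebraic (Algebra.adjoin ℂ {t}) K :=
    (IsFractionRing.comap_isAlgebraic_iff (A := Algebra.adjoin ℂ {t})
      (K := IntermediateField.adjoin ℂ {t})).mpr halg
  have htr : Algebra.trdeg ℂ K ≤ 1 := by
    have := Algebra.IsAlgebraic.trdeg_le_cardinalMk ℂ ({t} : Set K)
    simpa using this
  have hind : AlgebraicIndependent ℂ (fun _ : Unit => f) := by
    rw [algebraicIndependent_unique_type_iff]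
    exact hf
  have hb : IsTranscendenceBasis ℂ (fun _ : Unit => f) :=
    hind.isTranscendenceBasis_of_trdeg_le_of_finite (by simpa using htr)
  have h1 : Algebra.IsAlgebraic (IntermediateField.adjoin ℂ {f}) K := by
    have := hb.isAlgebraic_field
    rwa [Set.range_const] at this
  refine ⟨h1, ?_⟩
  have e1 : Algebra.EssFiniteType ℂ (IntermediateField.adjoin ℂ {t}) :=
    IntermediateField.essFiniteType_iff.mpr ⟨{t}, by simp⟩
  have e2 : Algebra.EssFiniteType ℂ K :=
    Algebra.EssFiniteType.comp ℂ (IntermediateField.adjoin ℂ {t}) K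
  have e3 : Algebra.EssFiniteType (IntermediateField.adjoin ℂ {f}) K :=
    Algebra.EssFiniteType.of_comp ℂ (IntermediateField.adjoin ℂ {f}) K
  exact Algebra.finite_of_essFiniteType_of_isAlgebraic

theorem trans_of_val (v : Place K) (f : K) (h0 : f ≠ 0) (hf : v.1 f ≠ 1) : Transcendental ℂ f := by
  intro halg
  have hint : IsIntegral ℂ f := halg.isIntegral
  have hdeg := IsAlgClosed.degree_eq_one_of_irreducible ℂ (minpoly.irreducible hint)
  obtain ⟨c, rfl⟩ := minpoly.mem_range_of_degree_eq_one ℂ f hdeg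
  apply hf
  apply v.triv
  rintro rfl
  exact h0 (map_zero _)

theorem res_of (hK : IsCurveField K) (v : Place K) (x : K) (hx : v.1 x ≤ 1) :
    ∃ c : ℂ, v.1 (x - algebraMap ℂ K c) < 1 := by
  by_contra hcon
  push Not at hcon
  have hc : ∀ c : ℂ, v.1 (algebraMap ℂ K c) ≤ 1 := by
    intro c
    rcases eq_or_ne c 0 with rfl | h
    · simp
    · exact (v.triv c h).le
  have h1 : ∀ c : ℂ, v.1 (x - algebraMap ℂ K c) = 1 := fun c =>
    le_antisymm ((v.1.map_sub x _).trans (max_le hx (hc c))) (hcon c)
  -- nonzero polynomials in `x` are units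
  have hP : ∀ P : Polynomial ℂ, P ≠ 0 → v.1 (Polynomial.aeval x P) = 1 := by
    intro P hP0
    have hs := (IsAlgClosed.splits P).eq_prod_roots
    have hl : P.leadingCoeff ≠ 0 := Polynomial.leadingCoeff_ne_zero.mpr hP0
    rw [hs, map_mul, Polynomial.aeval_C, map_mul, v.triv _ hl, one_mul, map_multiset_prod,
      map_multiset_prod]
    apply Multiset.prod_eq_one
    intro z hz
    rw [Multiset.mem_map] at hz
    obtain ⟨w, hw, rfl⟩ := hz
    rw [Multiset.mem_map] at hw
    obtain ⟨u, hu, rfl⟩ := hw
    rw [Multiset.mem_map] at hu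
    obtain ⟨c, _, rfl⟩ := hu
    simpa using h1 c
  have htr : Transcendental ℂ x := by
    rintro ⟨P, hP0, hPx⟩
    have := hP P hP0
    rw [hPx, map_zero] at this
    exact zero_ne_one this
  obtain ⟨halg, -⟩ := algebraic_over hK x htr
  have hF : ∀ a : IntermediateField.adjoin ℂ {x}, a ≠ 0 → v.1 (a : K) = 1 := by
    rintro ⟨a, ha⟩ ha0
    obtain ⟨r, s, rfl⟩ := (IntermediateField.mem_adjoin_simple_iff ℂ a).mp ha
    have hr : r ≠ 0 := by
      rintro rfl
      apply ha0
      apply Subtype.ext
      simp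
    have hs : s ≠ 0 := by
      rintro rfl
      apply ha0
      apply Subtype.ext
      simp
    change v.1 (Polynomial.aeval x r / Polynomial.aeval x s) = 1
    rw [map_div₀, hP r hr, hP s hs, div_one]
  have hF' : ∀ a : IntermediateField.adjoin ℂ {x}, v.1 (a : K) ≤ 1 := by
    intro a
    rcases eq_or_ne a 0 with rfl | h
    · simp
    · exact (hF a h).le
  obtain ⟨y, hy⟩ := v.surj (exp (-1))
  have hy1 : v.1 y < 1 := by
    rw [hy, ← exp_zero, exp_lt_exp]
    norm_num
  have hy0 : y ≠ 0 := by
    rintro rfl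
    rw [map_zero] at hy
    exact exp_ne_zero hy.symm
  have hint : IsIntegral (IntermediateField.adjoin ℂ {x}) y :=
    (Algebra.IsAlgebraic.isAlgebraic y).isIntegral
  set P := minpoly (IntermediateField.adjoin ℂ {x}) y with hPdef
  have hP0 : P.coeff 0 ≠ 0 := minpoly.coeff_zero_ne_zero hint hy0
  have hPy : Polynomial.aeval y P = 0 := minpoly.aeval _ _
  have hsplit : Polynomial.aeval y P.divX * y + (P.coeff 0 : K) = 0 := by
    have := congrArg (Polynomial.aeval y) P.divX_mul_X_add
    rw [hPy, map_add, map_mul, Polynomial.aeval_X, Polynomial.aeval_C] at this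
    exact this
  have hd : v.1 (Polynomial.aeval y P.divX) ≤ 1 := by
    rw [Polynomial.aeval_eq_sum_range]
    apply Valuation.map_sum_le
    intro i _
    rw [Algebra.smul_def, map_mul, map_pow]
    exact mul_le_one' (hF' _) (pow_le_one' hy1.le _)
  have hcoeff : (P.coeff 0 : K) = -(Polynomial.aeval y P.divX * y) := by
    rw [eq_neg_iff_add_eq_zero, add_comm]
    exact hsplit
  have := hF _ hP0
  rw [hcoeff, Valuation.map_neg, map_mul] at this
  have h2 : v.1 (Polynomial.aeval y P.divX) * v.1 y < 1 :=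
    (mul_le_mul_left hd (v.1 y)).trans_lt (by rwa [one_mul])
  exact h2.ne this

end Pool.Agent.Lib.BPT
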