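import Pool.Agent.Lib.BPT.PlEquiv

/-!
# Module BPT.PlB: zeros of a transcendental function

For `f ∈ K` transcendental over `ℂ` make `K` an algebra over `ℂ[X]` by `X ↦ f`
(`(Polynomial.aeval f).toAlgebra`) and over `RatFunc ℂ` (`RatFunc.lift...` or `IsFractionRing.lift`, the
injectivity is the transcendence); `K` is finite over `RatFunc ℂ` by `algebraic_over` (of PlA; the
image of `RatFunc ℂ` in `K` is `IntermediateField.adjoin ℂ {f}`, e.g. the equivalence
`RatFunc ℂ ≃ₐ adjoin ℂ {f}`), and `finrank (RatFunc ℂ) K = finrank (adjoin ℂ {f}) K`. All instances are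
local (`letI`, `haveI`) in the proofs. (`algebraic_over` gives an algebraic and finite extension.)

`zeros_finite`: by `P62g.val_finite` (`F = ℂ`, `L = K`) applied to `x` and `place_equiv`, the set of the
`v` with `v.val f ≤ 1` and `v.val x ≠ 1` is finite.
`zeros_count`: by `P62g.sum_ord` applied to `x = f` and `place_equiv` (`finsum` over the equivalence, for `v.val f ≤ 1`
with `v.val f = 1` the term is `0`), the sum over the `v` with `v.val f < 1` of `ord v f` is
`(Algebra.norm (RatFunc ℂ) f).intDegree = (X ^ n).intDegree = n`, `n = finrank (RatFunc ℂ) K`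
(`Algebra.norm_algebraMap`).
`places_ne`: `IsCurveField` gives `t` transcendental; by `zeros_count` for `t` the sum is
`≥ 1` (the rank of the nonzero finite dimensional `K`), so it is not an empty sum.
-/

namespace Pool.Agent.Lib.BPT

open Matrix WithZero

variable {K : Type} [Field K] [Algebra ℂ K]

namespace PlBAux

open Polynomial IsDedekindDomain

section gen

variable [Algebra ℂ[X] K] [IsScalarTower ℂ ℂ[X] K]
  [Algebra (RatFunc ℂ) K] [IsScalarTower ℂ[X] (RatFunc ℂ) K] [FiniteDimensional (RatFunc ℂ) K]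

theorem zf (x : K) (hx : x ≠ 0) :
    {v : Place K | v.1 (algebraMap ℂ[X] K X) ≤ 1 ∧ v.1 x ≠ 1}.Finite := by
  obtain ⟨e, he⟩ := place_equiv (K := K)
  have h1 := P62g.val_finite (F := ℂ) (L := K) x hx
  have h2 : {v : {v : Place K // v.1 (algebraMap ℂ[X] K X) ≤ 1} | v.1.1 x ≠ 1}.Finite := by
    have h3 : {v : {v : Place K // v.1 (algebraMap ℂ[X] K X) ≤ 1} | v.1.1 x ≠ 1} =
        e ⁻¹' {p | p.valuation K x ≠ 1} := by
      ext v
      simp only [Set.mem_setOf_eq, Set.mem_preimage, he]
    rw [h3]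
    exact h1.preimage e.injective.injOn
  refine (h2.image Subtype.val).subset ?_
  rintro v ⟨hv1, hv2⟩
  exact ⟨⟨v, hv1⟩, hv2, rfl⟩

theorem zc (hf0 : (algebraMap ℂ[X] K X) ≠ 0) :
    ∑ᶠ (v : Place K) (_ : v.1 (algebraMap ℂ[X] K X) < 1), ord v (algebraMap ℂ[X] K X) =
      (Module.finrank (RatFunc ℂ) K : ℤ) := by
  obtain ⟨e, he⟩ := place_equiv (K := K)
  have h1 := P62g.sum_ord (F := ℂ) (L := K) (algebraMap ℂ[X] K X) hf0
  have h2 : Algebra.norm (RatFunc ℂ) (algebraMap ℂ[X] K X) =
      (algebraMap ℂ[X] (RatFunc ℂ) (X ^ Module.finrank (RatFunc ℂ) K)) := by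
    rw [IsScalarTower.algebraMap_apply ℂ[X] (RatFunc ℂ) K, Algebra.norm_algebraMap, map_pow]
  rw [h2, RatFunc.intDegree_polynomial, natDegree_X_pow] at h1
  rw [← h1, ← finsum_comp_equiv e]
  simp only [he]
  set f := algebraMap ℂ[X] K X with hf
  have h3 : ∑ᶠ (v : {v : Place K // v.1 f ≤ 1}), -(WithZero.log (v.1.1 f)) =
      ∑ᶠ (v : Place K) (_ : v.1 f ≤ 1), ord v f := by
    exact finsum_subtype_eq_finsum_cond (fun v : Place K => v.1 f ≤ 1) (f := fun v : Place K => ord v f)
  rw [h3]
  refine finsum_congr fun v => ?_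
  rcases lt_trichotomy (v.1 f) 1 with h | h | h
  · rw [finsum_eq_if, finsum_eq_if, if_pos h, if_pos h.le]
  · rw [finsum_eq_if, finsum_eq_if, if_neg (by rw [h]; exact lt_irrefl _), if_pos h.le]
    unfold ord
    rw [h]
    simp
  · rw [finsum_eq_if, finsum_eq_if, if_neg (not_lt.2 h.le), if_neg (not_le.2 h)]

end gen

theorem key (hK : IsCurveField K) (f : K) (hf : Transcendental ℂ f) :
    (∀ x : K, x ≠ 0 → {v : Place K | v.1 f ≤ 1 ∧ v.1 x ≠ 1}.Finite) ∧
    ∑ᶠ (v : Place K) (_ : v.1 f < 1), ord v f =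
      (Module.finrank (IntermediateField.adjoin ℂ {f}) K : ℤ) := by
  have hfin := (algebraic_over hK f hf).2
  have hf0 : f ≠ 0 := by
    rintro rfl
    exact hf isAlgebraic_zero
  let e := RatFunc.algEquivOfTranscendental f hf
  let i1 : Algebra ℂ[X] K := (Polynomial.aeval f).toRingHom.toAlgebra
  have hi1 : ∀ p : ℂ[X], algebraMap ℂ[X] K p = Polynomial.aeval f p := fun p => rfl
  have i2 : IsScalarTower ℂ ℂ[X] K := IsScalarTower.of_algebraMap_eq fun c => by
    rw [hi1]
    simp
  let i3 : Algebra (RatFunc ℂ) K :=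
    ((algebraMap (IntermediateField.adjoin ℂ {f}) K).comp e.toRingEquiv.toRingHom).toAlgebra
  have hi3 : ∀ p : RatFunc ℂ, algebraMap (RatFunc ℂ) K p =
      algebraMap (IntermediateField.adjoin ℂ {f}) K (e p) := fun p => rfl
  have i4 : IsScalarTower ℂ[X] (RatFunc ℂ) K := IsScalarTower.of_algebraMap_eq fun p => by
    rw [hi1, hi3]
    change _ = algebraMap (IntermediateField.adjoin ℂ {f}) K
      (RatFunc.algEquivOfTranscendental f hf (algebraMap ℂ[X] (RatFunc ℂ) p))
    rw [RatFunc.algEquivOfTranscendental_algebraMap, ← Polynomial.aeval_algebraMap_apply]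
    simp
  have hrank : Module.finrank (RatFunc ℂ) K =
      Module.finrank (IntermediateField.adjoin ℂ {f}) K :=
    Algebra.finrank_eq_of_equiv_equiv e.toRingEquiv (RingEquiv.refl K) (by
      ext p
      rfl)
  have i5 : FiniteDimensional (RatFunc ℂ) K := by
    apply FiniteDimensional.of_finrank_pos
    rw [hrank]
    exact Module.finrank_pos
  have hX : algebraMap ℂ[X] K X = f := by
    rw [hi1, Polynomial.aeval_X]
  constructor
  · intro x hx
    have h := zf (K := K) x hx
    rw [hX] at h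
    exact h
  · have h := zc (K := K) (by rw [hX]; exact hf0)
    rw [hX] at h
    rw [h, hrank]

end PlBAux

theorem zeros_finite (hK : IsCurveField K) (f : K) (hf : Transcendental ℂ f) (x : K) (hx : x ≠ 0) :
    {v : Place K | v.1 f ≤ 1 ∧ v.1 x ≠ 1}.Finite :=
  (PlBAux.key hK f hf).1 x hx

theorem zeros_count (hK : IsCurveField K) (f : K) (hf : Transcendental ℂ f) :
    ∑ᶠ (v : Place K) (_ : v.1 f < 1), ord v f =
      (Module.finrank (IntermediateField.adjoin ℂ {f}) K : ℤ) :=
  (PlBAux.key hK f hf).2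

theorem places_ne (hK : IsCurveField K) : Nonempty (Place K) := by
  obtain ⟨t, ht, -⟩ := id hK
  have hfin := (algebraic_over hK t ht).2
  have h := zeros_count hK t ht
  by_contra hc
  rw [not_nonempty_iff] at hc
  rw [finsum_of_isEmpty] at h
  have h2 : 0 < Module.finrank (IntermediateField.adjoin ℂ {t}) K := Module.finrank_pos
  omega

end Pool.Agent.Lib.BPT
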