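import Pool.Agent.Lib.BPT.PlB

/-!
# Module BPT.PlC: the basic facts on the places

`curveFacts`: `res` is `res_of`, `ne` is `places_ne`. For `fin`: `x ≠ 0`; take `t` transcendental
(`IsCurveField`); each place has `v.val t ≤ 1` or `v.val t⁻¹ ≤ 1`, so `fin` follows from
`zeros_finite` for `t` and `t⁻¹`. For `prod`: if `x` is algebraic over `ℂ` it is a constant and all
`ord v x = 0` (`trans_of_val`). Otherwise `zeros_count` for `x` and `x⁻¹` gives
`∑_{v.val x < 1} ord v x = n = n' = ∑_{v.val x > 1} (- ord v x)` with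
`n = [K : ℂ(x)]`, `n' = [K : ℂ(x⁻¹)]`, `IntermediateField.adjoin ℂ {x⁻¹} = adjoin ℂ {x}`.
-/

namespace Pool.Agent.Lib.BPT

open Matrix WithZero

variable {K : Type} [Field K] [Algebra ℂ K]

namespace PlCAux

theorem trans_inv {x : K} (hx : Transcendental ℂ x) : Transcendental ℂ x⁻¹ :=
  fun h => hx (IsAlgebraic.inv_iff.1 h)

theorem val_pos (v : Place K) {x : K} (hx : x ≠ 0) : 0 < v.1 x :=
  zero_lt_iff.2 ((Valuation.ne_zero_iff v.1).2 hx)

theorem val_inv_lt (v : Place K) {x : K} (hx : x ≠ 0) : v.1 x⁻¹ < 1 ↔ 1 < v.1 x := by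
  rw [map_inv₀, inv_lt_one₀ (val_pos v hx)]

theorem fin_of (hK : IsCurveField K) {x : K} (hx : x ≠ 0) : {v : Place K | v.1 x ≠ 1}.Finite := by
  obtain ⟨t, ht, _⟩ := hK
  have ht0 : t ≠ 0 := fun h => ht (h ▸ isAlgebraic_zero)
  refine ((zeros_finite ⟨t, ht, ‹_›⟩ t ht x hx).union
    (zeros_finite ⟨t, ht, ‹_›⟩ t⁻¹ (trans_inv ht) x hx)).subset ?_
  intro v hv
  rcases le_or_gt (v.1 t) 1 with h | h
  · exact Or.inl ⟨h, hv⟩
  · exact Or.inr ⟨((val_inv_lt v ht0).2 h).le, hv⟩

theorem adjoin_inv (x : K) :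
    IntermediateField.adjoin ℂ {x⁻¹} = IntermediateField.adjoin ℂ {x} := by
  apply le_antisymm
  · rw [IntermediateField.adjoin_simple_le_iff]
    exact inv_mem (IntermediateField.mem_adjoin_simple_self ℂ x)
  · rw [IntermediateField.adjoin_simple_le_iff]
    have h := inv_mem (IntermediateField.mem_adjoin_simple_self ℂ x⁻¹)
    rwa [inv_inv] at h

theorem split (v : Place K) {x : K} (hx : x ≠ 0) :
    ord v x = (∑ᶠ (_ : v.1 x < 1), ord v x) + -(∑ᶠ (_ : v.1 x⁻¹ < 1), ord v x⁻¹) := by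
  classical
  rw [finsum_eq_if, finsum_eq_if, ord_inv]
  rcases lt_trichotomy (v.1 x) 1 with h | h | h
  · rw [if_pos h, if_neg (fun h' => not_lt.2 h.le ((val_inv_lt v hx).1 h')), neg_zero, add_zero]
  · rw [if_neg (not_lt.2 h.ge), if_neg (fun h' => not_lt.2 h.le ((val_inv_lt v hx).1 h')), neg_zero,
      add_zero, (val_eq_one v hx).1 h]
  · rw [if_neg (not_lt.2 h.le), if_pos ((val_inv_lt v hx).2 h), neg_neg, zero_add]

theorem prod_of (hK : IsCurveField K) {x : K} (hx : x ≠ 0) : ∑ᶠ v : Place K, ord v x = 0 := by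
  classical
  by_cases ha : IsAlgebraic ℂ x
  · have h : ∀ v : Place K, ord v x = 0 := fun v => by
      by_contra hc
      exact trans_of_val v x hx (fun h1 => hc ((val_eq_one v hx).1 h1)) ha
    rw [finsum_congr h, finsum_zero]
  · have h1 := zeros_count hK x ha
    have h2 := zeros_count hK x⁻¹ (trans_inv ha)
    rw [adjoin_inv x] at h2
    have hs := fin_of hK hx
    rw [finsum_congr (fun v : Place K => split v hx), finsum_add_distrib, finsum_neg_distrib, h1, h2,
      add_neg_cancel]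
    · refine hs.subset (fun v hv h => hv ?_)
      change (∑ᶠ (_ : v.1 x < 1), ord v x) = 0
      rw [finsum_eq_if, if_neg (not_lt.2 h.ge)]
    · refine hs.subset (fun v hv h => hv ?_)
      change -(∑ᶠ (_ : v.1 x⁻¹ < 1), ord v x⁻¹) = 0
      rw [finsum_eq_if, if_neg (fun h' => not_lt.2 h.le ((val_inv_lt v hx).1 h')), neg_zero]

end PlCAux

theorem curveFacts (hK : IsCurveField K) : CurveFacts K where
  res := res_of hK
  fin := fun _ hx => PlCAux.fin_of hK hx
  prod := fun _ hx => PlCAux.prod_of hK hx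
  ne := places_ne hK

end Pool.Agent.Lib.BPT
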