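import Pool.Agent.Lib.BPT.PlA
import Pool.Agent.Lib.P62g.Prod

/-!
# Module BPT.PlEquiv: places in the finite part are the primes of the integral closure

`K` is an algebra over `ℂ[X]` and finite over `RatFunc ℂ`, `B = integralClosure ℂ[X] K` is a Dedekind
domain with fraction field `K` (instances as in `Pool/Agent/Lib/P62g/Base.lean` and `Prod.lean`), `f` the image of `X`.

(a) A place `v` with `v.val f ≤ 1` has `v.val b ≤ 1` for all `b ∈ B` (integral equation, the coefficients are polynomials
in `f`). The set `p_v = {b ∈ B | v.val b < 1}` is a nonzero prime ideal of `B` (nonzero: `v.val` is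
surjective and `K = Frac B`). The valuation `p_v.valuation K` equals `v.val`: if
`p_v.valuation x ≤ 1` then `x = a / b` with `a, b ∈ B`, `b ∉ p_v` so `v.val x = v.val a ≤ 1`; a
surjective valuation to `ℤᵐ⁰` with `O_p ⊆ O_v` is the same valuation (take `π` with
`p_v.valuation π = exp (-1)`; units of `O_p` are units of `O_v`, so `v.val x = (v.val π) ^ n` if
`p_v.valuation x = exp (-n)`; `v.val π ≤ 1` and `v.val` is surjective, so `v.val π = exp (-1)`).
(b) Conversely `p.valuation K` for `p : HeightOneSpectrum B` is the valuation of a place with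
`val f ≤ 1` (surjective: `HeightOneSpectrum.valuation_surjective` or a uniformiser
`valuation_exists_uniformizer`; trivial on `ℂ`: constants are units of `B`).
(c) The two maps are inverse to each other (`Place` is determined by its valuation, `Place.ext`; `p` by
its valuation: `p = {b | p.valuation b < 1}`).
-/

namespace Pool.Agent.Lib.BPT

open Matrix WithZero Polynomial IsDedekindDomain

namespace PlEquivAux

/-- two surjective discrete valuations, the valuation ring of one is contained in the other -/
theorem val_eq_of_le {K : Type} [Field K] (v w : Valuation K ℤᵐ⁰) (hv : Function.Surjective v)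
    (hw : Function.Surjective w) (h : ∀ x, w x ≤ 1 → v x ≤ 1) (x : K) : w x = v x := by
  have h1 : ∀ x, w x = 1 → v x = 1 := by
    intro x hx
    have hx0 : x ≠ 0 := by
      rintro rfl
      simp at hx
    have a1 := h x hx.le
    have a2 := h x⁻¹ (by rw [map_inv₀, hx, inv_one])
    rw [map_inv₀] at a2
    have hvx : v x ≠ 0 := (Valuation.ne_zero_iff _).2 hx0
    refine le_antisymm a1 ?_
    exact (inv_le_one₀ (zero_lt_iff.2 hvx)).1 a2
  obtain ⟨p, hp⟩ := hw (exp (-1 : ℤ))
  have hp0 : p ≠ 0 := by
    rintro rfl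
    rw [map_zero] at hp
    exact exp_ne_zero hp.symm
  have hvp0 : v p ≠ 0 := (Valuation.ne_zero_iff _).2 hp0
  have hvp : v p = exp (log (v p)) := (exp_log hvp0).symm
  set m := log (v p) with hm
  have hm0 : m ≤ 0 := by
    have := h p (by rw [hp, ← exp_zero, exp_le_exp]; norm_num)
    rwa [hvp, ← exp_zero, exp_le_exp] at this
  have key : ∀ x, x ≠ 0 → v x = exp (-(log (w x)) * m) := by
    intro x hx
    have hwx : w x ≠ 0 := (Valuation.ne_zero_iff _).2 hx
    have e1 : w (x * p ^ (log (w x))) = 1 := by
      rw [map_mul, map_zpow₀, hp, ← WithZero.exp_zsmul, ← exp_zero]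
      conv_lhs => rw [← exp_log hwx]
      rw [log_exp, ← exp_add]
      simp
    have e2 := h1 _ e1
    rw [map_mul, map_zpow₀, hvp, ← WithZero.exp_zsmul] at e2
    have e3 : v x * (exp (log (w x) • m) * exp (-(log (w x) • m))) = exp (-(log (w x) • m)) := by
      rw [← mul_assoc, e2, one_mul]
    rw [← exp_add, add_neg_cancel, exp_zero, mul_one] at e3
    rw [e3]
    simp
  obtain ⟨y, hy⟩ := hv (exp (-1 : ℤ))
  have hy0 : y ≠ 0 := by
    rintro rfl
    rw [map_zero] at hy
    exact exp_ne_zero hy.symm
  have e4 := key y hy0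
  rw [hy, exp_inj] at e4
  have hm1 : m = -1 := by
    have hd : m ∣ 1 := ⟨log (w y), by linarith⟩
    have := Int.isUnit_iff.1 (isUnit_of_dvd_one hd)
    omega
  rcases eq_or_ne x 0 with rfl | hx
  · simp
  · have hwx : w x ≠ 0 := (Valuation.ne_zero_iff _).2 hx
    rw [key x hx, hm1]
    conv_lhs => rw [← exp_log hwx]
    congr 1
    ring

end PlEquivAux

variable {K : Type} [Field K] [Algebra ℂ K] [Algebra ℂ[X] K] [IsScalarTower ℂ ℂ[X] K]
  [Algebra (RatFunc ℂ) K] [IsScalarTower ℂ[X] (RatFunc ℂ) K] [FiniteDimensional (RatFunc ℂ) K]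

namespace PlEquivAux

omit [Algebra (RatFunc ℂ) K] [IsScalarTower ℂ[X] (RatFunc ℂ) K]
  [FiniteDimensional (RatFunc ℂ) K] in
/-- polynomials in `f` are regular -/
theorem poly_le (v : Place K) (hv : v.1 (algebraMap ℂ[X] K X) ≤ 1) (P : ℂ[X]) :
    v.1 (algebraMap ℂ[X] K P) ≤ 1 := by
  induction P using Polynomial.induction_on' with
  | add p q hp hq =>
    rw [map_add]
    exact (v.1.map_add _ _).trans (max_le hp hq)
  | monomial n a =>
    rw [← C_mul_X_pow_eq_monomial, map_mul, map_pow, map_mul, map_pow]
    have e : algebraMap ℂ[X] K (C a) = algebraMap ℂ K a := by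
      rw [IsScalarTower.algebraMap_apply ℂ ℂ[X] K]; rfl
    rw [e]
    exact mul_le_one' (val_alg_le v a) (pow_le_one' hv n)

omit [Algebra (RatFunc ℂ) K] [IsScalarTower ℂ[X] (RatFunc ℂ) K]
  [FiniteDimensional (RatFunc ℂ) K] in
/-- integral elements are regular -/
theorem int_le (v : Place K) (hv : v.1 (algebraMap ℂ[X] K X) ≤ 1)
    (b : integralClosure ℂ[X] K) : v.1 (algebraMap (integralClosure ℂ[X] K) K b) ≤ 1 := by
  obtain ⟨q, hq, hqb⟩ := b.2
  let φ : ℂ[X] →+* v.1.integer :=
    (algebraMap ℂ[X] K).codRestrict v.1.integer (fun P => poly_le v hv P)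
  have hint : IsIntegral v.1.integer (b : K) := by
    refine ⟨q.map φ, hq.map φ, ?_⟩
    rw [eval₂_map]
    exact hqb
  exact (Valuation.integer.integers v.1).mem_of_integral hint

/-- the prime ideal of a place -/
def idealOf (v : Place K) (hv : v.1 (algebraMap ℂ[X] K X) ≤ 1) :
    Ideal (integralClosure ℂ[X] K) where
  carrier := {b | v.1 (algebraMap (integralClosure ℂ[X] K) K b) < 1}
  add_mem' := by
    intro a b ha hb
    change v.1 (algebraMap (integralClosure ℂ[X] K) K (a + b)) < 1
    rw [map_add]
    exact (v.1.map_add _ _).trans_lt (max_lt ha hb)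
  zero_mem' := by
    change v.1 (algebraMap (integralClosure ℂ[X] K) K 0) < 1
    simp
  smul_mem' := by
    intro c b hb
    change v.1 (algebraMap (integralClosure ℂ[X] K) K (c • b)) < 1
    rw [smul_eq_mul, map_mul, map_mul]
    exact ((mul_le_mul' (int_le v hv c) le_rfl).trans_eq (one_mul _)).trans_lt hb

omit [Algebra (RatFunc ℂ) K] [IsScalarTower ℂ[X] (RatFunc ℂ) K]
  [FiniteDimensional (RatFunc ℂ) K] in
theorem mem_idealOf (v : Place K) (hv : v.1 (algebraMap ℂ[X] K X) ≤ 1)
    (b : integralClosure ℂ[X] K) :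
    b ∈ idealOf v hv ↔ v.1 (algebraMap (integralClosure ℂ[X] K) K b) < 1 := Iff.rfl

omit [Algebra (RatFunc ℂ) K] [IsScalarTower ℂ[X] (RatFunc ℂ) K]
  [FiniteDimensional (RatFunc ℂ) K] in
theorem eq_one_of_notMem (v : Place K) (hv : v.1 (algebraMap ℂ[X] K X) ≤ 1)
    (b : integralClosure ℂ[X] K) (hb : b ∉ idealOf v hv) :
    v.1 (algebraMap (integralClosure ℂ[X] K) K b) = 1 :=
  le_antisymm (int_le v hv b) (not_lt.1 fun h => hb ((mem_idealOf v hv b).2 h))

/-- the height one prime of a place -/
noncomputable def primeOf (v : Place K) (hv : v.1 (algebraMap ℂ[X] K X) ≤ 1) :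
    HeightOneSpectrum (integralClosure ℂ[X] K) where
  asIdeal := idealOf v hv
  isPrime := by
    refine ⟨?_, ?_⟩
    · intro h
      have : (1 : integralClosure ℂ[X] K) ∈ idealOf v hv := by rw [h]; trivial
      rw [mem_idealOf, map_one, map_one] at this
      exact lt_irrefl _ this
    · intro a b hab
      by_contra hcon
      push Not at hcon
      have h1 := eq_one_of_notMem v hv a hcon.1
      have h2 := eq_one_of_notMem v hv b hcon.2
      rw [mem_idealOf, map_mul, map_mul, h1, h2, one_mul] at hab
      exact lt_irrefl _ hab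
  ne_bot := by
    intro h
    obtain ⟨x, hx⟩ := v.surj (exp (-1 : ℤ))
    obtain ⟨a, b, hb, hab⟩ := IsFractionRing.div_surjective (A := integralClosure ℂ[X] K) x
    have hb0 : (b : integralClosure ℂ[X] K) ≠ 0 := nonZeroDivisors.ne_zero hb
    have hx0 : x ≠ 0 := by
      rintro rfl
      rw [map_zero] at hx
      exact exp_ne_zero hx.symm
    have ha0 : a ≠ 0 := by
      rintro rfl
      apply hx0
      rw [← hab]; simp
    have h1 : a ∉ idealOf v hv := by rw [h]; exact ha0
    have h2 : b ∉ idealOf v hv := by rw [h]; exact hb0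
    have e1 := eq_one_of_notMem v hv a h1
    have e2 := eq_one_of_notMem v hv b h2
    rw [← hab, map_div₀, e1, e2, div_one, ← exp_zero, exp_inj] at hx
    norm_num at hx

theorem primeOf_val (v : Place K) (hv : v.1 (algebraMap ℂ[X] K X) ≤ 1) (x : K) :
    (primeOf v hv).valuation K x = v.1 x := by
  refine val_eq_of_le v.1 ((primeOf v hv).valuation K) v.surj
    (HeightOneSpectrum.valuation_surjective K (primeOf v hv)) ?_ x
  intro x hx
  obtain ⟨n, d, hnd⟩ := HeightOneSpectrum.exists_primeCompl_mul_eq_of_integer (primeOf v hv) x hx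
  have hd : v.1 (algebraMap (integralClosure ℂ[X] K) K d) = 1 := eq_one_of_notMem v hv d d.2
  have hn := int_le v hv n
  rw [← hnd, map_mul, hd, mul_one] at hn
  exact hn

/-- the place of a height one prime -/
noncomputable def placeOf (p : HeightOneSpectrum (integralClosure ℂ[X] K)) : Place K where
  val := p.valuation K
  surj := HeightOneSpectrum.valuation_surjective K p
  triv := by
    intro c hc
    have e : ∀ c : ℂ, algebraMap ℂ K c =
        algebraMap (integralClosure ℂ[X] K) K (algebraMap ℂ[X] (integralClosure ℂ[X] K) (C c)) := by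
      intro c
      rw [← IsScalarTower.algebraMap_apply ℂ[X] (integralClosure ℂ[X] K) K,
        IsScalarTower.algebraMap_apply ℂ ℂ[X] K]
      rfl
    have h1 : ∀ c : ℂ, p.valuation K (algebraMap ℂ K c) ≤ 1 := by
      intro c
      rw [e]
      exact HeightOneSpectrum.valuation_le_one p _
    refine le_antisymm (h1 c) ?_
    have h2 := h1 c⁻¹
    rw [map_inv₀, map_inv₀] at h2
    have h3 : p.valuation K (algebraMap ℂ K c) ≠ 0 :=
      (Valuation.ne_zero_iff _).2 (by simpa using hc)
    exact (inv_le_one₀ (zero_lt_iff.2 h3)).1 h2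

theorem placeOf_le (p : HeightOneSpectrum (integralClosure ℂ[X] K)) :
    (placeOf p).1 (algebraMap ℂ[X] K X) ≤ 1 := by
  change p.valuation K _ ≤ 1
  rw [IsScalarTower.algebraMap_apply ℂ[X] (integralClosure ℂ[X] K) K]
  exact HeightOneSpectrum.valuation_le_one p _

end PlEquivAux

open PlEquivAux in
theorem place_equiv : ∃ e : {v : Place K // v.1 (algebraMap ℂ[X] K X) ≤ 1} ≃
      HeightOneSpectrum (integralClosure ℂ[X] K),
    ∀ v x, (e v).valuation K x = v.1.1 x := by
  refine ⟨{ toFun := fun v => primeOf v.1 v.2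
            invFun := fun p => ⟨placeOf p, placeOf_le p⟩
            left_inv := ?_
            right_inv := ?_ }, ?_⟩
  · rintro ⟨v, hv⟩
    apply Subtype.ext
    apply Place.ext
    apply Valuation.ext
    intro x
    exact primeOf_val v hv x
  · intro p
    apply HeightOneSpectrum.ext
    ext b
    change p.valuation K (algebraMap (integralClosure ℂ[X] K) K b) < 1 ↔ _
    exact HeightOneSpectrum.valuation_lt_one_iff_mem p b
  · rintro ⟨v, hv⟩ x
    exact primeOf_val v hv x

end Pool.Agent.Lib.BPT
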