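import Pool.Agent.Lib.BPT.NSExt

/-!
# Module BPT.SecA: values and independence of sections

`exists_value`: apply `NS (F(-v))` to `x v = (F.g v) c`, `x v' = 0` for `v' ≠ v`. The section `s = h`
satisfies `Mem F v' s` for `v' ≠ v` (as `single v (-1) v' = 0`, `mem_twist`) and
`Mem (F(-v)) v (s - (F.g v) c)`, which gives `Mem F v s`.

`fin_dep`: if `s_1, ..., s_j ∈ K ^ ι` are linearly independent over `K`, then for all but
finitely many `v` no combination `∑ c_i s_i`, `c ∈ ℂ ^ j`, `c ≠ 0`, is in `F(-v)_v`. Complete `s` to a basis of `K ^ ι`, the columns of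
`P ∈ GL_ι(K)` (`j ≤ card ι` and an injection `Fin j → ι` of the columns); for all but finitely many
`v` both `P` and `F.g v` are `Unimod` (`fin_not_unimod`, `VB.finU`); then
`∑ c_i s_i = P c'` (`c'` the extension by zero) and `(F.g v)⁻¹ P c'` in the maximal ideal implies `c'` in the maximal ideal
(`Unimod`), i.e. `c = 0` (`val_alg`). `Mem (F(-v)) v x ↔ Mem F v (π⁻¹ x) ↔ v.val ((F.g v)⁻¹ x i) < 1` for
all `i` (discreteness: `v.val < 1 ↔ v.val ≤ exp (-1)`), proved in `mem_twist_neg_one`.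

`linInd_of_nowhere`: let `∑ a_i s_i = 0`, `a ∈ K ^ j`, `a ≠ 0`. Scale `a` by a power of `π = unif v` such that all
`v.val (a i) ≤ 1`, with equality for one `i`; let `c i` be the residues (`CurveFacts.res`), `c ≠ 0`. Then
`∑ c_i s_i = ∑ (c_i - a_i) s_i ∈ F(-v)_v`, a contradiction. The same argument proves
`regular_of_nowhere`: if `∑ a_i s_i ∈ F_v` then the `a_i` are regular at `v` (otherwise scale by
`π ^ n`, `n > 0` the maximal pole order; `∑ π ^ n a_i s_i ∈ π ^ n F_v ⊆ F(-v)_v`); it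
implies `linInd_of_nowhere`.
-/

namespace Pool.Agent.Lib.BPT

open Matrix WithZero

variable {K : Type} [Field K] [Algebra ℂ K]

variable {ι : Type} [Fintype ι] [DecidableEq ι]

namespace SecAAux

theorem mul_lt_aux {x y : ℤᵐ⁰} (hx : x ≤ 1) (hy : y < 1) : x * y < 1 :=
  (mul_le_of_le_one_left' hx).trans_lt hy

theorem lt_one_iff (v : Place K) (y : K) : v.1 (unif v ^ (-1 : ℤ) * y) ≤ 1 ↔ v.1 y < 1 := by
  rcases eq_or_ne y 0 with rfl | hy
  · simp
  · rw [map_mul, val_unif_zpow, val_eq v hy, ← exp_add, ← exp_zero, exp_le_exp, exp_lt_exp]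
    omega

omit [DecidableEq ι] in
theorem mulVec_comb {j : ℕ} {κ : Type} (G : Matrix κ ι K) (a : Fin j → K) (s : Fin j → ι → K)
    (k : κ) : G.mulVec (∑ i, a i • s i) k = ∑ i, a i * G.mulVec (s i) k := by
  rw [← Matrix.mulVecLin_apply, map_sum, Finset.sum_apply]
  refine Finset.sum_congr rfl fun i _ => ?_
  rw [map_smul, Matrix.mulVecLin_apply, Pi.smul_apply, smul_eq_mul]

theorem sum_mul_lt (v : Place K) {α : Type} [Fintype α] (a b : α → K) (ha : ∀ i, v.1 (a i) ≤ 1)
    (hb : ∀ i, v.1 (b i) < 1) : v.1 (∑ i, a i * b i) < 1 := by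
  refine v.1.map_sum_lt one_ne_zero fun i _ => ?_
  rw [map_mul]
  exact mul_lt_aux (ha i) (hb i)

end SecAAux

open SecAAux

theorem mem_twist_neg_one {F : VB K ι} {v : Place K} {x : ι → K} :
    Mem (F.twist (Finsupp.single v (-1))) v x ↔ ∀ i, v.1 (((F.g v)⁻¹).1.mulVec x i) < 1 := by
  rw [mem_twist, Finsupp.single_eq_same]
  unfold Mem
  refine forall_congr' fun i => ?_
  rw [Matrix.mulVec_smul, Pi.smul_apply, smul_eq_mul, lt_one_iff]

theorem exists_value (F : VB K ι) (v : Place K) (hF : NS (F.twist (Finsupp.single v (-1))))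
    (c : ι → ℂ) : ∃ s : ι → K, (∀ v', Mem F v' s) ∧ Mem (F.twist (Finsupp.single v (-1))) v
      (s - (F.g v).1.mulVec fun i => algebraMap ℂ K (c i)) := by
  classical
  obtain ⟨h, hh⟩ := hF (fun v' => if v' = v then (F.g v).1.mulVec fun i => algebraMap ℂ K (c i)
    else 0) ((Set.finite_singleton v).subset fun v' hv' => by
      by_contra hne
      exact hv' (if_neg hne))
  have hv := hh v
  rw [if_pos rfl] at hv
  refine ⟨h, fun v' => ?_, hv⟩
  by_cases hvv : v' = v
  · subst hvv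
    have h1 : Mem F v' (h - (F.g v').1.mulVec fun i => algebraMap ℂ K (c i)) :=
      fun i => (mem_twist_neg_one.1 hv i).le
    have h2 : Mem F v' ((F.g v').1.mulVec fun i => algebraMap ℂ K (c i)) :=
      mem_iff.2 ⟨_, fun i => val_alg_le v' (c i), rfl⟩
    have h3 := h1.add h2
    rwa [sub_add_cancel] at h3
  · have h1 := hh v'
    rw [if_neg hvv, sub_zero, mem_twist, Finsupp.single_eq_of_ne hvv, zpow_zero, one_smul] at h1
    exact h1

variable [CurveFacts K]

theorem fin_dep {j : ℕ} (F : VB K ι) (s : Fin j → ι → K) (hs : LinearIndependent K s) :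
    {v : Place K | ∃ c : Fin j → ℂ, c ≠ 0 ∧
      Mem (F.twist (Finsupp.single v (-1))) v (∑ i, algebraMap ℂ K (c i) • s i)}.Finite := by
  have hker : LinearMap.ker (Fintype.linearCombination K s) = ⊥ := by
    rw [LinearMap.ker_eq_bot']
    intro m hm
    rw [Fintype.linearCombination_apply] at hm
    funext i
    exact Fintype.linearIndependent_iff.1 hs m hm i
  obtain ⟨L, hL⟩ := LinearMap.exists_leftInverse_of_injective _ hker
  refine ((fin_not_isInt (LinearMap.toMatrix' L)).union F.finU).subset ?_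
  rintro v ⟨c, hc, hmem⟩
  by_contra hcon
  have h1 : IsInt v (LinearMap.toMatrix' L) := by
    by_contra h2
    exact hcon (Or.inl h2)
  have h2 : Unimod v (F.g v) := by
    by_contra h3
    exact hcon (Or.inr h3)
  rw [mem_twist_neg_one] at hmem
  apply hc
  funext i
  have h3 : (LinearMap.toMatrix' L * (F.g v).1).mulVec (((F.g v)⁻¹).1.mulVec
      (∑ i, algebraMap ℂ K (c i) • s i)) = fun i => algebraMap ℂ K (c i) := by
    rw [Matrix.mulVec_mulVec, Matrix.mul_assoc, Units.mul_inv, Matrix.mul_one,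
      LinearMap.toMatrix'_mulVec]
    have h4 := LinearMap.congr_fun hL (fun i => algebraMap ℂ K (c i))
    rw [LinearMap.comp_apply, Fintype.linearCombination_apply] at h4
    exact h4
  have h4 : v.1 (algebraMap ℂ K (c i)) < 1 := by
    rw [← congrFun h3 i, Matrix.mulVec, dotProduct]
    exact sum_mul_lt v _ _ (fun k => (h1.mul h2.1) i k) hmem
  by_contra hci
  rw [val_alg v hci] at h4
  exact lt_irrefl _ h4

theorem regular_of_nowhere {j : ℕ} (F : VB K ι) (v : Place K) (s : Fin j → ι → K)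
    (hs : ∀ i, Mem F v (s i))
    (hc : ∀ c : Fin j → ℂ, c ≠ 0 →
      ¬ Mem (F.twist (Finsupp.single v (-1))) v (∑ i, algebraMap ℂ K (c i) • s i))
    (a : Fin j → K) (ha : Mem F v (∑ i, a i • s i)) : ∀ i, v.1 (a i) ≤ 1 := by
  by_contra hcon
  push Not at hcon
  obtain ⟨i1, hi1⟩ := hcon
  haveI : Nonempty (Fin j) := ⟨i1⟩
  obtain ⟨i0, hi0⟩ := Finite.exists_max (fun i => v.1 (a i))
  have hgt : 1 < v.1 (a i0) := hi1.trans_le (hi0 i1)
  have ha0 : a i0 ≠ 0 := by
    intro h0
    rw [h0, map_zero] at hgt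
    exact absurd hgt (not_lt.2 zero_le)
  -- the scaled coefficients
  obtain ⟨b, hb⟩ : ∃ b : K, b = (a i0)⁻¹ := ⟨_, rfl⟩
  have hvb : v.1 b < 1 := by
    rw [hb, map_inv₀]
    exact inv_lt_one_of_one_lt₀ hgt
  have hba : ∀ i, v.1 (b * a i) ≤ 1 := by
    intro i
    rw [hb, map_mul, map_inv₀]
    rw [inv_mul_le_iff₀ (zero_lt_one.trans hgt), mul_one]
    exact hi0 i
  choose c hc' using fun i => CurveFacts.res v (b * a i) (hba i)
  have hc0 : c i0 ≠ 0 := by
    intro h0
    have h1 := hc' i0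
    rw [h0, map_zero, sub_zero, hb, inv_mul_cancel₀ ha0, map_one] at h1
    exact lt_irrefl _ h1
  refine hc c (fun h0 => hc0 (congrFun h0 i0)) ?_
  rw [mem_twist_neg_one]
  intro k
  have h1 : ((F.g v)⁻¹).1.mulVec (∑ i, algebraMap ℂ K (c i) • s i) k =
      b * ((F.g v)⁻¹).1.mulVec (∑ i, a i • s i) k -
        ∑ i, ((F.g v)⁻¹).1.mulVec (s i) k * (b * a i - algebraMap ℂ K (c i)) := by
    rw [mulVec_comb, mulVec_comb, Finset.mul_sum, ← Finset.sum_sub_distrib]
    refine Finset.sum_congr rfl fun i _ => ?_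
    ring
  rw [h1]
  refine (v.1.map_sub _ _).trans_lt (max_lt ?_ ?_)
  · rw [map_mul, mul_comm]
    exact mul_lt_aux (ha k) hvb
  · exact sum_mul_lt v _ _ (fun i => hs i k) hc'

theorem linInd_of_nowhere {j : ℕ} (F : VB K ι) (v : Place K) (s : Fin j → ι → K)
    (hs : ∀ i, Mem F v (s i))
    (hc : ∀ c : Fin j → ℂ, c ≠ 0 →
      ¬ Mem (F.twist (Finsupp.single v (-1))) v (∑ i, algebraMap ℂ K (c i) • s i)) :
    LinearIndependent K s := by
  rw [Fintype.linearIndependent_iff]
  intro a ha i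
  by_contra hi
  have h1 : Mem F v (∑ i', ((unif v * a i)⁻¹ * a i') • s i') := by
    have h2 : ∑ i', ((unif v * a i)⁻¹ * a i') • s i' = (unif v * a i)⁻¹ • ∑ i', a i' • s i' := by
      rw [Finset.smul_sum]
      exact Finset.sum_congr rfl fun i' _ => by rw [smul_smul]
    rw [h2, ha, smul_zero]
    exact Mem.zero F v
  have h2 := regular_of_nowhere F v s hs hc _ h1 i
  rw [_root_.mul_inv_rev, mul_assoc, mul_comm, mul_assoc, mul_inv_cancel₀ hi, mul_one, map_inv₀,
    val_unif, ← WithZero.exp_neg, neg_neg, ← exp_zero, exp_le_exp] at h2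
  omega

end Pool.Agent.Lib.BPT
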