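import Pool.Agent.Lib.BPT.SecA

/-!
# Module BPT.Sections: nowhere dependent sections

`F` has rank `n = κ + 1` and `H¹(F(-v)) = 0` for all `v`. Write `F(-v)_v` for the stalk
`Mem (F.twist (single v (-1))) v`.

Induction on `j ≤ κ`: there are `j` nowhere dependent sections `s_1, ..., s_j` of `F` (for all `v` and
`c ≠ 0` in `ℂ ^ j`, `∑ c_i s_i ∉ F(-v)_v`). They are linearly independent over `K`
(`linInd_of_nowhere`). Step `j → j + 1` with `j + 1 ≤ κ = n - 1`: the global sections span `K ^ n`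
over `K` (by `exists_value` at one place for the unit vectors: the `n` sections are independent by `linInd_of_nowhere`), so
there is a global section `t₀` with `s, t₀` linearly independent over `K` (`j + 1 ≤ n`).
Call `t` bad at `v` if `t + ∑ c_i s_i ∈ F(-v)_v` for some `c ∈ ℂ ^ j`. `B₀ = {v | t₀ bad at v}` is
finite by `fin_dep`. For each `v` there is a global section which is not bad at `v`: otherwise by `exists_value` all
vectors of `ℂ ^ n` would be combinations of the residues of `s_1, ..., s_j`, `j < n` (dimension). There is a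
global section `t₁` with `s, t₀, t₁` independent over `K` (`j + 2 ≤ n`) and not bad at all `v ∈ B₀`: the
`ℂ`-space `H0 F` is not a finite union of the proper subspaces `{t | t bad at v}`, `v ∈ B₀`, and
`{t | t ∈ K-span of s, t₀}` (Mathlib: `Subspace.biUnion_ne_univ_of_top_notMem` or
`Submodule.iUnion_ssubset_of_forall_ne_top_of_card_lt`, ... over the infinite field `ℂ`).
Let `B₁` be the finite set (`fin_dep` for `s, t₀, t₁`) of `v` where some `∑ c_i s_i + a t₀ + b t₁ ∈
F(-v)_v` with `(c, a, b) ≠ 0`. For `v ∉ B₁`: `t₀ + c t₁` is not bad at `v`, for all `c : ℂ`. For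
`v ∈ B₁` at most one `c` has `t₀ + c t₁` bad at `v`, since not both `t₀, t₁` are bad at `v` (for
`v ∈ B₀` because `t₁` is not, otherwise because `t₀` is not; if `t₀ + c t₁`, `t₀ + c' t₁` are bad with `c ≠ c'`
both `t₀` and `t₁` are bad). So some `c : ℂ` works for all `v`, `s_{j+1} = t₀ + c t₁`: a relation
`∑ c_i s_i + c' s_{j+1} ∈ F(-v)_v` has `c' = 0` (not bad), then `c = 0`.
-/

namespace Pool.Agent.Lib.BPT

open Matrix WithZero

namespace SectionsAux

variable {K : Type} [Field K] [Algebra ℂ K] {ι : Type} [Fintype ι] [DecidableEq ι]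

theorem algSmul (c : ℂ) (x : ι → K) : (algebraMap ℂ K c) • x = c • x := by
  funext i
  rw [Pi.smul_apply, Pi.smul_apply, smul_eq_mul, Algebra.smul_def]

/-- the stalk of `F(-v)` at `v` as a subspace -/
noncomputable def MS (F : VB K ι) (v : Place K) : Submodule ℂ (ι → K) where
  carrier := {x | Mem (F.twist (Finsupp.single v (-1))) v x}
  add_mem' := fun ha hb => ha.add hb
  zero_mem' := Mem.zero _ v
  smul_mem' := fun c x hx => by
    rw [← algSmul]
    exact Mem.smul (val_alg_le v c) hx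

theorem mem_MS {F : VB K ι} {v : Place K} {x : ι → K} :
    x ∈ MS F v ↔ Mem (F.twist (Finsupp.single v (-1))) v x := Iff.rfl

/-- nowhere dependent at `v` -/
def ND (F : VB K ι) (v : Place K) {j : ℕ} (s : Fin j → ι → K) : Prop :=
  LinearIndependent ℂ (fun i => (MS F v).mkQ (s i))

theorem nd_iff {F : VB K ι} {v : Place K} {j : ℕ} {s : Fin j → ι → K} :
    ND F v s ↔ ∀ c : Fin j → ℂ, c ≠ 0 →
      ¬ Mem (F.twist (Finsupp.single v (-1))) v (∑ i, algebraMap ℂ K (c i) • s i) := by
  unfold ND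
  rw [Fintype.linearIndependent_iff]
  have key : ∀ c : Fin j → ℂ, (∑ i, c i • (MS F v).mkQ (s i) = 0 ↔
      Mem (F.twist (Finsupp.single v (-1))) v (∑ i, algebraMap ℂ K (c i) • s i)) := by
    intro c
    have h1 : ∑ i, c i • (MS F v).mkQ (s i) = (MS F v).mkQ (∑ i, algebraMap ℂ K (c i) • s i) := by
      rw [map_sum]
      refine Finset.sum_congr rfl fun i _ => ?_
      rw [algSmul, map_smul]
    rw [h1, Submodule.mkQ_apply, Submodule.Quotient.mk_eq_zero, mem_MS]
  constructor
  · intro h c hc hm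
    apply hc
    funext i
    exact h c ((key c).2 hm) i
  · intro h c hc i
    by_contra hi
    refine h c (fun h0 => hi ?_) ((key c).1 hc)
    rw [h0]; rfl

theorem nd_cons {F : VB K ι} {v : Place K} {j : ℕ} {s : Fin j → ι → K} {t : ι → K} :
    ND F v (Fin.cons t s : Fin (j + 1) → ι → K) ↔
      ND F v s ∧ (MS F v).mkQ t ∉ Submodule.span ℂ (Set.range fun i => (MS F v).mkQ (s i)) := by
  unfold ND
  rw [← linearIndependent_finCons]
  have h : (fun i => (MS F v).mkQ ((Fin.cons t s : Fin (j + 1) → ι → K) i)) =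
      (Fin.cons ((MS F v).mkQ t) fun i => (MS F v).mkQ (s i)) := by
    funext i
    refine Fin.cases ?_ (fun i => ?_) i
    · rw [Fin.cons_zero, Fin.cons_zero]
    · rw [Fin.cons_succ, Fin.cons_succ]
  rw [h]

/-- more independent vectors than the dimension of a span -/
theorem exists_notMem {k V : Type*} [Field k] [AddCommGroup V] [Module k V] {a b : ℕ}
    {u : Fin a → V} (hu : LinearIndependent k u) (w : Fin b → V) (hab : b < a) :
    ∃ i, u i ∉ Submodule.span k (Set.range w) := by
  by_contra hcon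
  push Not at hcon
  have h1 : Submodule.span k (Set.range u) ≤ Submodule.span k (Set.range w) := by
    rw [Submodule.span_le]
    rintro _ ⟨i, rfl⟩
    exact hcon i
  have h2 : Module.Finite k (Submodule.span k (Set.range w)) :=
    Module.Finite.span_of_finite k (Set.finite_range w)
  have h3 := Submodule.finrank_mono h1
  rw [finrank_span_eq_card hu, Fintype.card_fin] at h3
  have h4 : Module.finrank k (Submodule.span k (Set.range w)) ≤ b := by
    have := finrank_range_le_card (R := k) w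
    rw [Fintype.card_fin] at this
    exact this
  omega

theorem exists_frame {κ : ℕ} (F : VB K (Fin κ)) (v : Place K)
    (hF : NS (F.twist (Finsupp.single v (-1)))) :
    ∃ e : Fin κ → Fin κ → K, (∀ i v', Mem F v' (e i)) ∧ ND F v e := by
  choose e he1 he2 using fun i : Fin κ => exists_value F v hF (Pi.single i 1)
  refine ⟨e, he1, ?_⟩
  rw [nd_iff]
  intro c hc hm
  apply hc
  have h1 : Mem (F.twist (Finsupp.single v (-1))) v
      ((F.g v).1.mulVec fun i => algebraMap ℂ K (c i)) := by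
    have h2 : (F.g v).1.mulVec (fun i => algebraMap ℂ K (c i)) =
        ∑ i, algebraMap ℂ K (c i) • e i - ∑ i, algebraMap ℂ K (c i) •
          (e i - (F.g v).1.mulVec fun l => algebraMap ℂ K ((Pi.single i 1 : Fin κ → ℂ) l)) := by
      rw [← Finset.sum_sub_distrib]
      have h3 : ∀ i, algebraMap ℂ K (c i) • e i - algebraMap ℂ K (c i) •
          (e i - (F.g v).1.mulVec fun l => algebraMap ℂ K ((Pi.single i 1 : Fin κ → ℂ) l)) =
          (F.g v).1.mulVec (algebraMap ℂ K (c i) • Pi.single i 1) := by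
        intro i
        rw [← smul_sub, sub_sub_cancel, ← Matrix.mulVec_smul]
        congr 2
        funext l
        rcases eq_or_ne l i with rfl | hl
        · rw [Pi.single_eq_same, Pi.single_eq_same, map_one]
        · rw [Pi.single_eq_of_ne hl, Pi.single_eq_of_ne hl, map_zero]
      rw [Finset.sum_congr rfl fun i _ => h3 i, ← Matrix.mulVec_sum]
      congr 1
      funext l
      rw [Finset.sum_apply, Finset.sum_eq_single l]
      · rw [Pi.smul_apply, Pi.single_eq_same, smul_eq_mul, mul_one]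
      · intro i _ hi
        rw [Pi.smul_apply, Pi.single_eq_of_ne (Ne.symm hi), smul_zero]
      · intro h; exact absurd (Finset.mem_univ l) h
    rw [h2]
    refine hm.sub ?_
    rw [← mem_MS]
    refine Submodule.sum_mem _ fun i _ => ?_
    rw [mem_MS]
    exact Mem.smul (val_alg_le v (c i)) (he2 i)
  rw [mem_twist_neg_one] at h1
  funext i
  by_contra hi
  have h4 := h1 i
  rw [Matrix.mulVec_mulVec, Units.inv_mul, Matrix.one_mulVec, val_alg v hi] at h4
  exact lt_irrefl _ h4

theorem notMem_of_cons {F : VB K ι} {v : Place K} {j : ℕ} {s : Fin j → ι → K} {t₀ t₁ : ι → K}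
    (h : ND F v (Fin.cons t₁ (Fin.cons t₀ s : Fin (j + 1) → ι → K) : Fin (j + 1 + 1) → ι → K))
    (c : ℂ) :
    (MS F v).mkQ (t₀ + c • t₁) ∉ Submodule.span ℂ (Set.range fun i => (MS F v).mkQ (s i)) := by
  rw [nd_cons, nd_cons] at h
  obtain ⟨⟨_, h0⟩, h1⟩ := h
  intro hm
  rw [map_add, map_smul] at hm
  rcases eq_or_ne c 0 with rfl | hc
  · rw [zero_smul, add_zero] at hm
    exact h0 hm
  · apply h1
    have hle : Submodule.span ℂ (Set.range fun i => (MS F v).mkQ (s i)) ≤ Submodule.span ℂ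
        (Set.range fun i => (MS F v).mkQ ((Fin.cons t₀ s : Fin (j + 1) → ι → K) i)) := by
      rw [Submodule.span_le]
      rintro _ ⟨i, rfl⟩
      apply Submodule.subset_span
      exact ⟨i.succ, by simp⟩
    have ht0 : (MS F v).mkQ t₀ ∈ Submodule.span ℂ
        (Set.range fun i => (MS F v).mkQ ((Fin.cons t₀ s : Fin (j + 1) → ι → K) i)) := by
      apply Submodule.subset_span
      exact ⟨0, by simp⟩
    have h2 := Submodule.sub_mem _ (hle hm) ht0
    rw [add_sub_cancel_left] at h2
    have h3 := Submodule.smul_mem _ c⁻¹ h2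
    rwa [smul_smul, inv_mul_cancel₀ hc, one_smul] at h3

variable [CurveFacts K]

theorem step {κ j : ℕ} (F : VB K (Fin (κ + 1)))
    (hF : ∀ v, NS (F.twist (Finsupp.single v (-1)))) (hj : j + 1 ≤ κ)
    (s : Fin j → Fin (κ + 1) → K) (hs : ∀ i v, Mem F v (s i)) (hnd : ∀ v, ND F v s) :
    ∃ s' : Fin (j + 1) → Fin (κ + 1) → K, (∀ i v, Mem F v (s' i)) ∧ ∀ v, ND F v s' := by
  classical
  obtain ⟨v₀⟩ := CurveFacts.ne (K := K)
  choose e he1 he2 using fun v => exists_frame F v (hF v)
  have hsK : LinearIndependent K s :=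
    linInd_of_nowhere F v₀ s (fun i => hs i v₀) (nd_iff.1 (hnd v₀))
  have heK : LinearIndependent K (e v₀) :=
    linInd_of_nowhere F v₀ (e v₀) (fun i => he1 v₀ i v₀) (nd_iff.1 (he2 v₀))
  obtain ⟨i₀, hi₀⟩ := exists_notMem heK s (by omega)
  set t₀ := e v₀ i₀ with ht₀
  have ht₀m : ∀ v, Mem F v t₀ := fun v => he1 v₀ i₀ v
  have hK0 : LinearIndependent K (Fin.cons t₀ s : Fin (j + 1) → Fin (κ + 1) → K) :=
    linearIndependent_finCons.2 ⟨hsK, hi₀⟩
  have hfin0 : {v : Place K | ¬ ND F v (Fin.cons t₀ s : Fin (j + 1) → Fin (κ + 1) → K)}.Finite := by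
    refine (fin_dep F _ hK0).subset fun v hv => ?_
    rw [Set.mem_setOf_eq, nd_iff] at hv
    push Not at hv
    exact hv
  set B₀ := {v : Place K | ¬ ND F v (Fin.cons t₀ s : Fin (j + 1) → Fin (κ + 1) → K)} with hB₀
  have hfB₀ : Finite B₀ := hfin0
  -- the proper subspaces
  let N : Option B₀ → Submodule ℂ (H0 F) := fun o => match o with
    | none => ((Submodule.span K (Set.range
        (Fin.cons t₀ s : Fin (j + 1) → Fin (κ + 1) → K))).restrictScalars ℂ).comap (H0 F).subtype
    | some v => (Submodule.span ℂ (Set.range fun i => (MS F v.1).mkQ (s i))).comap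
        ((MS F v.1).mkQ ∘ₗ (H0 F).subtype)
  have hN : ∀ o, N o ≠ ⊤ := by
    intro o
    cases o with
    | none =>
      obtain ⟨i, hi⟩ := exists_notMem heK (Fin.cons t₀ s : Fin (j + 1) → Fin (κ + 1) → K) (by omega)
      intro h
      have h1 : (⟨e v₀ i, fun v => he1 v₀ i v⟩ : H0 F) ∈ N none := by rw [h]; trivial
      exact hi h1
    | some v =>
      obtain ⟨i, hi⟩ := exists_notMem (he2 v.1) (fun i => (MS F v.1).mkQ (s i)) (by omega)
      intro h
      have h1 : (⟨e v.1 i, fun v' => he1 v.1 i v'⟩ : H0 F) ∈ N (some v) := by rw [h]; trivial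
      exact hi h1
  obtain ⟨t₁, ht₁⟩ : ∃ t : H0 F, ∀ o, t ∉ N o := by
    by_contra hcon
    push Not at hcon
    obtain ⟨o, ho⟩ := Subspace.exists_eq_top_of_iUnion_eq_univ (k := ℂ) (p := N) (by
      rw [Set.eq_univ_iff_forall]
      intro t
      obtain ⟨o, ho⟩ := hcon t
      exact Set.mem_iUnion.2 ⟨o, ho⟩)
    exact hN o ho
  have ht₁m : ∀ v, Mem F v (t₁ : Fin (κ + 1) → K) := t₁.2
  have hK1 : LinearIndependent K (Fin.cons (t₁ : Fin (κ + 1) → K)
      (Fin.cons t₀ s : Fin (j + 1) → Fin (κ + 1) → K) : Fin (j + 1 + 1) → Fin (κ + 1) → K) :=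
    linearIndependent_finCons.2 ⟨hK0, ht₁ none⟩
  have hfin1 : {v : Place K | ¬ ND F v (Fin.cons (t₁ : Fin (κ + 1) → K)
      (Fin.cons t₀ s : Fin (j + 1) → Fin (κ + 1) → K) : Fin (j + 1 + 1) → Fin (κ + 1) → K)}.Finite := by
    refine (fin_dep F _ hK1).subset fun v hv => ?_
    rw [Set.mem_setOf_eq, nd_iff] at hv
    push Not at hv
    exact hv
  have hsub : ∀ v : Place K, {c : ℂ | (MS F v).mkQ (t₀ + c • (t₁ : Fin (κ + 1) → K)) ∈
      Submodule.span ℂ (Set.range fun i => (MS F v).mkQ (s i))}.Subsingleton := by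
    intro v c hc c' hc'
    by_contra hne
    rw [Set.mem_setOf_eq, map_add, map_smul] at hc hc'
    have h1 : (MS F v).mkQ (t₁ : Fin (κ + 1) → K) ∈
        Submodule.span ℂ (Set.range fun i => (MS F v).mkQ (s i)) := by
      have h2 := Submodule.sub_mem _ hc hc'
      rw [add_sub_add_left_eq_sub, ← sub_smul] at h2
      have h3 := Submodule.smul_mem _ (c - c')⁻¹ h2
      rwa [smul_smul, inv_mul_cancel₀ (sub_ne_zero.2 hne), one_smul] at h3
    have h0 : (MS F v).mkQ t₀ ∈
        Submodule.span ℂ (Set.range fun i => (MS F v).mkQ (s i)) := by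
      have h2 := Submodule.sub_mem _ hc (Submodule.smul_mem _ c h1)
      rwa [add_sub_cancel_right] at h2
    by_cases hv : v ∈ B₀
    · exact ht₁ (some ⟨v, hv⟩) h1
    · rw [hB₀, Set.mem_setOf_eq, not_not, nd_cons] at hv
      exact hv.2 h0
  have hbad : (⋃ v ∈ {v : Place K | ¬ ND F v (Fin.cons (t₁ : Fin (κ + 1) → K)
      (Fin.cons t₀ s : Fin (j + 1) → Fin (κ + 1) → K) : Fin (j + 1 + 1) → Fin (κ + 1) → K)},
      {c : ℂ | (MS F v).mkQ (t₀ + c • (t₁ : Fin (κ + 1) → K)) ∈
        Submodule.span ℂ (Set.range fun i => (MS F v).mkQ (s i))}).Finite :=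
    hfin1.biUnion fun v _ => (hsub v).finite
  obtain ⟨c, hc⟩ := hbad.exists_notMem
  refine ⟨Fin.cons (t₀ + c • (t₁ : Fin (κ + 1) → K)) s, ?_, ?_⟩
  · intro i v
    refine Fin.cases ?_ (fun i => ?_) i
    · rw [Fin.cons_zero, ← algSmul]
      exact (ht₀m v).add (Mem.smul (val_alg_le v c) (ht₁m v))
    · rw [Fin.cons_succ]
      exact hs i v
  · intro v
    rw [nd_cons]
    refine ⟨hnd v, ?_⟩
    by_cases hv : ND F v (Fin.cons (t₁ : Fin (κ + 1) → K)
      (Fin.cons t₀ s : Fin (j + 1) → Fin (κ + 1) → K) : Fin (j + 1 + 1) → Fin (κ + 1) → K)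
    · exact notMem_of_cons hv c
    · intro hm
      exact hc (Set.mem_biUnion hv hm)

theorem all {κ : ℕ} (F : VB K (Fin (κ + 1)))
    (hF : ∀ v, NS (F.twist (Finsupp.single v (-1)))) (j : ℕ) (hj : j ≤ κ) :
    ∃ s : Fin j → Fin (κ + 1) → K, (∀ i v, Mem F v (s i)) ∧ ∀ v, ND F v s := by
  induction j with
  | zero =>
    refine ⟨fun i => i.elim0, fun i => i.elim0, fun v => ?_⟩
    exact linearIndependent_empty_type
  | succ j ih =>
    obtain ⟨s, hs, hnd⟩ := ih (by omega)
    exact step F hF hj s hs hnd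

end SectionsAux

variable {K : Type} [Field K] [Algebra ℂ K] [CurveFacts K]

theorem exists_sections {κ : ℕ} (F : VB K (Fin (κ + 1)))
    (hF : ∀ v, NS (F.twist (Finsupp.single v (-1)))) :
    ∃ s : Fin κ → Fin (κ + 1) → K, (∀ i v, Mem F v (s i)) ∧
      ∀ (v : Place K) (c : Fin κ → ℂ), c ≠ 0 →
        ¬ Mem (F.twist (Finsupp.single v (-1))) v (∑ i, algebraMap ℂ K (c i) • s i) := by
  obtain ⟨s, hs, hnd⟩ := SectionsAux.all F hF κ le_rfl
  exact ⟨s, hs, fun v c hc => SectionsAux.nd_iff.1 (hnd v) c hc⟩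

end Pool.Agent.Lib.BPT
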