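import Pool.Agent.Lib.BPT.BD

/-!
# Module BPT.SubQuot: exact sequences from subspaces, kernels of functionals

`exists_exact`: `A : K ^ a → K ^ ι` injective. Complete the columns of `A` to a basis of `K ^ ι`:
there are an equivalence `ε : Fin a ⊕ Fin (card ι - a) ≃ ι` (so `a ≤ card ι`) and `P ∈ GL_ι(K)` with
`P i (ε (inl j)) = A i j` (linear independence of the columns; `LinearIndependent.extend`,
`Basis.extend`, or `exists_linearIndependent...`). Let `E' = ((E.lmul P⁻¹).reindex ε.symm)`, a bundle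
on `Fin a ⊕ Fin b`: `Mem E' v y ↔ Mem E v (P (y ∘ ε.symm))` (`mem_lmul`, `mem_reindex`),
`deg E' = deg E` (`deg_lmul`, `deg_reindex`). Apply `bd` to `E'`; `B` = the rows `ε (inr j)` of
`P⁻¹`.

`exists_exact_of_functional`: `B₀ ≠ 0` a row with `Fintype.card ι = a + 1`: let `A` be a basis of the
kernel of `B₀.mulVec` (of dimension `a` by rank-nullity; `Module.finBasisOfFinrankEq` or
`finDimVectorspaceEquiv`), apply `exists_exact`, so `b = 1` up to a cast, the row `B` has the
same kernel as `B₀`, so `B = c • B₀` for some `c ≠ 0`; replacing `Q` by the line bundle `c⁻¹ Q`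
(`VB.lmul` with a `1 × 1` matrix, same degree) we may take `B = B₀`.

`deg_le_of_inj`: if `N → E` is given by `A` injective and `IsHom S E A`, and
`Exact N E Q A B`, then `deg S ≤ deg N`: `S_v ⊆ N_v` for all `v` so the identity matrix is a
homomorphism `S → N` (`isHom_iff`) and `deg_le_of_isHom` applies.
-/

namespace Pool.Agent.Lib.BPT

open Matrix WithZero

variable {K : Type} [Field K] [Algebra ℂ K] [CurveFacts K]

variable {ι : Type} [Fintype ι] [DecidableEq ι]

namespace SubQuotAux

omit [CurveFacts K] [Algebra ℂ K] in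
theorem toMatrix'_mulVec {α β : Type} [Fintype α] [DecidableEq α]
    (f : (α → K) →ₗ[K] (β → K)) (x : α → K) : (LinearMap.toMatrix' f).mulVec x = f x :=
  LinearMap.toMatrix'_mulVec f x

/-- the invertible matrix of an automorphism -/
noncomputable def ofEquiv (T : (ι → K) ≃ₗ[K] (ι → K)) : GL ι K where
  val := LinearMap.toMatrix' T.toLinearMap
  inv := LinearMap.toMatrix' T.symm.toLinearMap
  val_inv := by
    rw [← LinearMap.toMatrix'_mul, ← LinearMap.toMatrix'_one]
    congr 1
    ext x i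
    simp
  inv_val := by
    rw [← LinearMap.toMatrix'_mul, ← LinearMap.toMatrix'_one]
    congr 1
    ext x i
    simp

/-- the exact sequence of an isomorphism `K ^ a ⊕ K ^ b ≃ K ^ ι` -/
theorem exact_of_equiv {a b : ℕ} (E : VB K ι) (hab : Fintype.card ι = a + b)
    (T : (Fin a ⊕ Fin b → K) ≃ₗ[K] (ι → K)) (A : Matrix ι (Fin a) K) (B : Matrix (Fin b) ι K)
    (hA : ∀ y, T (Sum.elim y 0) = A.mulVec y) (hB : ∀ x, B.mulVec (T x) = x ∘ Sum.inr) :
    ∃ (N : VB K (Fin a)) (Q : VB K (Fin b)), Exact N E Q A B := by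
  have hcard : Fintype.card (Fin a ⊕ Fin b) = Fintype.card ι := by
    rw [hab, Fintype.card_sum, Fintype.card_fin, Fintype.card_fin]
  let e : Fin a ⊕ Fin b ≃ ι := Fintype.equivOfCardEq hcard
  let T' : (ι → K) ≃ₗ[K] (ι → K) := (LinearEquiv.funCongrLeft K K e).trans T
  let P : GL ι K := ofEquiv T'
  let E' : VB K (Fin a ⊕ Fin b) := (E.lmul P⁻¹).reindex e.symm
  have hmem : ∀ v y, Mem E' v y ↔ Mem E v (T y) := by
    intro v y
    rw [mem_reindex, mem_lmul, inv_inv]
    have h1 : P.1.mulVec (y ∘ e.symm) = T y := by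
      change (LinearMap.toMatrix' T'.toLinearMap).mulVec (y ∘ e.symm) = T y
      rw [toMatrix'_mulVec]
      change T ((y ∘ e.symm) ∘ e) = T y
      congr 1
      funext i
      simp
    rw [h1]
  obtain ⟨N, Q, hd, h1, h2, h3⟩ := bd E'
  have hinv : ∀ x, B.mulVec x = (T.symm x) ∘ Sum.inr := by
    intro x
    rw [← hB, LinearEquiv.apply_symm_apply]
  refine ⟨N, Q, ?_, ?_, ?_, ?_, ?_, ?_, ?_⟩
  · intro y y' hy
    change A.mulVec y = A.mulVec y' at hy
    rw [← hA, ← hA] at hy
    have := T.injective hy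
    funext i
    exact congrFun this (Sum.inl i)
  · intro z
    refine ⟨T (Sum.elim 0 z), ?_⟩
    rw [hB]
    rfl
  · intro x
    rw [hinv]
    constructor
    · intro hx
      refine ⟨(T.symm x) ∘ Sum.inl, ?_⟩
      rw [← hA]
      rw [← hx, Sum.elim_comp_inl_inr, LinearEquiv.apply_symm_apply]
    · rintro ⟨y, rfl⟩
      rw [← hA, LinearEquiv.symm_apply_apply]
      rfl
  · intro v x
    rw [h1, hmem, hA]
  · intro v x hx
    rw [hinv]
    apply h2
    rw [hmem, LinearEquiv.apply_symm_apply]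
    exact hx
  · intro v z hz
    obtain ⟨y, hy⟩ := h3 v z hz
    refine ⟨T (Sum.elim y z), (hmem _ _).1 hy, ?_⟩
    rw [hB]
    rfl
  · rw [← hd]
    change deg E = deg ((E.lmul P⁻¹).reindex e.symm)
    rw [deg_reindex, deg_lmul]

omit [Algebra ℂ K] [CurveFacts K] [DecidableEq ι] in
/-- a matrix with injective action is part of an isomorphism -/
theorem exists_equiv {a b : ℕ} (hab : Fintype.card ι = a + b) (A : Matrix ι (Fin a) K)
    (hA : Function.Injective A.mulVec) :
    ∃ T : (Fin a ⊕ Fin b → K) ≃ₗ[K] (ι → K), ∀ y, T (Sum.elim y 0) = A.mulVec y := by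
  have hinj : Function.Injective A.mulVecLin := fun x y h => hA h
  let W : Submodule K (ι → K) := LinearMap.range A.mulVecLin
  obtain ⟨W', hW'⟩ := Submodule.exists_isCompl W
  let eA : (Fin a → K) ≃ₗ[K] W := LinearEquiv.ofInjective A.mulVecLin hinj
  have hfW : Module.finrank K W = a := by
    rw [← LinearEquiv.finrank_eq eA, Module.finrank_fin_fun]
  have hfW' : Module.finrank K W' = b := by
    have := Submodule.finrank_add_eq_of_isCompl hW'
    rw [hfW, Module.finrank_fintype_fun_eq_card, hab] at this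
    omega
  let eB : (Fin b → K) ≃ₗ[K] W' := LinearEquiv.ofFinrankEq _ _ (by
    rw [Module.finrank_fin_fun, hfW'])
  let T : (Fin a ⊕ Fin b → K) ≃ₗ[K] (ι → K) :=
    ((LinearEquiv.sumArrowLequivProdArrow (Fin a) (Fin b) K K).trans
      (LinearEquiv.prodCongr eA eB)).trans (Submodule.prodEquivOfIsCompl W W' hW')
  refine ⟨T, fun y => ?_⟩
  change (Submodule.prodEquivOfIsCompl W W' hW') (eA y, eB 0) = A.mulVec y
  rw [Submodule.coe_prodEquivOfIsCompl', map_zero, Submodule.coe_zero, add_zero]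
  exact LinearEquiv.ofInjective_apply A.mulVecLin y

omit [Algebra ℂ K] [CurveFacts K] in
/-- a nonzero functional is part of an isomorphism -/
theorem exists_equiv_functional {a : ℕ} (hab : Fintype.card ι = a + 1)
    (B : Matrix (Fin 1) ι K) (hB : B ≠ 0) :
    ∃ T : (Fin a ⊕ Fin 1 → K) ≃ₗ[K] (ι → K), ∀ x, B.mulVec (T x) = x ∘ Sum.inr := by
  have hB' : ∃ i, B 0 i ≠ 0 := by
    by_contra hcon
    push Not at hcon
    apply hB
    ext j i
    rw [Subsingleton.elim j 0, hcon i]
    rfl
  obtain ⟨i₀, hi₀⟩ := hB'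
  have hsurj : Function.Surjective B.mulVecLin := by
    intro z
    refine ⟨Pi.single i₀ ((B 0 i₀)⁻¹ * z 0), ?_⟩
    funext j
    rw [Subsingleton.elim j 0]
    rw [Matrix.mulVecLin_apply, Matrix.mulVec_single]
    simp [Matrix.col_apply, hi₀]
  obtain ⟨s, hs⟩ := LinearMap.exists_rightInverse_of_surjective B.mulVecLin
    (LinearMap.range_eq_top.2 hsurj)
  have hs' : ∀ z, B.mulVec (s z) = z := fun z => by
    have := LinearMap.congr_fun hs z
    simpa using this
  let W : Submodule K (ι → K) := LinearMap.ker B.mulVecLin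
  have hfW : Module.finrank K W = a := by
    have h1 := LinearMap.finrank_range_add_finrank_ker B.mulVecLin
    rw [LinearMap.range_eq_top.2 hsurj, finrank_top, Module.finrank_fin_fun,
      Module.finrank_fintype_fun_eq_card, hab] at h1
    change 1 + Module.finrank K W = a + 1 at h1
    omega
  let eA : (Fin a → K) ≃ₗ[K] W := LinearEquiv.ofFinrankEq _ _ (by
    rw [Module.finrank_fin_fun, hfW])
  have hker : ∀ w : W, B.mulVec (w : ι → K) = 0 := fun w => w.2
  let F : (Fin a → K) × (Fin 1 → K) →ₗ[K] (ι → K) :=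
    LinearMap.coprod (W.subtype ∘ₗ eA.toLinearMap) s
  have hF : ∀ y z, F (y, z) = (eA y : ι → K) + s z := fun y z => by
    simp [F, LinearMap.coprod_apply]
  have hBF : ∀ y z, B.mulVec (F (y, z)) = z := fun y z => by
    rw [hF, Matrix.mulVec_add, hker, hs', zero_add]
  have hbij : Function.Bijective F := by
    constructor
    · rintro ⟨y, z⟩ ⟨y', z'⟩ h
      have hz : z = z' := by
        rw [← hBF y z, ← hBF y' z', h]
      subst hz
      rw [hF, hF, add_left_inj] at h
      have hy : y = y' := eA.injective (Subtype.ext h)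
      rw [hy]
    · intro x
      have hx : x - s (B.mulVec x) ∈ W := by
        rw [LinearMap.mem_ker, Matrix.mulVecLin_apply, Matrix.mulVec_sub, hs', sub_self]
      refine ⟨(eA.symm ⟨_, hx⟩, B.mulVec x), ?_⟩
      rw [hF, LinearEquiv.apply_symm_apply]
      simp
  let T : (Fin a ⊕ Fin 1 → K) ≃ₗ[K] (ι → K) :=
    (LinearEquiv.sumArrowLequivProdArrow (Fin a) (Fin 1) K K).trans (LinearEquiv.ofBijective F hbij)
  refine ⟨T, fun x => ?_⟩
  change B.mulVec (F (x ∘ Sum.inl, x ∘ Sum.inr)) = x ∘ Sum.inr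
  rw [hBF]

end SubQuotAux

theorem exists_exact {a b : ℕ} (E : VB K ι) (hab : Fintype.card ι = a + b) (A : Matrix ι (Fin a) K)
    (hA : Function.Injective A.mulVec) :
    ∃ (N : VB K (Fin a)) (Q : VB K (Fin b)) (B : Matrix (Fin b) ι K), Exact N E Q A B := by
  obtain ⟨T, hT⟩ := SubQuotAux.exists_equiv (b := b) hab A hA
  let B : Matrix (Fin b) ι K :=
    LinearMap.toMatrix' ((LinearMap.funLeft K K Sum.inr) ∘ₗ T.symm.toLinearMap)
  have hB : ∀ x, B.mulVec (T x) = x ∘ Sum.inr := by
    intro x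
    change (LinearMap.toMatrix' _).mulVec (T x) = _
    rw [SubQuotAux.toMatrix'_mulVec]
    change (T.symm (T x)) ∘ Sum.inr = x ∘ Sum.inr
    rw [LinearEquiv.symm_apply_apply]
  obtain ⟨N, Q, h⟩ := SubQuotAux.exact_of_equiv E hab T A B hT hB
  exact ⟨N, Q, B, h⟩

theorem exists_exact_of_functional {a : ℕ} (E : VB K ι) (hab : Fintype.card ι = a + 1)
    (B : Matrix (Fin 1) ι K) (hB : B ≠ 0) :
    ∃ (N : VB K (Fin a)) (Q : VB K (Fin 1)) (A : Matrix ι (Fin a) K), Exact N E Q A B := by
  obtain ⟨T, hT⟩ := SubQuotAux.exists_equiv_functional hab B hB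
  let A : Matrix ι (Fin a) K :=
    Matrix.of fun i j => T (Sum.elim (Pi.single j 1) 0) i
  have hA : ∀ y, T (Sum.elim y 0) = A.mulVec y := by
    intro y
    let f : (Fin a → K) →ₗ[K] (ι → K) :=
      { toFun := fun y => T (Sum.elim y 0)
        map_add' := fun y y' => by
          rw [← map_add]
          congr 1
          funext i
          rcases i with i | i <;> simp
        map_smul' := fun c y => by
          rw [RingHom.id_apply, ← map_smul]
          congr 1
          funext i
          rcases i with i | i <;> simp }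
    have h1 : A = LinearMap.toMatrix' f := by
      ext i j
      rw [LinearMap.toMatrix'_apply]
      rfl
    rw [h1, SubQuotAux.toMatrix'_mulVec]
    rfl
  obtain ⟨N, Q, h⟩ := SubQuotAux.exact_of_equiv E hab T A B hA hT
  exact ⟨N, Q, A, h⟩

theorem deg_le_of_inj {a b : ℕ} {N S : VB K (Fin a)} {E : VB K ι} {Q : VB K (Fin b)}
    {A : Matrix ι (Fin a) K} {B : Matrix (Fin b) ι K} (h : Exact N E Q A B) (hS : IsHom S E A) :
    deg S ≤ deg N := by
  have h1 : IsHom S N 1 := by
    rw [isHom_iff]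
    intro v x hx
    rw [Matrix.one_mulVec, h.sub]
    exact isHom_iff.1 hS v x hx
  refine deg_le_of_isHom h1 ?_
  rw [Matrix.det_one]
  exact one_ne_zero

end Pool.Agent.Lib.BPT
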